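import Pool.Agent.Y854.GM.Rate
import Pool.Agent.Y854.GM.Abel
import Mathlib

/-!
# Rare events along the sparse sequences `⌊α n ^ c⌋`, `c > 1`

If at most `C X (log X) ^ (-δ)` of the integers `d`, `|d| ≤ X`, have the property `Bad`, then for all
real `α > 0` outside a set of Hausdorff dimension smaller than one at most `C' N (log N) ^ (-δ)` of the
`n ≤ N` are such that `± ⌊α n ^ c⌋` has the property `Bad`, while for at least `N / 5` of the `n ≤ N`
the number `⌊α n ^ c⌋` is squarefree.  The exceptional set is the same for a countable family of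
properties.  The mean value law along the sequences is in the starting library (`Y854/GM`).
-/

set_option autoImplicit false

namespace Pool.Agent.V1118.SpD

open Finset Filter Topology
open Pool.Agent.Y854.PS
open Pool.Agent.Y854.GM

/-- The number of the `1 ≤ n ≤ N` for which `⌊α n ^ c⌋` has the property `Q`. -/
noncomputable def along (α c : ℝ) (Q : ℕ → Prop) (N : ℕ) : ℕ :=
  {n : ℕ | 1 ≤ n ∧ n ≤ N ∧ Q ⌊α * (n : ℝ) ^ c⌋₊}.ncard

/-- A positive proportion of the numbers `⌊α n ^ c⌋` is squarefree. -/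
def ManySquarefree (α c : ℝ) : Prop :=
  ∃ N0 : ℕ, ∀ N : ℕ, N0 ≤ N → (N : ℝ) / 5 ≤ along α c (fun m => Squarefree m) N

/-- At most `C N (log N) ^ (-δ)` of the `n ≤ N` are such that `s ⌊α n ^ c⌋` has the property `Bad`,
for `s = 1` and for `s = -1`. -/
def FewAlong (α c δ : ℝ) (Bad : ℤ → Prop) : Prop :=
  ∃ C : ℝ, ∀ s : ℤ, (s = 1 ∨ s = -1) → ∀ N : ℕ, 3 ≤ N →
    (along α c (fun m => Bad (s * m)) N : ℝ) ≤ C * N * (Real.log N) ^ (-δ)

lemma along_le (α c : ℝ) (Q : ℕ → Prop) (N : ℕ) : along α c Q N ≤ N := by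
  unfold along
  have h : {n : ℕ | 1 ≤ n ∧ n ≤ N ∧ Q ⌊α * (n : ℝ) ^ c⌋₊} ⊆ ((Finset.Icc 1 N : Finset ℕ) : Set ℕ) := by
    rintro n ⟨h1, h2, -⟩
    rw [Finset.mem_coe, Finset.mem_Icc]
    exact ⟨h1, h2⟩
  refine (Set.ncard_le_ncard h (Finset.finite_toSet _)).trans ?_
  rw [Set.ncard_coe_finset, Nat.card_Icc]
  omega

open Classical in
lemma along_eq (α c : ℝ) (Q : ℕ → Prop) (N : ℕ) :
    along α c Q N = ((Icc 1 N).filter (fun n : ℕ => ⌊α * (n : ℝ) ^ c⌋₊ ∈ {t | Q t})).card := by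
  unfold along
  rw [← Set.ncard_coe_finset]
  congr 1
  ext n
  simp [and_assoc]

/-- the sum of the `1 / k ^ 2` -/
lemma sum_sq (K : ℕ) (hK : 2 ≤ K) : ∑ k ∈ Icc 2 K, (1 : ℝ) / (k : ℝ) ^ 2 ≤ 3 / 4 - 1 / K := by
  induction K, hK using Nat.le_induction with
  | base => norm_num
  | succ n hn ih =>
    rw [← Finset.insert_Icc_right_eq_Icc_add_one (by omega), Finset.sum_insert (by simp)]
    have hnp : (2 : ℝ) ≤ n := by exact_mod_cast hn
    have h1 : (1 : ℝ) / ((n + 1 : ℕ) : ℝ) ^ 2 ≤ 1 / n - 1 / ((n + 1 : ℕ) : ℝ) := by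
      push_cast
      rw [div_sub_div _ _ (by linarith) (by linarith), div_le_div_iff₀ (by positivity) (by positivity)]
      nlinarith
    linarith

open Classical in
lemma sqfree_count (X : ℕ) : (1 : ℝ) / 4 * X ≤ ((Ioc 0 X).filter (fun t : ℕ => Squarefree t)).card := by
  have h1 : ((Ioc 0 X).filter (fun t : ℕ => ¬ Squarefree t)).card ≤ ∑ k ∈ Icc 2 X, X / k ^ 2 := by
    have hsub : (Ioc 0 X).filter (fun t : ℕ => ¬ Squarefree t) ⊆
        (Icc 2 X).biUnion (fun k => (Ioc 0 X).filter (fun t => k ^ 2 ∣ t)) := by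
      intro t ht
      rw [mem_filter, mem_Ioc] at ht
      obtain ⟨⟨h0, hX⟩, hns⟩ := ht
      rw [Nat.squarefree_iff_prime_squarefree] at hns
      push Not at hns
      obtain ⟨p, hp, hd⟩ := hns
      rw [mem_biUnion]
      refine ⟨p, ?_, ?_⟩
      · rw [mem_Icc]
        refine ⟨hp.two_le, ?_⟩
        have h2 := Nat.le_of_dvd h0 hd
        nlinarith [hp.two_le]
      · rw [mem_filter, mem_Ioc]
        refine ⟨⟨h0, hX⟩, ?_⟩
        rwa [pow_two]
    refine (card_le_card hsub).trans (card_biUnion_le.trans ?_)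
    refine sum_le_sum fun k _ => ?_
    rw [Nat.Ioc_filter_dvd_card_eq_div]
  have h2 : (∑ k ∈ Icc 2 X, X / k ^ 2 : ℕ) ≤ (3 / 4 : ℝ) * X := by
    rcases lt_or_ge X 2 with hX | hX
    · rw [Icc_eq_empty (by omega)]
      simp
    · push_cast
      have h3 : ∀ k ∈ Icc 2 X, ((X / k ^ 2 : ℕ) : ℝ) ≤ X * (1 / (k : ℝ) ^ 2) := by
        intro k _
        refine (Nat.cast_div_le).trans ?_
        push_cast
        rw [mul_one_div]
      refine (sum_le_sum h3).trans ?_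
      rw [← mul_sum]
      have h4 := sum_sq X hX
      have h5 : (0 : ℝ) ≤ 1 / X := by positivity
      have h6 : (0 : ℝ) ≤ X := Nat.cast_nonneg _
      nlinarith
  have h3 := Finset.card_filter_add_card_filter_not (s := Ioc 0 X) (fun t : ℕ => Squarefree t)
  rw [Nat.card_Ioc, Nat.sub_zero] at h3
  have h4 : (((Ioc 0 X).filter (fun t : ℕ => ¬ Squarefree t)).card : ℝ) ≤ (3 / 4 : ℝ) * X :=
    le_trans (by exact_mod_cast h1) h2
  have h5 : (((Ioc 0 X).filter (fun t : ℕ => Squarefree t)).card : ℝ) +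
      ((Ioc 0 X).filter (fun t : ℕ => ¬ Squarefree t)).card = X := by exact_mod_cast h3
  linarith

lemma many (c : ℝ) (hc : 1 < c) : ∃ E : Set ℝ, dimH E < 1 ∧ ∀ α : ℝ, 0 < α → α ∉ E →
    ManySquarefree α c := by
  classical
  obtain ⟨κ, hκ, hκ1, hmean⟩ := mean2 c hc
  obtain ⟨E, hE, hlaw⟩ := hmean (ι := Unit) (fun _ t => if Squarefree t then 1 else 0)
  refine ⟨E, hE, fun α hα hαE => ?_⟩
  obtain ⟨N0, hN0⟩ := hlaw α hα hαE () ⟨1, one_pos, fun m hm => by
    have h1 : (1 : ℝ) ≤ (m : ℝ) ^ κ := Real.one_le_rpow (by exact_mod_cast hm) hκ.le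
    split_ifs <;> simp <;> linarith⟩
  obtain ⟨N1, hN1⟩ := seq_lower hα hc hκ (fun t : ℕ => if Squarefree t then (1 : ℝ) else 0)
    (δ := 1 / 4) (C := 0) (fun X => by
      have h := sqfree_count X
      rw [sub_zero, Finset.sum_boole]
      convert h) N0 hN0 (1 / 20) (by norm_num)
  refine ⟨N1, fun N hN => ?_⟩
  have h := hN1 N hN
  rw [along_eq]
  have e : ∑ n ∈ Icc 1 N, (fun t : ℕ => if Squarefree t then (1 : ℝ) else 0) ⌊α * (n : ℝ) ^ c⌋₊ =
      (((Icc 1 N).filter (fun n : ℕ => ⌊α * (n : ℝ) ^ c⌋₊ ∈ {t : ℕ | Squarefree t})).card : ℝ) := by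
    simp only
    rw [Finset.sum_boole]
    rfl
  rw [e] at h
  have h2 : ((1 : ℝ) / 4 - 1 / 20) * N ≤
      (((Icc 1 N).filter (fun n : ℕ => ⌊α * (n : ℝ) ^ c⌋₊ ∈ {t : ℕ | Squarefree t})).card : ℝ) := by
    convert h
  refine le_trans ?_ (h2.trans (le_of_eq ?_))
  · have : (0 : ℝ) ≤ N := Nat.cast_nonneg _
    nlinarith
  · congr!

/-- **Sparse sequences.** -/
theorem few_along (c : ℝ) (hc : 1 < c) {ι : Type} [Countable ι] (Bad : ι → ℤ → Prop) :
    ∃ E : Set ℝ, dimH E < 1 ∧ ∀ α : ℝ, 0 < α → α ∉ E → ManySquarefree α c ∧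
      ∀ (k : ι) (δ C : ℝ), 0 ≤ δ →
      (∃ X0 : ℕ, ∀ X : ℕ, X0 ≤ X → ({d : ℤ | d.natAbs ≤ X ∧ Bad k d}.ncard : ℝ) ≤
        C * X * (Real.log X) ^ (-δ)) → FewAlong α c δ (Bad k) := by
  classical
  obtain ⟨E, hE, h⟩ := sets_lpow c hc (ι := ι × ℤ) (fun v => {t | Bad v.1 (v.2 * t)})
  obtain ⟨E', hE', h'⟩ := many c hc
  refine ⟨E ∪ E', by rw [dimH_union]; exact max_lt hE hE', fun α hα hαE => ?_⟩
  rw [Set.mem_union, not_or] at hαE
  refine ⟨h' α hα hαE.2, fun k δ C hδ hX => ?_⟩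
  obtain ⟨X0, hX0⟩ := hX
  have hone : ∀ s : ℤ, (s = 1 ∨ s = -1) → ∃ C : ℝ, 0 ≤ C ∧ ∀ N : ℕ, 3 ≤ N →
      (along α c (fun m => Bad k (s * m)) N : ℝ) ≤ C * N * (Real.log N) ^ (-δ) := by
    intro s hs
    obtain ⟨C', hC', N0, hN0⟩ := h α hα hαE.1 (k, s) δ |C| hδ (abs_nonneg C) ⟨max X0 3, fun X hX => by
      have hX1 : X0 ≤ X := (le_max_left _ _).trans hX
      have hX3 : 3 ≤ X := (le_max_right _ _).trans hX
      have h1 := hX0 X hX1
      have hfin : {d : ℤ | d.natAbs ≤ X ∧ Bad k d}.Finite := by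
        refine (Finset.finite_toSet (Finset.Icc (-(X : ℤ)) X)).subset ?_
        rintro d ⟨hd, -⟩
        rw [Finset.mem_coe, Finset.mem_Icc]
        omega
      have h2 : ((Ioc 0 X).filter (fun t => t ∈ {t : ℕ | Bad k (s * t)})).card ≤
          {d : ℤ | d.natAbs ≤ X ∧ Bad k d}.ncard := by
        rw [← Set.ncard_coe_finset]
        refine Set.ncard_le_ncard_of_injOn (fun t : ℕ => s * (t : ℤ)) ?_ ?_ hfin
        · intro t ht
          rw [Finset.mem_coe, mem_filter, mem_Ioc] at ht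
          refine ⟨?_, ht.2⟩
          rcases hs with rfl | rfl
          · simpa using ht.1.2
          · simpa using ht.1.2
        · intro a _ b _ hab
          have hab' : s * (a : ℤ) = s * (b : ℤ) := hab
          rcases hs with rfl | rfl
          · simpa using hab'
          · simpa using hab'
      have h3 : (((Ioc 0 X).filter (fun t => t ∈ {t : ℕ | Bad k (s * t)})).card : ℝ) ≤
          {d : ℤ | d.natAbs ≤ X ∧ Bad k d}.ncard := by exact_mod_cast h2
      refine h3.trans (h1.trans ?_)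
      have hlog : 0 ≤ Real.log X := Real.log_natCast_nonneg X
      rw [Real.rpow_neg hlog, ← div_eq_mul_inv]
      apply div_le_div_of_nonneg_right _ (Real.rpow_nonneg hlog δ)
      exact mul_le_mul_of_nonneg_right (le_abs_self C) (Nat.cast_nonneg X)⟩
    have hl0 : 0 ≤ Real.log ((max N0 3 : ℕ) : ℝ) := Real.log_natCast_nonneg _
    refine ⟨max C' ((Real.log ((max N0 3 : ℕ) : ℝ)) ^ δ), le_max_of_le_left hC'.le, fun N hN => ?_⟩
    have hN3 : (3 : ℝ) ≤ N := by exact_mod_cast hN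
    have hlN : 0 < Real.log N := Real.log_pos (by linarith)
    have hp : 0 < (Real.log N) ^ (-δ) := Real.rpow_pos_of_pos hlN _
    rcases le_or_gt N0 N with hN' | hN'
    · have h1 := hN0 N hN'
      rw [along_eq]
      refine h1.trans ?_
      rw [div_eq_mul_inv, ← Real.rpow_neg hlN.le]
      apply mul_le_mul_of_nonneg_right _ hp.le
      exact mul_le_mul_of_nonneg_right (le_max_left _ _) (by linarith)
    · have h1 : (along α c (fun m => Bad k (s * m)) N : ℝ) ≤ N := by exact_mod_cast along_le _ _ _ _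
      refine h1.trans ?_
      have h2 : (Real.log N) ^ δ ≤ (Real.log ((max N0 3 : ℕ) : ℝ)) ^ δ := by
        apply Real.rpow_le_rpow hlN.le _ hδ
        apply Real.log_le_log (by linarith)
        exact_mod_cast hN'.le.trans (le_max_left _ _)
      have h3 : 1 ≤ (Real.log ((max N0 3 : ℕ) : ℝ)) ^ δ * (Real.log N) ^ (-δ) := by
        calc (1 : ℝ) = (Real.log N) ^ δ * (Real.log N) ^ (-δ) := by
              rw [← Real.rpow_add hlN]
              simp
          _ ≤ _ := mul_le_mul_of_nonneg_right h2 hp.le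
      calc (N : ℝ) = N * 1 := (mul_one _).symm
        _ ≤ N * ((Real.log ((max N0 3 : ℕ) : ℝ)) ^ δ * (Real.log N) ^ (-δ)) :=
            mul_le_mul_of_nonneg_left h3 (by linarith)
        _ = (Real.log ((max N0 3 : ℕ) : ℝ)) ^ δ * N * (Real.log N) ^ (-δ) := by ring
        _ ≤ _ := by
            apply mul_le_mul_of_nonneg_right _ hp.le
            exact mul_le_mul_of_nonneg_right (le_max_right _ _) (by linarith)
  obtain ⟨C1, hC1, h1⟩ := hone 1 (Or.inl rfl)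
  obtain ⟨C2, hC2, h2⟩ := hone (-1) (Or.inr rfl)
  refine ⟨max C1 C2, fun s hs N hN => ?_⟩
  have hN3 : (3 : ℝ) ≤ N := by exact_mod_cast hN
  have hlN : 0 < Real.log N := Real.log_pos (by linarith)
  have hp : 0 < (Real.log N) ^ (-δ) := Real.rpow_pos_of_pos hlN _
  rcases hs with rfl | rfl
  · refine (h1 N hN).trans ?_
    apply mul_le_mul_of_nonneg_right _ hp.le
    exact mul_le_mul_of_nonneg_right (le_max_left _ _) (by linarith)
  · refine (h2 N hN).trans ?_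
    apply mul_le_mul_of_nonneg_right _ hp.le
    exact mul_le_mul_of_nonneg_right (le_max_right _ _) (by linarith)

/-- the same, for families with exponents that depend on the member only -/
theorem uniform {ι : Type} [Countable ι] (H : ι → Prop) (Bad : ι → ℤ → Prop)
    (hst : ∀ k, H k → ∃ δ : ℝ, 0 < δ ∧ ∃ C : ℝ, ∀ X : ℕ, 3 ≤ X →
      ({d : ℤ | d.natAbs ≤ X ∧ Bad k d}.ncard : ℝ) ≤ C * X * (Real.log X) ^ (-δ)) :
    ∃ δ : ι → ℝ, (∀ k, 0 < δ k) ∧ ∀ c : ℝ, 1 < c → ∃ E : Set ℝ, dimH E < 1 ∧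
      ∀ α : ℝ, 0 < α → α ∉ E → ManySquarefree α c ∧ ∀ k, H k → FewAlong α c (δ k) (Bad k) := by
  classical
  have h1 : ∀ k, ∃ δ : ℝ, 0 < δ ∧ (H k → ∃ C : ℝ, ∀ X : ℕ, 3 ≤ X →
      ({d : ℤ | d.natAbs ≤ X ∧ Bad k d}.ncard : ℝ) ≤ C * X * (Real.log X) ^ (-δ)) := by
    intro k
    by_cases hk : H k
    · obtain ⟨δ, hδ, h⟩ := hst k hk
      exact ⟨δ, hδ, fun _ => h⟩
    · exact ⟨1, one_pos, fun h => absurd h hk⟩
  choose δ hδ h using h1
  refine ⟨δ, hδ, fun c hc => ?_⟩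
  obtain ⟨E, hE, hlaw⟩ := few_along c hc Bad
  refine ⟨E, hE, fun α hα hαE => ⟨(hlaw α hα hαE).1, fun k hk => ?_⟩⟩
  obtain ⟨C, hC⟩ := h k hk
  exact (hlaw α hα hαE).2 k (δ k) C (hδ k).le ⟨3, hC⟩

/-- a fixed exponent -/
theorem uniform_const {ι : Type} [Countable ι] (H : ι → Prop) (Bad : ι → ℤ → Prop) {δ : ℝ}
    (hδ : 0 ≤ δ) (hst : ∀ k, H k → ∃ C : ℝ, ∀ X : ℕ, 3 ≤ X →
      ({d : ℤ | d.natAbs ≤ X ∧ Bad k d}.ncard : ℝ) ≤ C * X * (Real.log X) ^ (-δ)) (c : ℝ)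
    (hc : 1 < c) : ∃ E : Set ℝ, dimH E < 1 ∧
      ∀ α : ℝ, 0 < α → α ∉ E → ManySquarefree α c ∧ ∀ k, H k → FewAlong α c δ (Bad k) := by
  obtain ⟨E, hE, hlaw⟩ := few_along c hc Bad
  refine ⟨E, hE, fun α hα hαE => ⟨(hlaw α hα hαE).1, fun k hk => ?_⟩⟩
  obtain ⟨C, hC⟩ := hst k hk
  exact (hlaw α hα hαE).2 k δ C hδ ⟨3, hC⟩

/-- the union of two exceptional sets -/
theorem comb {A B : ℝ → Prop} (hA : ∃ E : Set ℝ, dimH E < 1 ∧ ∀ α : ℝ, 0 < α → α ∉ E → A α)
    (hB : ∃ E : Set ℝ, dimH E < 1 ∧ ∀ α : ℝ, 0 < α → α ∉ E → B α) :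
    ∃ E : Set ℝ, dimH E < 1 ∧ ∀ α : ℝ, 0 < α → α ∉ E → A α ∧ B α := by
  obtain ⟨E, hE, h⟩ := hA
  obtain ⟨E', hE', h'⟩ := hB
  refine ⟨E ∪ E', by rw [dimH_union]; exact max_lt hE hE', fun α hα hαE => ?_⟩
  rw [Set.mem_union, not_or] at hαE
  exact ⟨h α hα hαE.1, h' α hα hαE.2⟩

lemma FewAlong.mono {α c δ δ' : ℝ} {Bad : ℤ → Prop} (h : FewAlong α c δ Bad) (hδ : δ' ≤ δ) :
    FewAlong α c δ' Bad := by
  obtain ⟨C, hC⟩ := h
  refine ⟨|C|, fun s hs N hN => (hC s hs N hN).trans ?_⟩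
  have hN3 : (3 : ℝ) ≤ N := by exact_mod_cast hN
  have hlN : 1 ≤ Real.log N := by
    rw [Real.le_log_iff_exp_le (by linarith)]
    linarith [Real.exp_one_lt_d9]
  have h1 : (Real.log N) ^ (-δ) ≤ (Real.log N) ^ (-δ') :=
    Real.rpow_le_rpow_of_exponent_le hlN (by linarith)
  have h2 : 0 ≤ (Real.log N) ^ (-δ) := Real.rpow_nonneg (by linarith) _
  have h3 : C * N ≤ |C| * N := mul_le_mul_of_nonneg_right (le_abs_self C) (by linarith)
  calc C * N * (Real.log N) ^ (-δ) ≤ |C| * N * (Real.log N) ^ (-δ) :=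
        mul_le_mul_of_nonneg_right h3 h2
    _ ≤ |C| * N * (Real.log N) ^ (-δ') := mul_le_mul_of_nonneg_left h1 (by positivity)

/-- the polynomials with integral coefficients are countable -/
instance countablePoly : Countable (Polynomial ℤ) := by
  rw [← Cardinal.mk_le_aleph0_iff]
  exact Polynomial.cardinalMk_le_max.trans (by simp)

/-- the index set of the finite families of polynomials -/
abbrev Fams : Type := Σ r : ℕ, (Fin r → Polynomial ℤ)

example : Countable Fams := inferInstance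

end Pool.Agent.V1118.SpD
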