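import Mathlib

/-!
# Geometric representations of Coxeter systems and limit directions

General definitions, and the facts on the universal Coxeter group of rank three with all labels
infinite and all off-diagonal values of the form equal to `-1`.
-/

set_option linter.unusedSectionVars false
set_option linter.unnecessarySeqFocus false

open Filter Topology
open scoped LinearAlgebra.Projectivization

namespace Pool.Agent.V1118.Cox

/-- A Coxeter matrix on `S` together with a choice of the values of the bilinear form: `B s s = 1`,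
`B s t = -cos (π / m_{st})` if `m_{st} < ∞`, and `B s t ≤ -1` if `m_{st} = ∞` (in Mathlib's
convention `M s t = 0` stands for `m_{st} = ∞`). -/
structure Datum (S : Type) [Fintype S] [DecidableEq S] where
  /-- the Coxeter matrix -/
  M : CoxeterMatrix S
  /-- the matrix of the bilinear form in the basis of simple roots -/
  B : S → S → ℝ
  B_symm : ∀ s t, B s t = B t s
  B_diag : ∀ s, B s s = 1
  B_fin : ∀ s t, s ≠ t → M s t ≠ 0 → B s t = -Real.cos (Real.pi / M s t)
  B_inf : ∀ s t, M s t = 0 → B s t ≤ -1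

section proj

variable {S : Type} [Fintype S] [DecidableEq S]

/-- The usual topology of the real projective space: the quotient topology. -/
noncomputable instance projTop : TopologicalSpace (ℙ ℝ (S → ℝ)) :=
  TopologicalSpace.coinduced
    (fun v : {v : S → ℝ // v ≠ 0} => Projectivization.mk ℝ v.1 v.2) inferInstance

/-- The map of the projective space induced by an invertible linear map. -/
noncomputable def act (g : (S → ℝ) ≃ₗ[ℝ] (S → ℝ)) (p : ℙ ℝ (S → ℝ)) : ℙ ℝ (S → ℝ) :=
  Projectivization.map (g : (S → ℝ) →ₗ[ℝ] (S → ℝ)) g.injective p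

end proj

namespace Datum

variable {S : Type} [Fintype S] [DecidableEq S] (D : Datum S)

/-- The bilinear form. -/
def form (x y : S → ℝ) : ℝ := ∑ s, ∑ t, x s * D.B s t * y t

/-- The simple root `α_s`. -/
def simpleRoot (s : S) : S → ℝ := Pi.single s 1

/-- The group `W`, acting on `V`: the group of linear automorphisms of `V` generated by the
reflections `s (x) = x - 2 B (α_s, x) α_s`. -/
def W : Subgroup ((S → ℝ) ≃ₗ[ℝ] (S → ℝ)) :=
  Subgroup.closure {g | ∃ s, ∀ x, g x = x - (2 * D.form (simpleRoot s) x) • simpleRoot s}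

/-- The roots. -/
def roots : Set (S → ℝ) := {x | ∃ g ∈ D.W, ∃ s, x = g (simpleRoot s)}

/-- The form has signature `(n - 1, 1)`: there is an orthogonal basis one of whose members has
square `-1` and all whose other members have square `1`. -/
def IsLorentzian : Prop :=
  ∃ (b : Module.Basis S ℝ (S → ℝ)) (s₀ : S), ∀ s t,
    D.form (b s) (b t) = if s = t then (if s = s₀ then -1 else 1) else 0

/-- The `W`-orbit of a point of the projective space. -/
def orbit (p : ℙ ℝ (S → ℝ)) : Set (ℙ ℝ (S → ℝ)) := {q | ∃ g ∈ D.W, q = act g p}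

/-- The set of limit roots: the accumulation points of the set of directions of roots. -/
def limitRoots : Set (ℙ ℝ (S → ℝ)) :=
  {p | AccPt p (𝓟 {q | ∃ (x : S → ℝ) (hx : x ≠ 0), x ∈ D.roots ∧ q = Projectivization.mk ℝ x hx})}

/-- The set `E_x` of accumulation points of the orbit of `x`. -/
def limitSet (x : ℙ ℝ (S → ℝ)) : Set (ℙ ℝ (S → ℝ)) := {p | AccPt p (𝓟 (D.orbit x))}

/-- The catchment set of limit roots. -/
def catchment : Set (ℙ ℝ (S → ℝ)) := {x | D.limitSet x = D.limitRoots}

end Datum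

/-! ### Topology of the projective space -/

section proj2

variable {S : Type} [Fintype S] [DecidableEq S]

lemma continuous_mk' :
    Continuous (fun v : {v : S → ℝ // v ≠ 0} => Projectivization.mk ℝ v.1 v.2) :=
  continuous_coinduced_rng

lemma tendsto_mk {ι : Type*} {l : Filter ι} {v : ι → S → ℝ} (hv : ∀ i, v i ≠ 0) {u : S → ℝ}
    (hu : u ≠ 0) (h : Tendsto v l (𝓝 u)) :
    Tendsto (fun i => Projectivization.mk ℝ (v i) (hv i)) l (𝓝 (Projectivization.mk ℝ u hu)) := by
  have h1 : Tendsto (fun i => (⟨v i, hv i⟩ : {v : S → ℝ // v ≠ 0})) l (𝓝 ⟨u, hu⟩) :=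
    tendsto_subtype_rng.2 h
  exact (continuous_mk'.tendsto ⟨u, hu⟩).comp h1

lemma continuous_lift {X : Type*} [TopologicalSpace X] (f : ℙ ℝ (S → ℝ) → X)
    (h : Continuous (fun v : {v : S → ℝ // v ≠ 0} => f (Projectivization.mk ℝ v.1 v.2))) :
    Continuous f :=
  continuous_coinduced_dom.2 h

lemma act_mk (g : (S → ℝ) ≃ₗ[ℝ] (S → ℝ)) (v : S → ℝ) (hv : v ≠ 0) :
    act g (Projectivization.mk ℝ v hv) =
      Projectivization.mk ℝ (g v) (by simpa using hv) := rfl

lemma continuous_act (g : (S → ℝ) ≃ₗ[ℝ] (S → ℝ)) : Continuous (act g) := by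
  refine continuous_lift _ ?_
  have h1 : Continuous (fun v : {v : S → ℝ // v ≠ 0} =>
      (⟨g v.1, by simpa using v.2⟩ : {v : S → ℝ // v ≠ 0})) := by
    refine Continuous.subtype_mk ?_ _
    have : Continuous g := (g : (S → ℝ) →ₗ[ℝ] (S → ℝ)).continuous_of_finiteDimensional
    exact this.comp continuous_subtype_val
  exact continuous_mk'.comp h1

lemma act_mul (g h : (S → ℝ) ≃ₗ[ℝ] (S → ℝ)) (p : ℙ ℝ (S → ℝ)) :
    act (g * h) p = act g (act h p) := by
  induction p with | h v hv => rfl

lemma act_one (p : ℙ ℝ (S → ℝ)) : act (1 : (S → ℝ) ≃ₗ[ℝ] (S → ℝ)) p = p := by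
  induction p with | h v hv => rfl

lemma act_injective (g : (S → ℝ) ≃ₗ[ℝ] (S → ℝ)) : Function.Injective (act g) := by
  intro p q h
  have h1 : act (g⁻¹) (act g p) = act (g⁻¹) (act g q) := by rw [h]
  rwa [← act_mul, ← act_mul, inv_mul_cancel, act_one, act_one] at h1

/-- The squared Euclidean norm. -/
def nsq (v : S → ℝ) : ℝ := ∑ s, v s ^ 2

lemma nsq_pos {v : S → ℝ} (hv : v ≠ 0) : 0 < nsq v := by
  obtain ⟨s, hs⟩ := Function.ne_iff.1 hv
  have h1 : v s ^ 2 ≤ nsq v :=
    Finset.single_le_sum (f := fun s => v s ^ 2) (fun s _ => sq_nonneg _) (Finset.mem_univ s)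
  have h2 : 0 < v s ^ 2 := by
    have : v s ≠ 0 := hs
    positivity
  linarith

lemma nsq_smul (a : ℝ) (v : S → ℝ) : nsq (a • v) = a ^ 2 * nsq v := by
  unfold nsq
  rw [Finset.mul_sum]
  refine Finset.sum_congr rfl fun s _ => ?_
  simp only [Pi.smul_apply, smul_eq_mul]
  ring

lemma continuous_nsq : Continuous (nsq (S := S)) := by
  unfold nsq
  fun_prop

/-- The Veronese embedding of the projective space. -/
noncomputable def ver (p : ℙ ℝ (S → ℝ)) : S → S → ℝ :=
  Projectivization.lift
    (fun v : {v : S → ℝ // v ≠ 0} => fun s t => v.1 s * v.1 t / nsq v.1) (by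
    rintro ⟨a, ha⟩ ⟨b, hb⟩ t hab
    simp only at hab
    subst hab
    funext s u
    have ht : t ≠ 0 := by
      rintro rfl
      simp at ha
    have h1 := (nsq_pos hb).ne'
    simp only [Pi.smul_apply, smul_eq_mul, nsq_smul]
    field_simp) p

lemma ver_mk (v : S → ℝ) (hv : v ≠ 0) (s t : S) :
    ver (Projectivization.mk ℝ v hv) s t = v s * v t / nsq v := rfl

lemma continuous_ver : Continuous (ver (S := S)) := by
  refine continuous_lift _ ?_
  refine continuous_pi fun s => continuous_pi fun t => ?_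
  simp only [ver_mk]
  refine Continuous.div ?_ (continuous_nsq.comp continuous_subtype_val)
    (fun v => (nsq_pos v.2).ne')
  exact ((continuous_apply s).comp continuous_subtype_val).mul
    ((continuous_apply t).comp continuous_subtype_val)

lemma ver_injective : Function.Injective (ver (S := S)) := by
  intro p q h
  induction p with | h v hv =>
  induction q with | h w hw =>
  obtain ⟨s, hs⟩ := Function.ne_iff.1 hv
  have hs' : v s ≠ 0 := hs
  have h1 := (nsq_pos hv).ne'
  have h2 := (nsq_pos hw).ne'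
  rw [Projectivization.mk_eq_mk_iff']
  refine ⟨nsq v * w s / (nsq w * v s), ?_⟩
  funext t
  have h3 := congrFun (congrFun h s) t
  rw [ver_mk, ver_mk] at h3
  simp only [Pi.smul_apply, smul_eq_mul]
  field_simp at h3 ⊢
  linear_combination -h3

instance : T2Space (ℙ ℝ (S → ℝ)) := T2Space.of_injective_continuous ver_injective continuous_ver

lemma accPt_of_seq {X : Type*} [TopologicalSpace X] {p : X} {C : Set X} (y : ℕ → X)
    (hy : Tendsto y atTop (𝓝 p)) (h : ∀ᶠ n in atTop, y n ≠ p ∧ y n ∈ C) : AccPt p (𝓟 C) := by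
  rw [accPt_iff_frequently]
  exact hy.frequently h.frequently

lemma isClosed_acc {X : Type*} [TopologicalSpace X] [T1Space X] (C : Set X) :
    IsClosed {p | AccPt p (𝓟 C)} := by
  rw [← isOpen_compl_iff, isOpen_iff_mem_nhds]
  intro p hp
  have hp' : ¬ AccPt p (𝓟 C) := hp
  rw [accPt_iff_nhds] at hp'
  push Not at hp'
  obtain ⟨U, hU, hU2⟩ := hp'
  obtain ⟨V, hVU, hVo, hpV⟩ := mem_nhds_iff.1 hU
  refine mem_of_superset (hVo.mem_nhds hpV) fun q hq => ?_
  change ¬ AccPt q (𝓟 C)
  by_cases hqp : q = p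
  · rw [hqp]
    exact hp
  · rw [accPt_iff_nhds]
    push Not
    refine ⟨V \ {p}, ?_, ?_⟩
    · exact (hVo.sdiff isClosed_singleton).mem_nhds ⟨hq, hqp⟩
    · rintro y ⟨⟨hyV, hyp⟩, hyC⟩
      exact absurd (hU2 y ⟨hVU hyV, hyC⟩) hyp

lemma acc_act (g : (S → ℝ) ≃ₗ[ℝ] (S → ℝ)) {C : Set (ℙ ℝ (S → ℝ))} {p : ℙ ℝ (S → ℝ)}
    (hC : ∀ q ∈ C, act g q ∈ C) (hp : AccPt p (𝓟 C)) : AccPt (act g p) (𝓟 C) := by
  rw [accPt_iff_nhds] at hp ⊢
  intro U hU
  obtain ⟨y, ⟨hyU, hyC⟩, hyp⟩ := hp _ ((continuous_act g).continuousAt.preimage_mem_nhds hU)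
  exact ⟨act g y, ⟨hyU, hC y hyC⟩, fun h => hyp (act_injective g h)⟩

end proj2

/-! ### The universal Coxeter group of rank three -/

/-- Rank three, all `m_{st}` infinite (`s ≠ t`), all off-diagonal values of the form `-1`. -/
noncomputable def uni : Datum (Fin 3) where
  M :=
    { M := fun i j => if i = j then 1 else 0
      isSymm := by
        ext i j
        simp [Matrix.transpose, eq_comm]
      diagonal := fun i => by simp
      off_diagonal := fun i j h => by simp [h] }
  B := fun i j => if i = j then 1 else -1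
  B_symm := fun s t => by simp [eq_comm]
  B_diag := fun s => by simp
  B_fin := fun s t h h' => by
    exfalso
    apply h'
    change (if s = t then 1 else 0) = 0
    rw [if_neg h]
  B_inf := fun s t h => by
    have h' : (if s = t then 1 else 0) = 0 := h
    by_cases hst : s = t
    · rw [if_pos hst] at h'
      omega
    · rw [if_neg hst]

lemma form_uni (x y : Fin 3 → ℝ) : uni.form x y =
    x 0 * y 0 + x 1 * y 1 + x 2 * y 2 - (x 0 * y 1 + x 1 * y 0) - (x 0 * y 2 + x 2 * y 0) -
      (x 1 * y 2 + x 2 * y 1) := by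
  simp only [Datum.form, uni, Fin.sum_univ_three]
  simp
  ring

lemma form_self (x : Fin 3 → ℝ) :
    uni.form x x = (x 2 - x 0 - x 1) ^ 2 - 4 * x 0 * x 1 := by
  rw [form_uni]
  ring

/-- The reflection in the simple root `i`. -/
noncomputable def R (i : Fin 3) (x : Fin 3 → ℝ) : Fin 3 → ℝ :=
  x - (2 * uni.form (Datum.simpleRoot i) x) • Datum.simpleRoot i

lemma R_zero (x : Fin 3 → ℝ) : R 0 x = ![-x 0 + 2 * x 1 + 2 * x 2, x 1, x 2] := by
  funext j
  fin_cases j <;> simp [R, form_uni, Datum.simpleRoot] <;> ring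

lemma R_one (x : Fin 3 → ℝ) : R 1 x = ![x 0, -x 1 + 2 * x 0 + 2 * x 2, x 2] := by
  funext j
  fin_cases j <;> simp [R, form_uni, Datum.simpleRoot] <;> ring

lemma R_two (x : Fin 3 → ℝ) : R 2 x = ![x 0, x 1, -x 2 + 2 * x 0 + 2 * x 1] := by
  funext j
  fin_cases j <;> simp [R, form_uni, Datum.simpleRoot] <;> ring

lemma form_add_right (x y z : Fin 3 → ℝ) : uni.form x (y + z) = uni.form x y + uni.form x z := by
  simp only [form_uni, Pi.add_apply]
  ring

lemma form_smul_right (a : ℝ) (x y : Fin 3 → ℝ) : uni.form x (a • y) = a * uni.form x y := by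
  simp only [form_uni, Pi.smul_apply, smul_eq_mul]
  ring

lemma R_R (i : Fin 3) (x : Fin 3 → ℝ) : R i (R i x) = x := by
  funext j
  fin_cases i
  · change R 0 (R 0 x) j = x j
    rw [R_zero, R_zero]
    fin_cases j <;> simp <;> ring
  · change R 1 (R 1 x) j = x j
    rw [R_one, R_one]
    fin_cases j <;> simp <;> ring
  · change R 2 (R 2 x) j = x j
    rw [R_two, R_two]
    fin_cases j <;> simp <;> ring

/-- The reflections as linear equivalences. -/
noncomputable def sr (i : Fin 3) : (Fin 3 → ℝ) ≃ₗ[ℝ] (Fin 3 → ℝ) where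
  toFun := R i
  map_add' x y := by
    simp only [R, form_add_right]
    module
  map_smul' a x := by
    simp only [R, form_smul_right, RingHom.id_apply]
    module
  invFun := R i
  left_inv := R_R i
  right_inv := R_R i

lemma sr_apply (i : Fin 3) (x : Fin 3 → ℝ) : sr i x = R i x := rfl

lemma sr_mem (i : Fin 3) : sr i ∈ uni.W := Subgroup.subset_closure ⟨i, fun _ => rfl⟩

lemma sr_inv (i : Fin 3) : (sr i)⁻¹ = sr i := by
  apply LinearEquiv.ext
  intro x
  rfl

lemma W_induction {P : ((Fin 3 → ℝ) ≃ₗ[ℝ] (Fin 3 → ℝ)) → Prop} (one : P 1) (gen : ∀ i, P (sr i))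
    (mul : ∀ g h, P g → P h → P (g * h)) {g : (Fin 3 → ℝ) ≃ₗ[ℝ] (Fin 3 → ℝ)} (hg : g ∈ uni.W) :
    P g := by
  have key : ∀ x ∈ {g : (Fin 3 → ℝ) ≃ₗ[ℝ] (Fin 3 → ℝ) | ∃ s, ∀ x,
      g x = x - (2 * uni.form (Datum.simpleRoot s) x) • Datum.simpleRoot s}, ∃ i, x = sr i := by
    rintro x ⟨i, hi⟩
    exact ⟨i, LinearEquiv.ext hi⟩
  refine Subgroup.closure_induction'' (p := fun g _ => P g) ?_ ?_ one (fun g h _ _ => mul g h) hg
  · intro x hx
    obtain ⟨i, rfl⟩ := key x hx
    exact gen i
  · intro x hx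
    obtain ⟨i, rfl⟩ := key x hx
    rw [sr_inv]
    exact gen i

lemma form_R (i : Fin 3) (x y : Fin 3 → ℝ) : uni.form (R i x) (R i y) = uni.form x y := by
  fin_cases i
  · change uni.form (R 0 x) (R 0 y) = _
    rw [R_zero, R_zero, form_uni, form_uni]
    simp
    ring
  · change uni.form (R 1 x) (R 1 y) = _
    rw [R_one, R_one, form_uni, form_uni]
    simp
    ring
  · change uni.form (R 2 x) (R 2 y) = _
    rw [R_two, R_two, form_uni, form_uni]
    simp
    ring

lemma form_W {g : (Fin 3 → ℝ) ≃ₗ[ℝ] (Fin 3 → ℝ)} (hg : g ∈ uni.W) (x y : Fin 3 → ℝ) :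
    uni.form (g x) (g y) = uni.form x y := by
  revert x y
  refine W_induction (P := fun g => ∀ x y, uni.form (g x) (g y) = uni.form x y) ?_ ?_ ?_ hg
  · intro x y
    rfl
  · intro i x y
    exact form_R i x y
  · intro g h hg hh x y
    change uni.form (g (h x)) (g (h y)) = _
    rw [hg, hh]

/-- Integral vectors. -/
def IsInt (x : Fin 3 → ℝ) : Prop := ∀ i, ∃ m : ℤ, x i = m

lemma IsInt.R {x : Fin 3 → ℝ} (hx : IsInt x) (i : Fin 3) : IsInt (R i x) := by
  obtain ⟨a, ha⟩ := hx 0
  obtain ⟨b, hb⟩ := hx 1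
  obtain ⟨c, hc⟩ := hx 2
  fin_cases i
  · change IsInt (Cox.R 0 x)
    rw [R_zero]
    intro j
    fin_cases j
    · exact ⟨-a + 2 * b + 2 * c, by simp [ha, hb, hc]⟩
    · exact ⟨b, by simp [hb]⟩
    · exact ⟨c, by simp [hc]⟩
  · change IsInt (Cox.R 1 x)
    rw [R_one]
    intro j
    fin_cases j
    · exact ⟨a, by simp [ha]⟩
    · exact ⟨-b + 2 * a + 2 * c, by simp [ha, hb, hc]⟩
    · exact ⟨c, by simp [hc]⟩
  · change IsInt (Cox.R 2 x)
    rw [R_two]
    intro j
    fin_cases j
    · exact ⟨a, by simp [ha]⟩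
    · exact ⟨b, by simp [hb]⟩
    · exact ⟨-c + 2 * a + 2 * b, by simp [ha, hb, hc]⟩

lemma IsInt.W {g : (Fin 3 → ℝ) ≃ₗ[ℝ] (Fin 3 → ℝ)} (hg : g ∈ uni.W) {x : Fin 3 → ℝ}
    (hx : IsInt x) : IsInt (g x) := by
  revert x
  refine W_induction (P := fun g => ∀ {x}, IsInt x → IsInt (g x)) ?_ ?_ ?_ hg
  · intro x hx
    exact hx
  · intro i x hx
    exact hx.R i
  · intro g h hg hh x hx
    exact hg (hh hx)

/-- The normalized value of the quadratic form at a point of the projective plane. -/
noncomputable def qn (p : ℙ ℝ (Fin 3 → ℝ)) : ℝ := ∑ s, ∑ t, uni.B s t * ver p s t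

lemma qn_mk (v : Fin 3 → ℝ) (hv : v ≠ 0) :
    qn (Projectivization.mk ℝ v hv) = uni.form v v / nsq v := by
  unfold qn Datum.form
  rw [Finset.sum_div]
  refine Finset.sum_congr rfl fun s _ => ?_
  rw [Finset.sum_div]
  refine Finset.sum_congr rfl fun t _ => ?_
  rw [ver_mk]
  ring

lemma continuous_qn : Continuous qn := by
  unfold qn
  refine continuous_finsetSum _ fun s _ => continuous_finsetSum _ fun t _ => ?_
  exact continuous_const.mul ((continuous_apply t).comp ((continuous_apply s).comp continuous_ver))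

lemma finite_int (r : ℝ) : {x : Fin 3 → ℝ | IsInt x ∧ nsq x ≤ r}.Finite := by
  obtain ⟨N, hN⟩ := exists_nat_ge r
  refine Set.Finite.subset (Set.Finite.image (fun m : Fin 3 → ℤ => fun i => (m i : ℝ))
    (Finset.finite_toSet (Fintype.piFinset (fun _ : Fin 3 => Finset.Icc (-(N : ℤ)) N)))) ?_
  rintro x ⟨hx, hr⟩
  choose m hm using hx
  refine ⟨m, ?_, funext fun i => (hm i).symm⟩
  rw [Finset.mem_coe, Fintype.mem_piFinset]
  intro i
  have h1 : x i ^ 2 ≤ nsq x :=
    Finset.single_le_sum (f := fun s => x s ^ 2) (fun s _ => sq_nonneg _) (Finset.mem_univ i)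
  have h2 : ((m i : ℝ)) ^ 2 ≤ N := by
    rw [← hm i]
    linarith
  have h3 : (m i) ^ 2 ≤ (N : ℤ) := by exact_mod_cast h2
  have h4 : |m i| ≤ (m i) ^ 2 := by
    rw [← sq_abs]
    rcases lt_or_ge 0 (|m i|) with h | h
    · nlinarith
    · have : |m i| = 0 := le_antisymm (by omega) (abs_nonneg _)
      rw [this]
      norm_num
  rw [Finset.mem_Icc]
  exact abs_le.1 (h4.trans h3)

lemma acc_light {C : Set (ℙ ℝ (Fin 3 → ℝ))} {c : ℝ}
    (hC : ∀ q ∈ C, ∃ (x : Fin 3 → ℝ) (hx : x ≠ 0), IsInt x ∧ uni.form x x = c ∧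
      q = Projectivization.mk ℝ x hx) {p : ℙ ℝ (Fin 3 → ℝ)} (hp : AccPt p (𝓟 C)) : qn p = 0 := by
  by_contra hne
  have hδ : 0 < |qn p| / 2 := by
    have := abs_pos.2 hne
    linarith
  set U : Set (ℙ ℝ (Fin 3 → ℝ)) := {q | |qn p| / 2 < |qn q|} with hU
  have hUo : IsOpen U := isOpen_lt continuous_const continuous_qn.abs
  have hpU : p ∈ U := by
    change |qn p| / 2 < |qn p|
    linarith
  have hfin : (U ∩ C).Finite := by
    have h1 : U ∩ C ⊆ (fun x : Fin 3 → ℝ => if hx : x ≠ 0 then Projectivization.mk ℝ x hx else p) ''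
        {x : Fin 3 → ℝ | IsInt x ∧ nsq x ≤ |c| / (|qn p| / 2)} := by
      rintro q ⟨hqU, hqC⟩
      obtain ⟨x, hx, hxi, hxc, rfl⟩ := hC q hqC
      refine ⟨x, ⟨hxi, ?_⟩, ?_⟩
      · have h2 : |qn p| / 2 < |qn (Projectivization.mk ℝ x hx)| := hqU
        have h3 := nsq_pos hx
        rw [qn_mk, hxc, abs_div, abs_of_pos h3, lt_div_iff₀ h3] at h2
        rw [le_div_iff₀ hδ]
        linarith
      · simp only
        rw [dif_pos hx]
    exact ((finite_int _).image _).subset h1
  have hV : U \ ((U ∩ C) \ {p}) ∈ 𝓝 p := by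
    refine (hUo.sdiff (hfin.subset Set.sdiff_subset).isClosed).mem_nhds ⟨hpU, ?_⟩
    rintro ⟨_, h⟩
    exact h rfl
  rw [accPt_iff_nhds] at hp
  obtain ⟨y, ⟨⟨hyU, hyn⟩, hyC⟩, hyp⟩ := hp _ hV
  exact hyn ⟨⟨hyU, hyC⟩, hyp⟩

/-! ### Light-like vectors and the orbit of the cusp -/

/-- The light-like vector with parameters `a, b`. -/
def lv (a b : ℝ) : Fin 3 → ℝ := ![a ^ 2, b ^ 2, (a + b) ^ 2]

lemma R_zero_lv (a b : ℝ) : R 0 (lv a b) = lv (-a - 2 * b) b := by
  rw [R_zero]
  funext j
  fin_cases j <;> simp [lv] <;> ring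

lemma R_one_lv (a b : ℝ) : R 1 (lv a b) = lv a (-b - 2 * a) := by
  rw [R_one]
  funext j
  fin_cases j <;> simp [lv] <;> ring

lemma R_two_lv (a b : ℝ) : R 2 (lv a b) = lv a (-b) := by
  rw [R_two]
  funext j
  fin_cases j <;> simp [lv] <;> ring

lemma lv_ne {a b : ℝ} (h : b ≠ 0) : lv a b ≠ 0 := by
  intro h0
  have h1 := congrFun h0 1
  simp [lv] at h1
  exact h h1

/-- The cusp. -/
def cusp : Fin 3 → ℝ := lv 1 0

lemma cusp_ne : cusp ≠ 0 := by
  intro h0
  have h1 := congrFun h0 0
  simp [cusp, lv] at h1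

/-- Descent: all the light-like vectors with odd first and even second parameter lie in the orbit
of the line of the cusp. -/
lemma orbit_cusp (n : ℕ) : ∀ a b : ℤ, a.natAbs + b.natAbs = n → Odd a → Even b →
    ∃ g ∈ uni.W, ∃ r : ℝ, g (r • cusp) = lv a b := by
  induction n using Nat.strong_induction_on with
  | _ n ih =>
    intro a b hn ha hb
    -- the two reduction steps
    have step : ∀ a' b' : ℤ, a'.natAbs + b'.natAbs < n → Odd a' → Even b' →
        ∀ i : Fin 3, R i (lv a' b') = lv a b → ∃ g ∈ uni.W, ∃ r : ℝ, g (r • cusp) = lv a b := by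
      intro a' b' h1 h2 h3 i h4
      obtain ⟨g, hg, r, hr⟩ := ih _ h1 a' b' rfl h2 h3
      refine ⟨sr i * g, mul_mem (sr_mem i) hg, r, ?_⟩
      change sr i (g (r • cusp)) = _
      rw [hr, sr_apply, h4]
    have step2 : ∀ a' b' : ℤ, a'.natAbs + b'.natAbs < n → Odd a' → Even b' →
        ∀ i j : Fin 3, R i (R j (lv a' b')) = lv a b →
        ∃ g ∈ uni.W, ∃ r : ℝ, g (r • cusp) = lv a b := by
      intro a' b' h1 h2 h3 i j h4
      obtain ⟨g, hg, r, hr⟩ := ih _ h1 a' b' rfl h2 h3
      refine ⟨sr i * (sr j * g), mul_mem (sr_mem i) (mul_mem (sr_mem j) hg), r, ?_⟩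
      change sr i (sr j (g (r • cusp))) = _
      rw [hr, sr_apply, sr_apply, h4]
    have ha0 : a ≠ 0 := by
      rintro rfl
      simp at ha
    rcases eq_or_ne b 0 with hb0 | hb0
    · refine ⟨1, one_mem _, (a : ℝ) ^ 2, ?_⟩
      subst hb0
      change (a : ℝ) ^ 2 • cusp = _
      funext j
      fin_cases j <;> simp [lv, cusp]
    · have hne : a.natAbs ≠ b.natAbs := by
        intro h
        rcases Int.natAbs_eq_natAbs_iff.1 h with h | h
        · rw [h] at ha
          exact (Int.not_odd_iff_even.2 hb) ha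
        · rw [h] at ha
          exact (Int.not_odd_iff_even.2 hb.neg) ha
      rcases lt_or_gt_of_ne hne with hlt | hgt
      · -- `|a| < |b|`
        by_cases hs : a * b < 0
        · refine step a (-b - 2 * a) ?_ ha (by
            have := (even_two_mul a)
            exact hb.neg.sub this) 1 ?_
          · have : (-b - 2 * a).natAbs < b.natAbs := by
              rcases lt_or_gt_of_ne ha0 with h | h
              · have : 0 < b := by nlinarith
                omega
              · have : b < 0 := by nlinarith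
                omega
            omega
          · push_cast
            rw [R_one_lv]
            congr 1
            ring
        · have hs' : 0 < a * b := lt_of_le_of_ne (not_lt.1 hs) (Ne.symm (mul_ne_zero ha0 hb0))
          refine step2 a (b - 2 * a) ?_ ha (hb.sub (even_two_mul a)) 2 1 ?_
          · have : (b - 2 * a).natAbs < b.natAbs := by
              rcases lt_or_gt_of_ne ha0 with h | h
              · have : b < 0 := by nlinarith
                omega
              · have : 0 < b := by nlinarith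
                omega
            omega
          · push_cast
            rw [R_one_lv, R_two_lv]
            congr 1
            ring
      · by_cases hs : a * b < 0
        · refine step (-a - 2 * b) b ?_ (ha.neg.sub_even (even_two_mul b)) hb 0 ?_
          · have : (-a - 2 * b).natAbs < a.natAbs := by
              rcases lt_or_gt_of_ne ha0 with h | h
              · have : 0 < b := by nlinarith
                omega
              · have : b < 0 := by nlinarith
                omega
            omega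
          · push_cast
            rw [R_zero_lv]
            congr 1
            ring
        · have hs' : 0 < a * b := lt_of_le_of_ne (not_lt.1 hs) (Ne.symm (mul_ne_zero ha0 hb0))
          refine step2 (-a + 2 * b) (-b) ?_ (ha.neg.add_even (even_two_mul b)) hb.neg 2 0 ?_
          · have : (-a + 2 * b).natAbs < a.natAbs := by
              rcases lt_or_gt_of_ne ha0 with h | h
              · have : b < 0 := by nlinarith
                omega
              · have : 0 < b := by nlinarith
                omega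
            have h2 : (-b).natAbs = b.natAbs := Int.natAbs_neg b
            omega
          · push_cast
            rw [R_zero_lv, R_two_lv]
            congr 1 <;> ring

/-- A closed invariant set that contains the cusp contains all light-like directions. -/
lemma minimal {K : Set (ℙ ℝ (Fin 3 → ℝ))} (hK : IsClosed K)
    (hinv : ∀ g ∈ uni.W, ∀ p ∈ K, act g p ∈ K) (hc : Projectivization.mk ℝ cusp cusp_ne ∈ K)
    (x : Fin 3 → ℝ) (hx : x ≠ 0) (hq : uni.form x x = 0) : Projectivization.mk ℝ x hx ∈ K := by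
  rw [form_self] at hq
  by_cases h1 : x 1 = 0
  · have h2 : x 2 = x 0 := by
      rw [h1] at hq
      have : x 2 - x 0 = 0 := by
        have h3 : (x 2 - x 0) ^ 2 = 0 := by linarith
        exact pow_eq_zero_iff (two_ne_zero) |>.1 h3
      linarith
    have h3 : Projectivization.mk ℝ x hx = Projectivization.mk ℝ cusp cusp_ne := by
      rw [Projectivization.mk_eq_mk_iff']
      refine ⟨x 0, ?_⟩
      funext j
      fin_cases j <;> simp [cusp, lv, h1, h2]
    rw [h3]
    exact hc
  · -- the affine parameter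
    obtain ⟨t, ht⟩ : ∃ t : ℝ, t = (x 2 / x 1 - x 0 / x 1 - 1) / 2 := ⟨_, rfl⟩
    have hx0 : x 0 = t ^ 2 * x 1 := by
      rw [ht]
      field_simp
      linear_combination (-1) * hq
    have hx2 : x 2 = (t + 1) ^ 2 * x 1 := by
      have : x 2 = x 0 + x 1 + 2 * t * x 1 := by
        rw [ht]
        field_simp
        ring
      rw [this, hx0]
      ring
    have h3 : Projectivization.mk ℝ x hx =
        Projectivization.mk ℝ (lv t 1) (lv_ne one_ne_zero) := by
      rw [Projectivization.mk_eq_mk_iff']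
      refine ⟨x 1, ?_⟩
      funext j
      fin_cases j
      · simp [lv]
        linarith
      · simp [lv]
      · simp [lv]
        linarith
    rw [h3]
    -- approximation
    obtain ⟨a, ha⟩ : ∃ a : ℕ → ℤ, a = fun n : ℕ => 2 * ⌊t * ((n : ℝ) + 1)⌋ + 1 := ⟨_, rfl⟩
    obtain ⟨τ, hτ⟩ : ∃ τ : ℕ → ℝ, τ = fun n => (a n : ℝ) / (2 * ((n : ℝ) + 1)) := ⟨_, rfl⟩
    have hlim : Tendsto τ atTop (𝓝 t) := by
      rw [tendsto_iff_dist_tendsto_zero]
      refine squeeze_zero (fun _ => dist_nonneg) (g := fun n : ℕ => 1 / ((n : ℝ) + 1)) ?_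
        tendsto_one_div_add_atTop_nhds_zero_nat
      intro n
      have hn : (0 : ℝ) < (n : ℝ) + 1 := by positivity
      rw [Real.dist_eq, hτ]
      simp only
      rw [show (a n : ℝ) / (2 * ((n : ℝ) + 1)) - t =
        ((a n : ℝ) - 2 * (t * (n + 1))) / (2 * ((n : ℝ) + 1)) by field_simp, abs_div,
        abs_of_pos (by positivity : (0 : ℝ) < 2 * ((n : ℝ) + 1)), div_le_div_iff₀ (by positivity)
        hn]
      have h4 : |(a n : ℝ) - 2 * (t * (n + 1))| ≤ 2 := by
        rw [ha]
        push_cast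
        have h5 := Int.floor_le (t * (n + 1))
        have h6 := Int.lt_floor_add_one (t * (n + 1))
        rw [abs_le]
        constructor <;> linarith
      calc |(a n : ℝ) - 2 * (t * (n + 1))| * ((n : ℝ) + 1) ≤ 2 * ((n : ℝ) + 1) :=
            mul_le_mul_of_nonneg_right h4 hn.le
        _ = 1 * (2 * ((n : ℝ) + 1)) := by ring
    have hlim2 : Tendsto (fun n => lv (τ n) 1) atTop (𝓝 (lv t 1)) := by
      have hcont : Continuous (fun s : ℝ => lv s 1) := by
        refine continuous_pi fun j => ?_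
        fin_cases j
        · change Continuous (fun s : ℝ => s ^ 2)
          fun_prop
        · change Continuous (fun s : ℝ => (1 : ℝ) ^ 2)
          fun_prop
        · change Continuous (fun s : ℝ => (s + 1) ^ 2)
          fun_prop
      exact (hcont.tendsto t).comp hlim
    have hlim3 := tendsto_mk (fun n => lv_ne one_ne_zero) (lv_ne one_ne_zero) hlim2
    refine hK.mem_of_tendsto hlim3 (Eventually.of_forall fun n => ?_)
    have hodd : Odd (a n) := by
      rw [ha]
      exact ⟨_, rfl⟩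
    obtain ⟨g, hg, r, hr⟩ := orbit_cusp _ (a n) (2 * ((n : ℤ) + 1)) rfl hodd (even_two_mul _)
    have hn : (2 * ((n : ℝ) + 1)) ≠ 0 := by positivity
    have hr0 : r ≠ 0 := by
      rintro rfl
      rw [zero_smul, map_zero] at hr
      push_cast at hr
      exact lv_ne hn hr.symm
    have h5 : Projectivization.mk ℝ (lv (τ n) 1) (lv_ne one_ne_zero) =
        act g (Projectivization.mk ℝ cusp cusp_ne) := by
      rw [act_mk, Projectivization.mk_eq_mk_iff']
      refine ⟨r / (2 * ((n : ℝ) + 1)) ^ 2, ?_⟩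
      have h6 : g cusp = r⁻¹ • lv (a n) (2 * ((n : ℝ) + 1)) := by
        rw [map_smul] at hr
        push_cast at hr
        rw [← hr, smul_smul, inv_mul_cancel₀ hr0, one_smul]
      rw [h6, smul_smul]
      funext j
      rw [hτ]
      fin_cases j
      · simp [lv]
        field_simp
      · simp [lv]
        field_simp
      · simp [lv]
        field_simp
    rw [h5]
    exact hinv g hg _ hc

/-- The parabolic element fixing the cusp. -/
noncomputable def par : (Fin 3 → ℝ) ≃ₗ[ℝ] (Fin 3 → ℝ) := sr 0 * sr 2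

lemma par_mem : par ∈ uni.W := mul_mem (sr_mem 0) (sr_mem 2)

lemma par_apply (x : Fin 3 → ℝ) :
    par x = ![3 * x 0 + 6 * x 1 - 2 * x 2, x 1, 2 * x 0 + 2 * x 1 - x 2] := by
  change R 0 (R 2 x) = _
  rw [R_zero, R_two]
  funext j
  fin_cases j <;> simp <;> ring

lemma par_pow_apply (n : ℕ) (x : Fin 3 → ℝ) :
    (par ^ n) x = ![x 0 + 2 * n * (x 0 - x 2) + (4 * n ^ 2 + 2 * n) * x 1, x 1,
      x 2 + 2 * n * (x 0 - x 2) + (4 * n ^ 2 - 2 * n) * x 1] := by
  induction n with
  | zero =>
    funext j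
    fin_cases j <;> simp
  | succ n ih =>
    rw [pow_succ']
    change par ((par ^ n) x) = _
    rw [ih, par_apply]
    funext j
    fin_cases j <;> simp <;> ring

lemma acc_cusp (x : Fin 3 → ℝ) (hx : x ≠ 0) (h1 : x 1 ≠ 0) :
    AccPt (Projectivization.mk ℝ cusp cusp_ne)
      (𝓟 (uni.orbit (Projectivization.mk ℝ x hx))) := by
  obtain ⟨F, hF⟩ : ∃ F : ℝ → Fin 3 → ℝ, F = fun ε =>
    ![x 0 / (4 * x 1) * ε ^ 2 + (x 0 - x 2) / (2 * x 1) * ε + 1 + ε / 2, ε ^ 2 / 4,
      x 2 / (4 * x 1) * ε ^ 2 + (x 0 - x 2) / (2 * x 1) * ε + 1 - ε / 2] := ⟨_, rfl⟩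
  have hcont : Continuous F := by
    rw [hF]
    refine continuous_pi fun j => ?_
    fin_cases j
    · change Continuous (fun ε : ℝ =>
        x 0 / (4 * x 1) * ε ^ 2 + (x 0 - x 2) / (2 * x 1) * ε + 1 + ε / 2)
      fun_prop
    · change Continuous (fun ε : ℝ => ε ^ 2 / 4)
      fun_prop
    · change Continuous (fun ε : ℝ =>
        x 2 / (4 * x 1) * ε ^ 2 + (x 0 - x 2) / (2 * x 1) * ε + 1 - ε / 2)
      fun_prop
  have hF0 : F 0 = cusp := by
    rw [hF]
    funext j
    fin_cases j <;> simp [cusp, lv]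
  have hne : ∀ n : ℕ, F (1 / ((n : ℝ) + 1)) ≠ 0 := by
    intro n h
    have h2 := congrFun h 1
    rw [hF] at h2
    have h3 : (0 : ℝ) < 1 / ((n : ℝ) + 1) := by positivity
    simp at h2
    have : (n : ℝ) + 1 ≠ 0 := by positivity
    exact this h2
  have hlim : Tendsto (fun n : ℕ => Projectivization.mk ℝ (F (1 / ((n : ℝ) + 1))) (hne n)) atTop
      (𝓝 (Projectivization.mk ℝ cusp cusp_ne)) := by
    refine tendsto_mk hne cusp_ne ?_
    rw [← hF0]
    exact (hcont.tendsto 0).comp tendsto_one_div_add_atTop_nhds_zero_nat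
  refine accPt_of_seq _ hlim (Eventually.of_forall fun n => ?_)
  have hn : (0 : ℝ) < (n : ℝ) + 1 := by positivity
  constructor
  · intro h
    rw [Projectivization.mk_eq_mk_iff'] at h
    obtain ⟨a, ha⟩ := h
    have h2 := congrFun ha 1
    rw [hF] at h2
    simp [cusp, lv] at h2
    have h3 : 0 < (((n : ℝ) + 1) ^ 2)⁻¹ / 4 := by positivity
    linarith
  · refine ⟨par ^ (n + 1), pow_mem par_mem _, ?_⟩
    rw [act_mk, Projectivization.mk_eq_mk_iff']
    refine ⟨(1 / ((n : ℝ) + 1)) ^ 2 / (4 * x 1), ?_⟩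
    rw [par_pow_apply, hF]
    funext j
    fin_cases j
    · simp
      field_simp
      ring
    · simp
      field_simp
    · simp
      field_simp
      ring

lemma form_of_qn {y : Fin 3 → ℝ} {hy : y ≠ 0} (h : qn (Projectivization.mk ℝ y hy) = 0) :
    uni.form y y = 0 := by
  rw [qn_mk, div_eq_zero_iff] at h
  rcases h with h | h
  · exact h
  · exact absurd h (nsq_pos hy).ne'

lemma limitSet_int (x : Fin 3 → ℝ) (hx : x ≠ 0) (hi : IsInt x) (h1 : x 1 ≠ 0) :
    uni.limitSet (Projectivization.mk ℝ x hx) = {p | qn p = 0} := by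
  apply Set.Subset.antisymm
  · intro p hp
    refine acc_light (c := uni.form x x) ?_ hp
    rintro q ⟨g, hg, rfl⟩
    exact ⟨g x, by simpa using hx, hi.W hg, form_W hg x x, rfl⟩
  · intro p hp
    induction p with | h y hy =>
    refine minimal (isClosed_acc _) ?_ (acc_cusp x hx h1) y hy (form_of_qn hp)
    intro g hg q hq
    refine acc_act g ?_ hq
    rintro r ⟨h, hh, rfl⟩
    exact ⟨g * h, mul_mem hg hh, (act_mul g h _).symm⟩

lemma simpleRoot_ne (i : Fin 3) : Datum.simpleRoot i ≠ 0 := by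
  intro h
  have := congrFun h i
  simp [Datum.simpleRoot] at this

lemma simpleRoot_int (i : Fin 3) : IsInt (Datum.simpleRoot i) := by
  intro j
  by_cases h : j = i
  · exact ⟨1, by rw [h]; simp [Datum.simpleRoot]⟩
  · exact ⟨0, by simp [Datum.simpleRoot, h]⟩

lemma limitRoots_uni : uni.limitRoots = {p | qn p = 0} := by
  apply Set.Subset.antisymm
  · intro p hp
    refine acc_light (c := 1) ?_ hp
    rintro q ⟨x, hx, ⟨g, hg, s, rfl⟩, rfl⟩
    refine ⟨_, hx, (simpleRoot_int s).W hg, ?_, rfl⟩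
    rw [form_W hg, form_self]
    fin_cases s <;> simp [Datum.simpleRoot]
  · intro p hp
    induction p with | h y hy =>
    refine minimal (isClosed_acc _) ?_ ?_ y hy (form_of_qn hp)
    · intro g hg q hq
      refine acc_act g ?_ hq
      rintro r ⟨x, hx, ⟨h, hh, s, rfl⟩, rfl⟩
      exact ⟨g (h (Datum.simpleRoot s)), by simpa using hx, ⟨g * h, mul_mem hg hh, s, rfl⟩, rfl⟩
    · have h1 := acc_cusp (Datum.simpleRoot 1) (simpleRoot_ne 1) (by simp [Datum.simpleRoot])
      refine h1.mono ?_
      rw [principal_mono]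
      rintro q ⟨g, hg, rfl⟩
      exact ⟨g (Datum.simpleRoot 1), by simpa using simpleRoot_ne 1, ⟨g, hg, 1, rfl⟩, rfl⟩

/-- The form has signature `(2, 1)`. -/
lemma lorentzian_uni : uni.IsLorentzian := by
  let e : (Fin 3 → ℝ) ≃ₗ[ℝ] (Fin 3 → ℝ) :=
    { toFun := fun x => ![x 2 - x 0 - x 1, x 0 - x 1, x 0 + x 1]
      map_add' := fun x y => by
        funext j
        fin_cases j <;> simp <;> ring
      map_smul' := fun a x => by
        funext j
        fin_cases j <;> simp <;> ring
      invFun := fun c => ![(c 2 + c 1) / 2, (c 2 - c 1) / 2, c 0 + c 2]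
      left_inv := fun x => by
        funext j
        fin_cases j <;> simp
      right_inv := fun x => by
        funext j
        fin_cases j <;> simp <;> ring }
  refine ⟨Module.Basis.ofEquivFun e, 2, ?_⟩
  intro s t
  rw [Module.Basis.coe_ofEquivFun]
  rw [form_uni]
  have he : ∀ c : Fin 3 → ℝ, e.symm c = ![(c 2 + c 1) / 2, (c 2 - c 1) / 2, c 0 + c 2] :=
    fun c => rfl
  simp only [he]
  fin_cases s <;> fin_cases t <;> simp <;> norm_num

end Pool.Agent.V1118.Cox
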