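import Mathlib

/-!
# Graphical groups and the count of their conjugacy classes
-/

set_option linter.unusedSectionVars false

namespace Pool.Agent.V1118

/-- The graphical group `G_Γ(R)` of a graph `Γ` on a linearly ordered vertex set: the set
`R^V × R^E` with `(x, z) (x', z') = (x + x', z + z' + β (x, x'))`, where
`β (x, x')_e = x_u x'_v` for an edge `e = {u, v}` with `u < v`. -/
@[ext]
structure GG {V : Type} (Γ : SimpleGraph V) (R : Type) where
  /-- the vertex coordinates -/
  x : V → R
  /-- the edge coordinates -/
  z : Γ.edgeSet → R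

variable {V : Type} [LinearOrder V] {Γ : SimpleGraph V} {R : Type} [CommRing R]

namespace GG

/-- The bilinear map `β`. For an edge `e = {u, v}` with `u < v` one has `e.inf = u`,
`e.sup = v`. -/
def beta (x x' : V → R) (e : Γ.edgeSet) : R := x (e : Sym2 V).inf * x' (e : Sym2 V).sup

instance : Mul (GG Γ R) := ⟨fun g h => ⟨g.x + h.x, g.z + h.z + beta g.x h.x⟩⟩
instance : One (GG Γ R) := ⟨⟨0, 0⟩⟩
instance : Inv (GG Γ R) := ⟨fun g => ⟨-g.x, -g.z + beta g.x g.x⟩⟩

@[simp] lemma mul_x (g h : GG Γ R) : (g * h).x = g.x + h.x := rfl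
@[simp] lemma mul_z (g h : GG Γ R) : (g * h).z = g.z + h.z + beta g.x h.x := rfl
@[simp] lemma one_x : (1 : GG Γ R).x = 0 := rfl
@[simp] lemma one_z : (1 : GG Γ R).z = 0 := rfl
@[simp] lemma inv_x (g : GG Γ R) : (g⁻¹).x = -g.x := rfl
@[simp] lemma inv_z (g : GG Γ R) : (g⁻¹).z = -g.z + beta g.x g.x := rfl

instance : Group (GG Γ R) :=
  Group.ofLeftAxioms
    (by
      intro a b c
      ext e
      · simp [add_assoc]
      · simp [beta]; ring)
    (by
      intro a
      ext e
      · simp
      · simp [beta])
    (by
      intro a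
      ext e
      · simp
      · simp [beta])

/-- As a set, the group is `R^V × R^E`. -/
def equivProd (Γ : SimpleGraph V) (R : Type) [CommRing R] :
    GG Γ R ≃ (V → R) × (Γ.edgeSet → R) where
  toFun g := (g.x, g.z)
  invFun p := ⟨p.1, p.2⟩
  left_inv _ := rfl
  right_inv _ := rfl

lemma commute_iff (g h : GG Γ R) :
    Commute g h ↔ ∀ u v, Γ.Adj u v → g.x u * h.x v = h.x u * g.x v := by
  have h1 : Commute g h ↔ ∀ e : Γ.edgeSet, beta g.x h.x e = beta h.x g.x e := by
    constructor
    · intro hc e
      have := congrArg (fun t : GG Γ R => t.z e) (hc : g * h = h * g)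
      simp only [mul_z, Pi.add_apply] at this
      linear_combination this
    · intro hc
      change g * h = h * g
      ext e
      · simp [add_comm]
      · simp only [mul_z, Pi.add_apply]
        rw [hc e]
        ring
  rw [h1]
  constructor
  · intro hc u v huv
    have h2 := hc ⟨s(u, v), huv⟩
    simp only [beta] at h2
    rcases le_total u v with huv' | huv'
    · simpa [huv'] using h2
    · have h3 : g.x v * h.x u = h.x v * g.x u := by simpa [huv'] using h2
      linear_combination -h3
  · rintro hc ⟨e, he⟩
    induction e with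
    | h u v =>
      have h2 := hc u v he
      simp only [beta]
      rcases le_total u v with huv' | huv'
      · simpa [huv'] using h2
      · have h3 : g.x v * h.x u = h.x v * g.x u := by linear_combination -h2
        simpa [huv'] using h3

end GG

/-- Two vectors of `R²` are parallel. -/
def par (a b : R × R) : Prop := a.1 * b.2 = b.1 * a.2

/-- The number of maps from the vertex set to `R²` that take adjacent vertices to parallel
vectors. -/
noncomputable def NN (Γ : SimpleGraph V) (R : Type) [CommRing R] : ℕ :=
  Nat.card {f : V → R × R // ∀ u v, Γ.Adj u v → par (f u) (f v)}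

lemma card_conj (Γ : SimpleGraph V) (R : Type) [CommRing R] [Finite V] [Finite R] :
    Nat.card (ConjClasses (GG Γ R)) * Nat.card R ^ Nat.card V =
      Nat.card R ^ Nat.card Γ.edgeSet * NN Γ R := by
  have hfinG : Finite (GG Γ R) := Finite.of_equiv _ (GG.equivProd Γ R).symm
  have hcard : Nat.card (GG Γ R) = Nat.card R ^ Nat.card V * Nat.card R ^ Nat.card Γ.edgeSet := by
    rw [Nat.card_congr (GG.equivProd Γ R), Nat.card_prod, Nat.card_fun, Nat.card_fun]
  have hcomm := card_comm_eq_card_conjClasses_mul_card (GG Γ R)
  have hpairs : Nat.card {p : GG Γ R × GG Γ R // Commute p.1 p.2} =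
      NN Γ R * (Nat.card R ^ Nat.card Γ.edgeSet * Nat.card R ^ Nat.card Γ.edgeSet) := by
    let e : {p : GG Γ R × GG Γ R // Commute p.1 p.2} ≃
        {f : V → R × R // ∀ u v, Γ.Adj u v → par (f u) (f v)} ×
          ((Γ.edgeSet → R) × (Γ.edgeSet → R)) :=
      { toFun := fun p => ⟨⟨fun v => (p.1.1.x v, p.1.2.x v), fun u v huv => by
          have := (GG.commute_iff p.1.1 p.1.2).1 p.2 v u huv.symm
          simp only [par]
          linear_combination -this⟩, (p.1.1.z, p.1.2.z)⟩
        invFun := fun q => ⟨(⟨fun v => (q.1.1 v).1, q.2.1⟩, ⟨fun v => (q.1.1 v).2, q.2.2⟩), by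
          rw [GG.commute_iff]
          intro u v huv
          have := q.1.2 v u huv.symm
          simp only [par] at this
          linear_combination -this⟩
        left_inv := fun p => rfl
        right_inv := fun q => rfl }
    rw [Nat.card_congr e, Nat.card_prod, Nat.card_prod, Nat.card_fun]
    rfl
  rw [hpairs, hcard] at hcomm
  have hpos : 0 < Nat.card R ^ Nat.card Γ.edgeSet := by
    have : 0 < Nat.card R := Nat.card_pos
    positivity
  apply Nat.eq_of_mul_eq_mul_right hpos
  linarith

lemma NN_congr (Γ : SimpleGraph V) {R S : Type} [CommRing R] [CommRing S] (e : R ≃+* S) :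
    NN Γ R = NN Γ S := by
  unfold NN
  refine Nat.card_congr ?_
  refine Equiv.subtypeEquiv (Equiv.arrowCongr (Equiv.refl V) (e.toEquiv.prodCongr e.toEquiv)) ?_
  intro f
  simp only [par, Equiv.arrowCongr_apply, Function.comp, Equiv.refl_symm, Equiv.refl_apply,
    Equiv.prodCongr_apply, Prod.map, RingEquiv.toEquiv_eq_coe, EquivLike.coe_coe]
  constructor
  · intro h u v huv
    rw [← map_mul, ← map_mul, h u v huv]
  · intro h u v huv
    have := h u v huv
    rw [← map_mul, ← map_mul] at this
    exact e.injective this

lemma NN_prod (Γ : SimpleGraph V) (R S : Type) [CommRing R] [CommRing S] :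
    NN Γ (R × S) = NN Γ R * NN Γ S := by
  unfold NN
  rw [← Nat.card_prod]
  refine Nat.card_congr ?_
  exact
    { toFun := fun f => (⟨fun v => ((f.1 v).1.1, (f.1 v).2.1), fun u v huv => by
          have := congrArg Prod.fst (f.2 u v huv)
          exact this⟩,
        ⟨fun v => ((f.1 v).1.2, (f.1 v).2.2), fun u v huv => by
          have := congrArg Prod.snd (f.2 u v huv)
          exact this⟩)
      invFun := fun p => ⟨fun v => (((p.1.1 v).1, (p.2.1 v).1), ((p.1.1 v).2, (p.2.1 v).2)),
        fun u v huv => Prod.ext (p.1.2 u v huv) (p.2.2 u v huv)⟩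
      left_inv := fun f => rfl
      right_inv := fun p => rfl }

end Pool.Agent.V1118
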