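import Mathlib
import Pool.Agent.V1118.Graphical

/-!
# Counting parallel vectors over `ℤ / n`
-/

namespace Pool.Agent.V1118.ParCount

section count

variable {n : ℕ} [NeZero n]

lemma card_annih (u : ZMod n) :
    (Finset.univ.filter (fun t : ZMod n => u * t = 0)).card * addOrderOf u = n := by
  set f : ZMod n →+ ZMod n := AddMonoidHom.mulLeft u with hf
  have h1 := AddSubgroup.card_mul_index f.ker
  rw [AddSubgroup.index_ker] at h1
  have h2 : Nat.card f.ker = (Finset.univ.filter (fun t : ZMod n => u * t = 0)).card := by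
    rw [Nat.card_eq_fintype_card, Fintype.card_subtype]
    congr 1
    ext t
    simp [hf, AddMonoidHom.mem_ker]
  have h3 : f.range = AddSubgroup.zmultiples u := by
    ext x
    rw [AddSubgroup.mem_zmultiples_iff]
    constructor
    · rintro ⟨t, rfl⟩
      refine ⟨(t.val : ℤ), ?_⟩
      simp only [hf, AddMonoidHom.coe_mulLeft]
      rw [natCast_zsmul, nsmul_eq_mul, ZMod.natCast_zmod_val, mul_comm]
    · rintro ⟨k, rfl⟩
      refine ⟨(k : ZMod n), ?_⟩
      simp only [hf, AddMonoidHom.coe_mulLeft]
      rw [zsmul_eq_mul, mul_comm]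
  rw [h2, h3, Nat.card_zmultiples, Nat.card_zmod] at h1
  exact h1

lemma card_torsion_le (f : ℕ) (hf : 0 < f) :
    (Finset.univ.filter (fun t : ZMod n => f • t = 0)).card ≤ f :=
  IsAddCyclic.card_nsmul_eq_zero_le hf

lemma card_torsion2_le (f : ℕ) (hf : 0 < f) :
    (Finset.univ.filter (fun y : ZMod n × ZMod n => f • y = 0)).card ≤ f * f := by
  have h1 : (Finset.univ.filter (fun y : ZMod n × ZMod n => f • y = 0)) ⊆
      (Finset.univ.filter (fun t : ZMod n => f • t = 0)) ×ˢ
        (Finset.univ.filter (fun t : ZMod n => f • t = 0)) := by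
    intro y hy
    simp only [Finset.mem_filter, Finset.mem_univ, true_and, Prod.ext_iff, Prod.smul_fst,
      Prod.smul_snd, Prod.fst_zero, Prod.snd_zero, Finset.mem_product] at hy ⊢
    exact hy
  refine (Finset.card_le_card h1).trans ?_
  rw [Finset.card_product]
  exact Nat.mul_le_mul (card_torsion_le f hf) (card_torsion_le f hf)

/-- Fibre bound: solutions of `u * t = c`. -/
lemma card_fibre_le (u c : ZMod n) :
    (Finset.univ.filter (fun t : ZMod n => u * t = c)).card ≤
      (Finset.univ.filter (fun t : ZMod n => u * t = 0)).card := by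
  by_cases h : ∃ t0, u * t0 = c
  · obtain ⟨t0, ht0⟩ := h
    refine Finset.card_le_card_of_injOn (fun t => t - t0) ?_ ?_
    · intro t ht
      simp only [Finset.coe_filter, Finset.mem_univ, true_and, Set.mem_ofPred_eq] at ht ⊢
      rw [mul_sub, ht, ht0, sub_self]
    · intro a _ b _ hab
      exact sub_left_injective hab
  · have : (Finset.univ.filter (fun t : ZMod n => u * t = c)) = ∅ := by
      rw [Finset.filter_eq_empty_iff]
      intro t _ ht
      exact h ⟨t, ht⟩
    rw [this]
    simp

/-- The main counting bound: torsion vectors parallel to a given vector `x`, when the order of `x`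
is the order of one of its coordinates. -/
lemma card_par_le (x : ZMod n × ZMod n) (f : ℕ) (hf : 0 < f)
    (hx : addOrderOf x = addOrderOf x.1 ∨ addOrderOf x = addOrderOf x.2) :
    (Finset.univ.filter (fun y : ZMod n × ZMod n => f • y = 0 ∧ x.1 * y.2 = y.1 * x.2)).card *
      addOrderOf x ≤ f * n := by
  rcases hx with hx | hx
  · -- fix the first coordinate of `y`
    have h1 : (Finset.univ.filter
        (fun y : ZMod n × ZMod n => f • y = 0 ∧ x.1 * y.2 = y.1 * x.2)) ⊆
        (Finset.univ.filter (fun t : ZMod n => f • t = 0)).biUnion (fun s =>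
          (Finset.univ.filter (fun t : ZMod n => x.1 * t = s * x.2)).image (fun t => (s, t))) := by
      intro y hy
      simp only [Finset.mem_filter, Finset.mem_univ, true_and, Prod.ext_iff, Prod.smul_fst,
        Prod.smul_snd, Prod.fst_zero, Prod.snd_zero, Finset.mem_biUnion, Finset.mem_image] at hy ⊢
      exact ⟨y.1, hy.1.1, y.2, hy.2, rfl, rfl⟩
    have h2 : (Finset.univ.filter
        (fun y : ZMod n × ZMod n => f • y = 0 ∧ x.1 * y.2 = y.1 * x.2)).card ≤
        f * (Finset.univ.filter (fun t : ZMod n => x.1 * t = 0)).card := by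
      refine (Finset.card_le_card h1).trans ?_
      refine (Finset.card_biUnion_le_card_mul _ _ _ fun s _ =>
        Finset.card_image_le.trans (card_fibre_le x.1 (s * x.2))).trans ?_
      exact Nat.mul_le_mul_right _ (card_torsion_le f hf)
    calc _ ≤ f * (Finset.univ.filter (fun t : ZMod n => x.1 * t = 0)).card * addOrderOf x :=
          Nat.mul_le_mul_right _ h2
      _ = f * n := by rw [hx, mul_assoc, card_annih]
  · have h1 : (Finset.univ.filter
        (fun y : ZMod n × ZMod n => f • y = 0 ∧ x.1 * y.2 = y.1 * x.2)) ⊆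
        (Finset.univ.filter (fun t : ZMod n => f • t = 0)).biUnion (fun s =>
          (Finset.univ.filter (fun t : ZMod n => x.2 * t = x.1 * s)).image (fun t => (t, s))) := by
      intro y hy
      simp only [Finset.mem_filter, Finset.mem_univ, true_and, Prod.ext_iff, Prod.smul_fst,
        Prod.smul_snd, Prod.fst_zero, Prod.snd_zero, Finset.mem_biUnion, Finset.mem_image] at hy ⊢
      exact ⟨y.2, hy.1.2, y.1, by rw [mul_comm]; exact hy.2.symm, rfl, rfl⟩
    have h2 : (Finset.univ.filter
        (fun y : ZMod n × ZMod n => f • y = 0 ∧ x.1 * y.2 = y.1 * x.2)).card ≤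
        f * (Finset.univ.filter (fun t : ZMod n => x.2 * t = 0)).card := by
      refine (Finset.card_le_card h1).trans ?_
      refine (Finset.card_biUnion_le_card_mul _ _ _ fun s _ =>
        Finset.card_image_le.trans (card_fibre_le x.2 (x.1 * s))).trans ?_
      exact Nat.mul_le_mul_right _ (card_torsion_le f hf)
    calc _ ≤ f * (Finset.univ.filter (fun t : ZMod n => x.2 * t = 0)).card * addOrderOf x :=
          Nat.mul_le_mul_right _ h2
      _ = f * n := by rw [hx, mul_assoc, card_annih]

end count

section primePower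

variable {p k : ℕ} [hp : Fact p.Prime]

omit hp in
lemma nsmul_zero_pp (x : ZMod (p ^ k) × ZMod (p ^ k)) : (p ^ k) • x = 0 := by
  ext
  · rw [Prod.smul_fst, nsmul_eq_mul, ZMod.natCast_self, zero_mul, Prod.fst_zero]
  · rw [Prod.smul_snd, nsmul_eq_mul, ZMod.natCast_self, zero_mul, Prod.snd_zero]

lemma exists_order (x : ZMod (p ^ k) × ZMod (p ^ k)) : ∃ a ≤ k, addOrderOf x = p ^ a :=
  (Nat.dvd_prime_pow hp.out).1 (addOrderOf_dvd_of_nsmul_eq_zero (nsmul_zero_pp x))

lemma chain_pp (x y : ZMod (p ^ k) × ZMod (p ^ k)) :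
    addOrderOf x ∣ addOrderOf y ∨ addOrderOf y ∣ addOrderOf x := by
  obtain ⟨a, _, ha⟩ := exists_order x
  obtain ⟨b, _, hb⟩ := exists_order y
  rw [ha, hb]
  rcases le_total a b with h | h
  · exact Or.inl (pow_dvd_pow p h)
  · exact Or.inr (pow_dvd_pow p h)

lemma order_coord (x : ZMod (p ^ k) × ZMod (p ^ k)) :
    addOrderOf x = addOrderOf x.1 ∨ addOrderOf x = addOrderOf x.2 := by
  have h1 : addOrderOf x = (addOrderOf x.1).lcm (addOrderOf x.2) := Prod.addOrderOf x
  have h0 : ∀ t : ZMod (p ^ k), ∃ a ≤ k, addOrderOf t = p ^ a := by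
    intro t
    refine (Nat.dvd_prime_pow hp.out).1 (addOrderOf_dvd_of_nsmul_eq_zero ?_)
    rw [nsmul_eq_mul, ZMod.natCast_self, zero_mul]
  obtain ⟨a, _, ha⟩ := h0 x.1
  obtain ⟨b, _, hb⟩ := h0 x.2
  rw [h1, ha, hb]
  rcases le_total a b with h | h
  · right
    exact Nat.lcm_eq_right (pow_dvd_pow p h)
  · left
    exact Nat.lcm_eq_left (pow_dvd_pow p h)

/-- The number of vectors of order dividing `p ^ b` parallel to a vector of order `p ^ a`. -/
lemma card_par_pp (x : ZMod (p ^ k) × ZMod (p ^ k)) (a b : ℕ) (hak : a ≤ k)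
    (ha : addOrderOf x = p ^ a) :
    (Finset.univ.filter (fun y : ZMod (p ^ k) × ZMod (p ^ k) =>
      addOrderOf y = p ^ b ∧ x.1 * y.2 = y.1 * x.2)).card ≤ p ^ (b + (k - a)) := by
  have hpos : 0 < p := hp.out.pos
  have h1 := card_par_le x (p ^ b) (by positivity) (order_coord x)
  have h2 : (Finset.univ.filter (fun y : ZMod (p ^ k) × ZMod (p ^ k) =>
      addOrderOf y = p ^ b ∧ x.1 * y.2 = y.1 * x.2)) ⊆
      (Finset.univ.filter (fun y : ZMod (p ^ k) × ZMod (p ^ k) =>
        (p ^ b) • y = 0 ∧ x.1 * y.2 = y.1 * x.2)) := by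
    intro y hy
    rw [Finset.mem_filter] at hy ⊢
    refine ⟨Finset.mem_univ _, ?_, hy.2.2⟩
    rw [← hy.2.1]
    exact addOrderOf_nsmul_eq_zero y
  refine (Finset.card_le_card h2).trans ?_
  rw [ha] at h1
  refine Nat.le_of_mul_le_mul_right (h1.trans (le_of_eq ?_)) (pow_pos hpos a)
  rw [← pow_add, ← pow_add]
  congr 1
  omega

lemma card_order (b : ℕ) :
    (Finset.univ.filter (fun y : ZMod (p ^ k) × ZMod (p ^ k) =>
      addOrderOf y = p ^ b)).card ≤ p ^ (2 * b) := by
  have hpos : 0 < p := hp.out.pos
  have h2 : (Finset.univ.filter (fun y : ZMod (p ^ k) × ZMod (p ^ k) =>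
      addOrderOf y = p ^ b)) ⊆
      (Finset.univ.filter (fun y : ZMod (p ^ k) × ZMod (p ^ k) => (p ^ b) • y = 0)) := by
    intro y hy
    rw [Finset.mem_filter] at hy ⊢
    refine ⟨Finset.mem_univ _, ?_⟩
    rw [← hy.2]
    exact addOrderOf_nsmul_eq_zero y
  refine (Finset.card_le_card h2).trans ((card_torsion2_le (p ^ b) (by positivity)).trans ?_)
  rw [← pow_add, two_mul]

section forest

variable {V : Type} [Fintype V] [DecidableEq V]

/-- The functions supported on the list `l`, with prescribed orders `p ^ (d v)` there, that are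
parallel along the edges `v, par v` within `l`. -/
noncomputable def AA (p k : ℕ) [Fact p.Prime] (d : V → ℕ) (pr : V → Option V) (l : List V) :
    Finset (V → ZMod (p ^ k) × ZMod (p ^ k)) := by
  classical
  exact Finset.univ.filter (fun f => (∀ u, u ∉ l → f u = 0) ∧
    (∀ u, u ∈ l → addOrderOf (f u) = p ^ (d u)) ∧
    (∀ u, u ∈ l → ∀ w, w ∈ l → pr u = some w → (f w).1 * (f u).2 = (f u).1 * (f w).2))

lemma mem_AA {d : V → ℕ} {pr : V → Option V} {l : List V}
    {f : V → ZMod (p ^ k) × ZMod (p ^ k)} : f ∈ AA p k d pr l ↔ (∀ u, u ∉ l → f u = 0) ∧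
    (∀ u, u ∈ l → addOrderOf (f u) = p ^ (d u)) ∧
    (∀ u, u ∈ l → ∀ w, w ∈ l → pr u = some w → (f w).1 * (f u).2 = (f u).1 * (f w).2) := by
  classical
  rw [AA, Finset.mem_filter]
  exact ⟨fun h => h.2, fun h => ⟨Finset.mem_univ _, h⟩⟩

/-- The exponent of the bound for the vertex `v`. -/
def ex (k : ℕ) (d : V → ℕ) (pr : V → Option V) (v : V) : ℕ :=
  match pr v with
  | none => 2 * d v
  | some w => d v + (k - d w)

/-- Every vertex comes before its parent in the list. -/
def Good (pr : V → Option V) : List V → Prop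
  | [] => True
  | v :: l => v ∉ l ∧ (∀ w, pr v = some w → w ∈ l) ∧ Good pr l

lemma card_AA (d : V → ℕ) (hd : ∀ v, d v ≤ k) (pr : V → Option V) (l : List V) (hl : Good pr l) :
    (AA p k d pr l).card ≤ p ^ (l.map (ex k d pr)).sum := by
  classical
  induction l with
  | nil =>
    rw [List.map_nil, List.sum_nil, pow_zero, Finset.card_le_one]
    intro f hf g hg
    rw [AA, Finset.mem_filter] at hf hg
    funext u
    rw [hf.2.1 u (by simp), hg.2.1 u (by simp)]
  | cons v l ih =>
    obtain ⟨hv, hpar, hgood⟩ := hl
    have ih' := ih hgood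
    have hmaps : ∀ f ∈ AA p k d pr (v :: l), Function.update f v 0 ∈ AA p k d pr l := by
      intro f hf
      rw [AA, Finset.mem_filter] at hf ⊢
      obtain ⟨_, h1, h2, h3⟩ := hf
      refine ⟨Finset.mem_univ _, ?_, ?_, ?_⟩
      · intro u hu
        by_cases huv : u = v
        · rw [huv, Function.update_self]
        · rw [Function.update_of_ne huv]
          exact h1 u (by simp [huv, hu])
      · intro u hu
        have huv : u ≠ v := by
          rintro rfl
          exact hv hu
        rw [Function.update_of_ne huv]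
        exact h2 u (List.mem_cons_of_mem _ hu)
      · intro u hu w hw huw
        have huv : u ≠ v := by
          rintro rfl
          exact hv hu
        have hwv : w ≠ v := by
          rintro rfl
          exact hv hw
        rw [Function.update_of_ne huv, Function.update_of_ne hwv]
        exact h3 u (List.mem_cons_of_mem _ hu) w (List.mem_cons_of_mem _ hw) huw
    have hfib : ∀ b ∈ AA p k d pr l,
        ((AA p k d pr (v :: l)).filter (fun a => Function.update a v 0 = b)).card ≤
          p ^ ex k d pr v := by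
      intro b hb
      have hinj : Set.InjOn (fun a : V → ZMod (p ^ k) × ZMod (p ^ k) => a v)
          ((AA p k d pr (v :: l)).filter (fun a => Function.update a v 0 = b)) := by
        intro a ha a' ha' haa
        rw [Finset.mem_coe, Finset.mem_filter] at ha ha'
        funext u
        by_cases huv : u = v
        · rw [huv]
          exact haa
        · have h1 := congrFun ha.2 u
          have h2 := congrFun ha'.2 u
          rw [Function.update_of_ne huv] at h1 h2
          rw [h1, h2]
      rw [← Finset.card_image_of_injOn hinj]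
      cases hpv : pr v with
      | none =>
        have hex : ex k d pr v = 2 * d v := by
          unfold ex
          rw [hpv]
        rw [hex]
        refine (Finset.card_le_card ?_).trans (card_order (p := p) (k := k) (d v))
        intro y hy
        rw [Finset.mem_image] at hy
        obtain ⟨a, ha, rfl⟩ := hy
        rw [Finset.mem_filter, AA, Finset.mem_filter] at ha
        rw [Finset.mem_filter]
        exact ⟨Finset.mem_univ _, ha.1.2.2.1 v (by simp)⟩
      | some w =>
        have hex : ex k d pr v = d v + (k - d w) := by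
          unfold ex
          rw [hpv]
        rw [hex]
        have hwl := hpar w hpv
        have hwv : w ≠ v := by
          rintro rfl
          exact hv hwl
        have hbw : addOrderOf (b w) = p ^ d w := by
          rw [AA, Finset.mem_filter] at hb
          exact hb.2.2.1 w hwl
        refine (Finset.card_le_card ?_).trans (card_par_pp (b w) (d w) (d v) (hd w) hbw)
        intro y hy
        rw [Finset.mem_image] at hy
        obtain ⟨a, ha, rfl⟩ := hy
        rw [Finset.mem_filter, AA, Finset.mem_filter] at ha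
        rw [Finset.mem_filter]
        refine ⟨Finset.mem_univ _, ha.1.2.2.1 v (by simp), ?_⟩
        have h1 := congrFun ha.2 w
        rw [Function.update_of_ne hwv] at h1
        rw [← h1]
        exact ha.1.2.2.2 v (by simp) w (List.mem_cons_of_mem _ hwl) hpv
    refine (Finset.card_le_mul_card_image_of_maps_to hmaps _ hfib).trans ?_
    rw [List.map_cons, List.sum_cons, pow_add]
    exact Nat.mul_le_mul_left _ ih'

end forest

end primePower

end Pool.Agent.V1118.ParCount
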