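import Pool.Agent.TH669.AD.Fin
import Pool.Agent.TH669.TF.Rankin

/-! Few degrees are bad: Rankin's bound for the smooth part. -/

set_option autoImplicit false

namespace Pool.Agent.V1118.ADR

open Finset Real
open Pool.Agent.TH669.AD Pool.Agent.TH669.TF

/-- sums over smooth numbers -/
theorem smooth_sum (y : ℕ) (hy : 1 ≤ y) (σ : ℝ) (hσ : 1 / 2 ≤ σ) (hσ1 : σ ≤ 1) (S : Finset ℕ)
    (hS : ∀ n ∈ S, 0 < n ∧ ∀ p : ℕ, p.Prime → p ∣ n → p ≤ y) :
    ∑ n ∈ S, (n : ℝ) ^ (-σ) ≤ exp (4 * ((y : ℝ) ^ (1 - σ) * (1 + log y))) := by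
  have hlt : ∀ {p : ℕ}, p.Prime → ‖powHom σ p‖ < 1 := by
    intro p hp
    rw [powHom_apply, norm_of_nonneg (by positivity)]
    exact lt_of_le_of_lt (prime_pow_le σ hσ p hp) (by norm_num)
  obtain ⟨-, h2⟩ := EulerProduct.summable_and_hasSum_smoothNumbers_prod_primesBelow_geometric
    (f := powHom σ) hlt (y + 1)
  have hmem : ∀ n ∈ S, n ∈ (y + 1).smoothNumbers := by
    intro n hn
    rw [Nat.mem_smoothNumbers']
    intro p hp hd
    have := (hS n hn).2 p hp hd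
    omega
  have h3 : ∑ n ∈ S, powHom σ n ≤ ∏ p ∈ (y + 1).primesBelow, (1 - powHom σ p)⁻¹ := by
    have h4 := sum_le_hasSum (S.attach.image (fun n => (⟨n.1, hmem n.1 n.2⟩ :
      (y + 1).smoothNumbers))) (fun n _ => ?_) h2
    · rw [sum_image] at h4
      · rw [← sum_attach]
        exact h4
      · intro a _ b _ hab
        apply Subtype.ext
        exact congrArg (fun z : (y + 1).smoothNumbers => (z : ℕ)) hab
    · rw [powHom_apply]
      positivity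
  have h5 : ∏ p ∈ (y + 1).primesBelow, (1 - powHom σ p)⁻¹ ≤
      exp (4 * ((y : ℝ) ^ (1 - σ) * (1 + log y))) := by
    calc ∏ p ∈ (y + 1).primesBelow, (1 - powHom σ p)⁻¹
        ≤ ∏ p ∈ (y + 1).primesBelow, exp (4 * (p : ℝ) ^ (-σ)) := by
          apply prod_le_prod
          · intro p hp
            rw [Nat.mem_primesBelow] at hp
            have := prime_pow_le σ hσ p hp.2
            rw [powHom_apply]
            apply inv_nonneg.2
            linarith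
          · intro p hp
            rw [Nat.mem_primesBelow] at hp
            rw [powHom_apply]
            exact one_sub_inv_le _ (by positivity) (prime_pow_le σ hσ p hp.2)
      _ = exp (4 * ∑ p ∈ (y + 1).primesBelow, (p : ℝ) ^ (-σ)) := by
          rw [← exp_sum, mul_sum]
      _ ≤ _ := by
          apply exp_le_exp.2
          exact mul_le_mul_of_nonneg_left (sum_primes_le y hy σ hσ1) (by norm_num)
  exact h3.trans h5

open Classical in
/-- numbers with a large smooth part -/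
theorem count_smooth (x y : ℕ) (hy : 1 ≤ y) (U : ℝ) (hU : 1 < U) (κ : ℝ) (hκ0 : 0 ≤ κ)
    (hκ : κ ≤ 1 / 2) :
    (((Ioc 0 x).filter (fun n => (∀ p : ℕ, p.Prime → y < p → ¬ p ^ 2 ∣ n) ∧
      U * ((∏ p ∈ big y n, p : ℕ) : ℝ) < n)).card : ℝ) ≤
      x * (U ^ (-κ) * exp (4 * ((y : ℝ) ^ κ * (1 + log y)))) := by
  set B := (Ioc 0 x).filter (fun n => (∀ p : ℕ, p.Prime → y < p → ¬ p ^ 2 ∣ n) ∧
      U * ((∏ p ∈ big y n, p : ℕ) : ℝ) < n) with hB
  set S := (Ioc 0 x).filter (fun a => (∀ p : ℕ, p.Prime → p ∣ a → p ≤ y) ∧ U < (a : ℝ)) with hS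
  have hsub : B ⊆ S.biUnion (fun a => (Ioc 0 (x / a)).image (fun b => a * b)) := by
    intro n hn
    rw [hB, mem_filter, mem_Ioc] at hn
    obtain ⟨⟨hn0, hnx⟩, hsq, hlt⟩ := hn
    have hdvd : (∏ p ∈ big y n, p) ∣ n := by
      apply Finset.prod_primes_dvd
      · intro p hp
        exact (Nat.prime_of_mem_primeFactors (mem_filter.1 hp).1).prime
      · intro p hp
        exact Nat.dvd_of_mem_primeFactors (mem_filter.1 hp).1
    obtain ⟨a, ha⟩ := hdvd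
    have hb0 : 0 < ∏ p ∈ big y n, p :=
      prod_pos fun p hp => (Nat.prime_of_mem_primeFactors (mem_filter.1 hp).1).pos
    have ha0 : 0 < a := by
      rcases Nat.eq_zero_or_pos a with h | h
      · rw [h, mul_zero] at ha
        omega
      · exact h
    rw [mem_biUnion]
    refine ⟨a, ?_, ?_⟩
    · rw [hS, mem_filter, mem_Ioc]
      refine ⟨⟨ha0, ?_⟩, ?_, ?_⟩
      · exact (Nat.le_of_dvd hn0 ⟨_, by rw [mul_comm]; exact ha⟩).trans hnx
      · intro p hp hpa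
        by_contra hlt'
        have hyp : y < p := not_le.1 hlt'
        have hpn : p ∣ n := by
          rw [ha]
          exact hpa.mul_left _
        have hpb : p ∣ ∏ p ∈ big y n, p := by
          apply dvd_prod_of_mem (fun p => p)
          exact mem_filter.2 ⟨Nat.mem_primeFactors.2 ⟨hp, hpn, by omega⟩, hyp⟩
        apply hsq p hp hyp
        rw [ha, sq]
        exact Nat.mul_dvd_mul hpb hpa
      · have h1 : (n : ℝ) = ((∏ p ∈ big y n, p : ℕ) : ℝ) * a := by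
          rw [← Nat.cast_mul, ← ha]
        have h2 : (0 : ℝ) < ((∏ p ∈ big y n, p : ℕ) : ℝ) := by exact_mod_cast hb0
        rw [h1, mul_comm U] at hlt
        exact lt_of_mul_lt_mul_left hlt h2.le
    · rw [mem_image]
      refine ⟨∏ p ∈ big y n, p, ?_, ?_⟩
      · rw [mem_Ioc]
        refine ⟨hb0, ?_⟩
        rw [Nat.le_div_iff_mul_le ha0, ← ha]
        exact hnx
      · rw [mul_comm]
        exact ha.symm
  have hU0 : 0 < U := by linarith
  have h1 : (B.card : ℝ) ≤ ∑ a ∈ S, (x : ℝ) / a := by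
    have h2 : B.card ≤ ∑ a ∈ S, x / a := by
      refine (card_le_card hsub).trans (card_biUnion_le.trans ?_)
      apply sum_le_sum
      intro a _
      refine card_image_le.trans ?_
      rw [Nat.card_Ioc, Nat.sub_zero]
    have h3 : ((∑ a ∈ S, x / a : ℕ) : ℝ) ≤ ∑ a ∈ S, (x : ℝ) / a := by
      rw [Nat.cast_sum]
      apply sum_le_sum
      intro a _
      exact Nat.cast_div_le
    exact le_trans (by exact_mod_cast h2) h3
  have h4 : ∑ a ∈ S, (x : ℝ) / a ≤ ∑ a ∈ S, x * (U ^ (-κ) * (a : ℝ) ^ (-(1 - κ))) := by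
    apply sum_le_sum
    intro a ha
    rw [hS, mem_filter, mem_Ioc] at ha
    have ha0 : (0 : ℝ) < a := by exact_mod_cast ha.1.1
    have h5 : (1 : ℝ) ≤ U ^ (-κ) * (a : ℝ) ^ κ := by
      rw [rpow_neg hU0.le, inv_mul_eq_div, one_le_div (by positivity)]
      exact rpow_le_rpow hU0.le ha.2.2.le hκ0
    have h6 : (a : ℝ) ^ (-(1 - κ)) = (a : ℝ) ^ κ / a := by
      rw [neg_sub, rpow_sub ha0, rpow_one]
    rw [h6, div_eq_mul_one_div]
    apply mul_le_mul_of_nonneg_left _ (Nat.cast_nonneg x)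
    rw [← mul_div_assoc]
    exact div_le_div_of_nonneg_right h5 ha0.le
  have h7 : ∑ a ∈ S, (a : ℝ) ^ (-(1 - κ)) ≤ exp (4 * ((y : ℝ) ^ κ * (1 + log y))) := by
    have := smooth_sum y hy (1 - κ) (by linarith) (by linarith) S (fun n hn => by
      rw [hS, mem_filter, mem_Ioc] at hn
      exact ⟨hn.1.1, hn.2.1⟩)
    rwa [sub_sub_cancel] at this
  refine h1.trans (h4.trans ?_)
  rw [← mul_sum, ← mul_sum]
  have hpos : 0 ≤ U ^ (-κ) := by positivity
  gcongr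

/-- few degrees are not good -/
theorem few_bad_rankin (x y s : ℕ) (U κ : ℝ) (hy : 1 ≤ y) (hs : 0 < s) (hU : 1 < U) (hκ0 : 0 ≤ κ)
    (hκ : κ ≤ 1 / 2) :
    ({n : ℕ | 1 ≤ n ∧ n ≤ x ∧ ¬ GoodDeg y s U n}.ncard : ℝ) ≤
      x / y + x * (s : ℝ) ^ 2 * (1 + log (x * s)) / y +
        x * (U ^ (-κ) * exp (4 * ((y : ℝ) ^ κ * (1 + log y)))) := by
  classical
  set B1 := (Ioc 0 x).filter (fun n => ∃ p : ℕ, p.Prime ∧ y < p ∧ p ^ 2 ∣ n) with hB1
  set B2 := (Ioc 0 x).filter (fun n => ∃ p d₁ d₂ : ℕ, p.Prime ∧ y < p ∧ p * d₁ ∣ n ∧ 1 ≤ d₂ ∧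
      d₂ ≤ s ∧ d₁ * d₂ ≡ 1 [MOD p] ∧ d₁ * d₂ ≠ 1) with hB2
  set B3 := (Ioc 0 x).filter (fun n => (∀ p : ℕ, p.Prime → y < p → ¬ p ^ 2 ∣ n) ∧
      U * ((∏ p ∈ big y n, p : ℕ) : ℝ) < n) with hB3
  have hsub : {n : ℕ | 1 ≤ n ∧ n ≤ x ∧ ¬ GoodDeg y s U n} ⊆ ((B1 ∪ B2 ∪ B3 : Finset ℕ) : Set ℕ) := by
    rintro n ⟨h1, h2, h3⟩
    have hn : n ∈ Ioc 0 x := mem_Ioc.2 ⟨h1, h2⟩
    rw [mem_coe, mem_union, mem_union]
    by_cases hsq : ∀ p : ℕ, p.Prime → y < p → ¬ p ^ 2 ∣ n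
    · by_cases hc : ∀ p : ℕ, p.Prime → y < p → ∀ d₁ d₂, p * d₁ ∣ n → 1 ≤ d₂ → d₂ ≤ s →
          d₁ * d₂ ≡ 1 [MOD p] → d₁ * d₂ = 1
      · right
        rw [hB3, mem_filter]
        refine ⟨hn, hsq, ?_⟩
        by_contra hlt
        exact h3 ⟨hsq, hc, not_lt.1 hlt⟩
      · left
        right
        push Not at hc
        obtain ⟨p, hp, hyp, d₁, d₂, a1, a2, a3, a4, a5⟩ := hc
        rw [hB2, mem_filter]
        exact ⟨hn, p, d₁, d₂, hp, hyp, a1, a2, a3, a4, a5⟩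
    · left
      left
      push Not at hsq
      obtain ⟨p, hp, hyp, a1⟩ := hsq
      rw [hB1, mem_filter]
      exact ⟨hn, p, hp, hyp, a1⟩
  have h1 : {n : ℕ | 1 ≤ n ∧ n ≤ x ∧ ¬ GoodDeg y s U n}.ncard ≤ B1.card + B2.card + B3.card := by
    calc {n : ℕ | 1 ≤ n ∧ n ≤ x ∧ ¬ GoodDeg y s U n}.ncard
        ≤ ((B1 ∪ B2 ∪ B3 : Finset ℕ) : Set ℕ).ncard := Set.ncard_le_ncard hsub (finite_toSet _)
      _ = (B1 ∪ B2 ∪ B3).card := Set.ncard_coe_finset _
      _ ≤ (B1 ∪ B2).card + B3.card := card_union_le _ _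
      _ ≤ _ := by
        have := card_union_le B1 B2
        omega
  have h2 : (B1.card : ℝ) ≤ x / y := by
    convert count1 x y (by omega)
  have h3 : (B2.card : ℝ) ≤ x * (s : ℝ) ^ 2 * (1 + log (x * s)) / y := by
    convert count2 x y s (by omega) hs
  have h4 : (B3.card : ℝ) ≤ x * (U ^ (-κ) * exp (4 * ((y : ℝ) ^ κ * (1 + log y)))) :=
    count_smooth x y hy U hU κ hκ0 hκ
  calc ({n : ℕ | 1 ≤ n ∧ n ≤ x ∧ ¬ GoodDeg y s U n}.ncard : ℝ)
      ≤ ((B1.card + B2.card + B3.card : ℕ) : ℝ) := by exact_mod_cast h1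
    _ = (B1.card : ℝ) + B2.card + B3.card := by push_cast; ring
    _ ≤ _ := by linarith

end Pool.Agent.V1118.ADR
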