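import Pool.Agent.V1118.SpD
import Pool.Agent.Y854.GM.Dens

/-!
# Upper densities along the sparse sequences `⌊α n ^ c⌋`, `c > 1`, and groups of almost all orders

If a set of natural numbers has upper density at most `η`, then so has the set of the `n` for which
`⌊α n ^ c⌋` is in the set, for all `α > 0` outside a set of Hausdorff dimension smaller than one which is
the same for a countable family of sets.
-/

set_option autoImplicit false

namespace Pool.Agent.V1118.SpE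

open Finset Filter Topology
open Pool.Agent.Y854.PS
open Pool.Agent.Y854.GM
open Pool.Agent.V1118.SpD

/-- **Upper densities along the sequences `⌊α n ^ c⌋`.** -/
theorem upper_along (c : ℝ) (hc : 1 < c) {ι : Type} [Countable ι] (P : ι → ℕ → Prop) :
    ∃ E : Set ℝ, dimH E < 1 ∧ ∀ α : ℝ, 0 < α → α ∉ E → ∀ (k : ι) (η : ℝ), 0 ≤ η →
      (∃ X0 : ℕ, ∀ X : ℕ, X0 ≤ X → ({m : ℕ | 1 ≤ m ∧ m ≤ X ∧ P k m}.ncard : ℝ) ≤ η * X) →
      ∀ ε : ℝ, 0 < ε → ∃ N0 : ℕ, ∀ N : ℕ, N0 ≤ N → (along α c (P k) N : ℝ) ≤ (η + ε) * N := by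
  classical
  obtain ⟨κ, hκ, hκ1, hmean⟩ := mean2 c hc
  obtain ⟨E, hE, hlaw⟩ := hmean (fun (k : ι) t => if P k t then 1 else 0)
  refine ⟨E, hE, fun α hα hαE k η hη hX ε hε => ?_⟩
  obtain ⟨X0, hX0⟩ := hX
  obtain ⟨N0, hN0⟩ := hlaw α hα hαE k ⟨1, one_pos, fun m hm => by
    have h1 : (1 : ℝ) ≤ (m : ℝ) ^ κ := Real.one_le_rpow (by exact_mod_cast hm) hκ.le
    split_ifs <;> simp <;> linarith⟩
  have hcard : ∀ X : ℕ, (∑ t ∈ Ioc 0 X, (if P k t then (1 : ℝ) else 0)) =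
      ({m : ℕ | 1 ≤ m ∧ m ≤ X ∧ P k m}.ncard : ℝ) := by
    intro X
    rw [Finset.sum_boole, ← Set.ncard_coe_finset]
    congr 2
    ext m
    simp only [coe_filter, mem_Ioc, Set.mem_ofPred_eq]
    constructor
    · rintro ⟨⟨a, b⟩, d⟩
      exact ⟨by omega, b, d⟩
    · rintro ⟨a, b, d⟩
      exact ⟨⟨by omega, b⟩, d⟩
  obtain ⟨N1, hN1⟩ := seq_upper hα hc hκ (fun t : ℕ => if P k t then (1 : ℝ) else 0)
    (δ := η) (C := X0) (fun X => by
      rcases le_or_gt X0 X with h | h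
      · have h1 := hX0 X h
        rw [hcard]
        have : (0 : ℝ) ≤ X0 := Nat.cast_nonneg _
        linarith
      · have h1 : (∑ t ∈ Ioc 0 X, (if P k t then (1 : ℝ) else 0)) ≤ X := by
          rw [Finset.sum_boole]
          have := Finset.card_filter_le (Ioc 0 X) (fun t => P k t)
          rw [Nat.card_Ioc, Nat.sub_zero] at this
          exact_mod_cast this
        have h2 : (X : ℝ) ≤ X0 := by exact_mod_cast h.le
        have h3 : 0 ≤ η * (X : ℝ) := mul_nonneg hη (Nat.cast_nonneg _)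
        linarith) N0 hN0 ε hε
  refine ⟨N1, fun N hN => ?_⟩
  have h := hN1 N hN
  rw [along_eq]
  have e : ∑ n ∈ Icc 1 N, (fun t : ℕ => if P k t then (1 : ℝ) else 0) ⌊α * (n : ℝ) ^ c⌋₊ =
      (((Icc 1 N).filter (fun n : ℕ => ⌊α * (n : ℝ) ^ c⌋₊ ∈ {t : ℕ | P k t})).card : ℝ) := by
    simp only
    rw [Finset.sum_boole]
    rfl
  rw [e] at h
  have h2 : (((Icc 1 N).filter (fun n : ℕ => ⌊α * (n : ℝ) ^ c⌋₊ ∈ {t : ℕ | P k t})).card : ℝ) ≤
      (η + ε) * N := by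
    convert h
  refine (le_of_eq ?_).trans h2
  congr!

/-- Let `Bd m s B` be a property which is preserved if `B` becomes larger and which holds, for all
`η > 0` and some exponent `K`, for `B = (s log x) ^ K` and all but `η x` of the `m ≤ x`.  Then for all
`α > 0` outside a set of Hausdorff dimension smaller than one, it holds for `B = (s log m) ^ K'` and all
but `η N` of the numbers `m = ⌊α n ^ c⌋`, `n ≤ N`. -/
theorem orders_along (Bd : ℕ → ℕ → ℝ → Prop)
    (hmono : ∀ (m s : ℕ) (B B' : ℝ), 0 < B → B ≤ B' → Bd m s B → Bd m s B')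
    (hst : ∀ η : ℝ, 0 < η → ∃ K : ℕ, ∀ x s : ℕ, 8 ≤ x → 1 ≤ s →
      ({m : ℕ | 1 ≤ m ∧ m ≤ x ∧ ¬ Bd m s ((s * Real.log x) ^ K)}.ncard : ℝ) ≤ η * x) :
    ∃ K : ℝ → ℕ, ∀ c : ℝ, 1 < c → ∃ E : Set ℝ, dimH E < 1 ∧ ∀ α : ℝ, 0 < α → α ∉ E →
      ∀ η : ℝ, 0 < η → ∀ s : ℕ, 1 ≤ s → ∃ N0 : ℕ, ∀ N : ℕ, N0 ≤ N →
        (along α c (fun m => ¬ Bd m s ((s * Real.log m) ^ K η)) N : ℝ) ≤ η * N := by
  have hst' : ∀ η : ℝ, ∃ K : ℕ, 0 < η → ∀ x s : ℕ, 8 ≤ x → 1 ≤ s →
      ({m : ℕ | 1 ≤ m ∧ m ≤ x ∧ ¬ Bd m s ((s * Real.log x) ^ K)}.ncard : ℝ) ≤ η * x := by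
    intro η
    by_cases hη : 0 < η
    · obtain ⟨K, hK⟩ := hst η hη
      exact ⟨K, fun _ => hK⟩
    · exact ⟨0, fun h => absurd h hη⟩
  choose K0 hK0 using hst'
  refine ⟨fun η => 2 * K0 (η / 4), fun c hc => ?_⟩
  obtain ⟨E, hE, h⟩ := upper_along c hc (ι := ℕ × ℕ)
    (fun v m => ¬ Bd m v.1 ((v.1 * Real.log m) ^ v.2))
  refine ⟨E, hE, fun α hα hαE η hη s hs => ?_⟩
  have hs1 : (1 : ℝ) ≤ s := by exact_mod_cast hs
  obtain ⟨N0, hN0⟩ := h α hα hαE (s, 2 * K0 (η / 4)) (η / 2) (by linarith) (by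
    obtain ⟨X1, hX1⟩ := exists_nat_ge (8 / η)
    refine ⟨max 64 (X1 ^ 2 + 64), fun X hX => ?_⟩
    have hX64 : 64 ≤ X := (le_max_left _ _).trans hX
    have hXX1 : X1 ^ 2 + 64 ≤ X := (le_max_right _ _).trans hX
    have hXp : (64 : ℝ) ≤ X := by exact_mod_cast hX64
    have h1 := hK0 (η / 4) (by linarith) X s (by omega) hs
    set Y := Nat.sqrt X with hY
    have hY1 : Y * Y ≤ X := Nat.sqrt_le X
    have hY2 : X < (Y + 1) * (Y + 1) := Nat.lt_succ_sqrt X
    have hY8 : 8 ≤ Y := by nlinarith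
    have hsub : {m : ℕ | 1 ≤ m ∧ m ≤ X ∧ ¬ Bd m s ((s * Real.log m) ^ (2 * K0 (η / 4)))} ⊆
        ((Finset.Icc 1 Y : Finset ℕ) : Set ℕ) ∪
          {m : ℕ | 1 ≤ m ∧ m ≤ X ∧ ¬ Bd m s ((s * Real.log X) ^ K0 (η / 4))} := by
      rintro m ⟨m1, m2, m3⟩
      rcases le_or_gt m Y with hm | hm
      · left
        rw [Finset.mem_coe, Finset.mem_Icc]
        exact ⟨m1, hm⟩
      · right
        refine ⟨m1, m2, fun hBd => m3 (hmono m s _ _ ?_ ?_ hBd)⟩
        · have : 0 < Real.log X := Real.log_pos (by linarith)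
          positivity
        · have hm9 : (9 : ℝ) ≤ m := by exact_mod_cast (show 9 ≤ m by omega)
          have hlm : 2 ≤ Real.log m := by
            rw [Real.le_log_iff_exp_le (by linarith)]
            have h3 : Real.exp 2 = Real.exp 1 * Real.exp 1 := by
              rw [← Real.exp_add]; norm_num
            rw [h3]
            nlinarith [Real.exp_one_lt_d9, Real.exp_pos 1]
          have hlX : Real.log X ≤ 2 * Real.log m := by
            have h4 : (X : ℝ) ≤ (m : ℝ) ^ 2 := by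
              have : X ≤ m ^ 2 := by
                have h5 : Y + 1 ≤ m := hm
                nlinarith
              exact_mod_cast this
            have h5 := Real.log_le_log (by linarith) h4
            rw [Real.log_pow] at h5
            exact_mod_cast h5
          have hlX0 : 0 ≤ Real.log X := Real.log_natCast_nonneg X
          have h6 : s * Real.log X ≤ (s * Real.log m) ^ 2 := by
            have h7 : (2 : ℝ) ≤ s * Real.log m := by nlinarith
            nlinarith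
          rw [pow_mul]
          exact pow_le_pow_left₀ (by positivity) h6 _
    have hfin2 : {m : ℕ | 1 ≤ m ∧ m ≤ X ∧ ¬ Bd m s ((s * Real.log X) ^ K0 (η / 4))}.Finite :=
      (Set.finite_Icc 1 X).subset (fun m hm => ⟨hm.1, hm.2.1⟩)
    have hle : {m : ℕ | 1 ≤ m ∧ m ≤ X ∧ ¬ Bd m s ((s * Real.log m) ^ (2 * K0 (η / 4)))}.ncard ≤
        Y + {m : ℕ | 1 ≤ m ∧ m ≤ X ∧ ¬ Bd m s ((s * Real.log X) ^ K0 (η / 4))}.ncard := by
      refine (Set.ncard_le_ncard hsub ((Finset.finite_toSet _).union hfin2)).trans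
        ((Set.ncard_union_le _ _).trans ?_)
      rw [Set.ncard_coe_finset, Nat.card_Icc]
      omega
    have hle' : ({m : ℕ | 1 ≤ m ∧ m ≤ X ∧
        ¬ Bd m s ((s * Real.log m) ^ (2 * K0 (η / 4)))}.ncard : ℝ) ≤
        Y + {m : ℕ | 1 ≤ m ∧ m ≤ X ∧ ¬ Bd m s ((s * Real.log X) ^ K0 (η / 4))}.ncard := by
      exact_mod_cast hle
    have hYη : (Y : ℝ) ≤ η / 4 * X := by
      have h8 : (X1 : ℝ) ≤ Y := by
        have : X1 ≤ Y := by
          rw [hY, Nat.le_sqrt']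
          omega
        exact_mod_cast this
      have h9 : 8 / η ≤ Y := hX1.trans h8
      have h10 : 8 ≤ η * Y := by
        rw [div_le_iff₀ hη] at h9
        linarith
      have h11 : (Y : ℝ) * Y ≤ X := by exact_mod_cast hY1
      have h12 : (0 : ℝ) ≤ Y := Nat.cast_nonneg _
      have h13 : η * ((Y : ℝ) * Y) ≤ η * X := mul_le_mul_of_nonneg_left h11 hη.le
      nlinarith
    linarith) (η / 2) (by linarith)
  refine ⟨N0, fun N hN => ?_⟩
  have h1 := hN0 N hN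
  have e : (η / 2 + η / 2) * (N : ℝ) = η * N := by ring
  rw [e] at h1
  exact h1

end Pool.Agent.V1118.SpE
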