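import Pool.Agent.V1118.SpE
import Pool.Agent.Y854.GM.Log

/-!
# Sets of natural numbers with logarithmic savings along the sequences `⌊α n ^ c⌋`, `c > 1`
-/

set_option autoImplicit false

namespace Pool.Agent.V1118.SpF

open Finset Filter Topology
open Pool.Agent.Y854.PS
open Pool.Agent.Y854.GM
open Pool.Agent.V1118.SpD

/-- sets with at most `C X (log X) ^ (-δ)` members up to `X` -/
theorem few_nat (c : ℝ) (hc : 1 < c) {ι : Type} [Countable ι] (P : ι → ℕ → Prop) :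
    ∃ E : Set ℝ, dimH E < 1 ∧ ∀ α : ℝ, 0 < α → α ∉ E → ∀ (k : ι) (δ C : ℝ), 0 ≤ δ →
      (∃ X0 : ℕ, ∀ X : ℕ, X0 ≤ X → ({m : ℕ | m ≤ X ∧ P k m}.ncard : ℝ) ≤
        C * X * (Real.log X) ^ (-δ)) →
      ∃ C' : ℝ, ∀ N : ℕ, 3 ≤ N → (along α c (P k) N : ℝ) ≤ C' * N * (Real.log N) ^ (-δ) := by
  classical
  obtain ⟨E, hE, h⟩ := few_along c hc (fun (k : ι) (d : ℤ) => P k d.natAbs)
  refine ⟨E, hE, fun α hα hαE k δ C hδ hX => ?_⟩
  obtain ⟨X0, hX0⟩ := hX
  obtain ⟨C', hC'⟩ := (h α hα hαE).2 k δ (2 * C) hδ ⟨X0, fun X hX => by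
    have hfin : {m : ℕ | m ≤ X ∧ P k m}.Finite := (Set.finite_Iic X).subset fun m hm => hm.1
    have hsub : {d : ℤ | d.natAbs ≤ X ∧ P k d.natAbs} ⊆
        (fun m : ℕ => (m : ℤ)) '' {m : ℕ | m ≤ X ∧ P k m} ∪
          (fun m : ℕ => -(m : ℤ)) '' {m : ℕ | m ≤ X ∧ P k m} := by
      rintro d ⟨h1, h2⟩
      rcases Int.natAbs_eq d with h3 | h3
      · exact Or.inl ⟨d.natAbs, ⟨h1, h2⟩, h3.symm⟩
      · exact Or.inr ⟨d.natAbs, ⟨h1, h2⟩, h3.symm⟩
    have h1 : {d : ℤ | d.natAbs ≤ X ∧ P k d.natAbs}.ncard ≤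
        {m : ℕ | m ≤ X ∧ P k m}.ncard + {m : ℕ | m ≤ X ∧ P k m}.ncard := by
      refine (Set.ncard_le_ncard hsub ((hfin.image _).union (hfin.image _))).trans
        ((Set.ncard_union_le _ _).trans ?_)
      exact Nat.add_le_add (Set.ncard_image_le hfin) (Set.ncard_image_le hfin)
    have h2 : ({d : ℤ | d.natAbs ≤ X ∧ P k d.natAbs}.ncard : ℝ) ≤
        {m : ℕ | m ≤ X ∧ P k m}.ncard + {m : ℕ | m ≤ X ∧ P k m}.ncard := by exact_mod_cast h1
    have h3 := hX0 X hX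
    linarith⟩
  refine ⟨C', fun N hN => ?_⟩
  have h1 := hC' 1 (Or.inl rfl) N hN
  simpa using h1

/-- sets with `o (X / log X)` members up to `X` -/
theorem little_log (c : ℝ) (hc : 1 < c) {ι : Type} [Countable ι] (P : ι → ℕ → Prop) :
    ∃ E : Set ℝ, dimH E < 1 ∧ ∀ α : ℝ, 0 < α → α ∉ E → ∀ k : ι,
      Tendsto (fun X : ℕ => ({m : ℕ | m ≤ X ∧ P k m}.ncard : ℝ) * Real.log X / X) atTop (𝓝 0) →
      Tendsto (fun N : ℕ => (along α c (P k) N : ℝ) * Real.log N / N) atTop (𝓝 0) := by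
  classical
  obtain ⟨κ, hκ, hκ1, hmean⟩ := mean2 c hc
  obtain ⟨E, hE, hlaw⟩ := hmean (fun (k : ι) t => if P k t then 1 else 0)
  refine ⟨E, hE, fun α hα hαE k ht => ?_⟩
  obtain ⟨N0, hN0⟩ := hlaw α hα hαE k ⟨1, one_pos, fun m hm => by
    have h1 : (1 : ℝ) ≤ (m : ℝ) ^ κ := Real.one_le_rpow (by exact_mod_cast hm) hκ.le
    split_ifs <;> simp <;> linarith⟩
  rw [Metric.tendsto_atTop]
  intro ε hε
  obtain ⟨X1, hX1⟩ := (Metric.tendsto_atTop.1 ht) (ε / 8) (by linarith)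
  obtain ⟨N1, hN1⟩ := seq_upper_log hα hc hκ (fun t : ℕ => if P k t then (1 : ℝ) else 0)
    (fun m => by split_ifs <;> norm_num) (F := 1) zero_le_one (fun m => by split_ifs <;> norm_num)
    (δ := ε / 8) (by linarith) (max X1 3) (fun X hX => by
      have h3 : 3 ≤ X := (le_max_right _ _).trans hX
      have h3' : (3 : ℝ) ≤ X := by exact_mod_cast h3
      have hl := one_le_log3 h3
      have h1 := hX1 X ((le_max_left _ _).trans hX)
      rw [Real.dist_eq, sub_zero] at h1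
      have h2 := (abs_lt.1 h1).2
      have hfin : {m : ℕ | m ≤ X ∧ P k m}.Finite := (Set.finite_Iic X).subset fun m hm => hm.1
      have h4 : (∑ t ∈ Ioc 0 X, (if P k t then (1 : ℝ) else 0)) ≤
          ({m : ℕ | m ≤ X ∧ P k m}.ncard : ℝ) := by
        rw [Finset.sum_boole, ← Set.ncard_coe_finset]
        have h5 : (((Ioc 0 X).filter (fun t => P k t) : Finset ℕ) : Set ℕ) ⊆
            {m : ℕ | m ≤ X ∧ P k m} := by
          intro m hm
          rw [Finset.mem_coe, mem_filter, mem_Ioc] at hm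
          exact ⟨hm.1.2, hm.2⟩
        exact_mod_cast Set.ncard_le_ncard h5 hfin
      refine h4.trans ?_
      rw [le_div_iff₀ (by linarith)]
      rw [div_lt_iff₀ (by linarith)] at h2
      linarith) N0 hN0 (ε / 4) (by linarith)
  refine ⟨max N1 3, fun N hN => ?_⟩
  have h3 : 3 ≤ N := (le_max_right _ _).trans hN
  have h3' : (3 : ℝ) ≤ N := by exact_mod_cast h3
  have hl := one_le_log3 h3
  have h := hN1 N ((le_max_left _ _).trans hN)
  have e : ∑ n ∈ Icc 1 N, (fun t : ℕ => if P k t then (1 : ℝ) else 0) ⌊α * (n : ℝ) ^ c⌋₊ =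
      (((Icc 1 N).filter (fun n : ℕ => ⌊α * (n : ℝ) ^ c⌋₊ ∈ {t : ℕ | P k t})).card : ℝ) := by
    simp only
    rw [Finset.sum_boole]
    rfl
  rw [e] at h
  have h2 : (along α c (P k) N : ℝ) ≤ (2 * (ε / 8) + ε / 4) * N / Real.log N := by
    rw [along_eq]
    convert h
  rw [Real.dist_eq, sub_zero, abs_of_nonneg (by positivity), div_lt_iff₀ (by linarith)]
  rw [le_div_iff₀ (by linarith)] at h2
  nlinarith

end Pool.Agent.V1118.SpF
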