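import Mathlib
import Pool.Agent.Results.MP_93d8d2_nt.MiddleEntriesRate

/-! The count of the middle entries `m` for which `a ^ (m ^ c)` is not free, with a power of `log X`
(from the starting result `MP_93d8d2_nt.MiddleEntriesRate`). -/

set_option autoImplicit false

open Filter Topology

namespace Pool.Agent.V1118.TowMid

open Pool.Agent.Results.MP_93d8d2_nt.MiddleEntriesRate (Free)

/-- `m ≥ 1` and `a ^ (m ^ c)` is not free -/
def Bad (a c : ℝ) (m : ℕ) : Prop := 1 ≤ m ∧ ¬ Free (a ^ ((m : ℝ) ^ c))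

theorem count (a c : ℝ) (ha : 0 < a) (ha1 : a ≠ 1) (hca : IsAlgebraic ℚ c) (hc : Irrational c)
    (δ : ℝ) (hδ0 : 0 ≤ δ) (hδ : δ < 1) : ∃ C : ℝ, 0 < C ∧ ∀ X : ℕ, 3 ≤ X →
      ({m : ℕ | m ≤ X ∧ Bad a c m}.ncard : ℝ) ≤ C * X * (Real.log X) ^ (-δ) := by
  classical
  obtain ⟨C, hC0, -, hC⟩ := Pool.Agent.Results.MP_93d8d2_nt.MiddleEntriesRate.result
  have h := hC a c ha ha1 hca hc
  have hε : 0 < (1 - δ) / 3 := by linarith
  have h1 : ∀ᶠ y : ℝ in atTop, Real.log y ≤ y ^ ((1 - δ) / 3) := by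
    have := (isLittleO_log_rpow_atTop hε).bound (one_pos)
    filter_upwards [this, eventually_ge_atTop 1] with y hy hy1
    rw [one_mul, Real.norm_of_nonneg (Real.log_nonneg hy1),
      Real.norm_of_nonneg (Real.rpow_nonneg (by linarith) _)] at hy
    exact hy
  have h2 : Tendsto (fun X : ℕ => Real.log (X : ℝ)) atTop atTop :=
    Real.tendsto_log_atTop.comp tendsto_natCast_atTop_atTop
  obtain ⟨X0, hX0⟩ := (h2.eventually h1).exists_forall_of_atTop
  set X1 : ℕ := max X0 16 with hX1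
  have hX16 : (16 : ℝ) ≤ X1 := by exact_mod_cast le_max_right X0 16
  have hl1 : 0 ≤ (Real.log X1) ^ δ := Real.rpow_nonneg (Real.log_nonneg (by linarith)) _
  refine ⟨C + (Real.log X1) ^ δ + 1, by linarith, fun X hX => ?_⟩
  have hX3 : (3 : ℝ) ≤ X := by exact_mod_cast hX
  have hl : 1 ≤ Real.log X := by
    rw [Real.le_log_iff_exp_le (by linarith)]
    have := Real.exp_one_lt_d9
    linarith
  have hp : 0 ≤ (Real.log X) ^ (-δ) := Real.rpow_nonneg (by linarith) _
  have hfin : {m : ℕ | m ≤ X ∧ Bad a c m} =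
      (((Finset.Icc 1 X).filter (fun n : ℕ => ¬ Free (a ^ ((n : ℝ) ^ c))) : Finset ℕ) : Set ℕ) := by
    ext m
    rw [Finset.mem_coe, Finset.mem_filter, Finset.mem_Icc]
    constructor
    · rintro ⟨x, y, z⟩
      exact ⟨⟨y, x⟩, z⟩
    · rintro ⟨⟨x, y⟩, z⟩
      exact ⟨y, x, z⟩
  rw [hfin, Set.ncard_coe_finset]
  rcases le_or_gt X1 X with hle | hlt
  · have h3 := h X ((le_max_right _ _).trans hle)
    have h4 := hX0 X ((le_max_left _ _).trans hle)
    have h5 : (Real.log (Real.log X)) ^ 3 ≤ (Real.log X) ^ (1 - δ) := by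
      have h6 : 0 ≤ Real.log (Real.log X) := Real.log_nonneg hl
      calc (Real.log (Real.log X)) ^ 3 ≤ ((Real.log X) ^ ((1 - δ) / 3)) ^ 3 :=
            pow_le_pow_left₀ h6 h4 3
        _ = (Real.log X) ^ (1 - δ) := by
            rw [← Real.rpow_natCast, ← Real.rpow_mul (by linarith)]
            congr 1
            push_cast
            ring
    have h7 : (Real.log X) ^ (1 - δ) / Real.log X = (Real.log X) ^ (-δ) := by
      rw [div_eq_iff (by linarith)]
      nth_rewrite 3 [← Real.rpow_one (Real.log X)]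
      rw [← Real.rpow_add (by linarith)]
      congr 1
      ring
    calc (((Finset.Icc 1 X).filter (fun n : ℕ => ¬ Free (a ^ ((n : ℝ) ^ c)))).card : ℝ)
        ≤ C * X * Real.log (Real.log X) ^ 3 / Real.log X := h3
      _ ≤ C * X * (Real.log X) ^ (1 - δ) / Real.log X := by gcongr
      _ = C * X * (Real.log X) ^ (-δ) := by rw [mul_div_assoc, h7]
      _ ≤ (C + (Real.log X1) ^ δ + 1) * X * (Real.log X) ^ (-δ) := by
          gcongr
          linarith
  · have h3 : (((Finset.Icc 1 X).filter (fun n : ℕ => ¬ Free (a ^ ((n : ℝ) ^ c)))).card : ℝ) ≤ X := by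
      have := Finset.card_filter_le (Finset.Icc 1 X) (fun n : ℕ => ¬ Free (a ^ ((n : ℝ) ^ c)))
      rw [Nat.card_Icc, Nat.add_sub_cancel] at this
      exact_mod_cast this
    have h4 : (Real.log X) ^ δ ≤ (Real.log X1) ^ δ :=
      Real.rpow_le_rpow (by linarith) (Real.log_le_log (by linarith) (by exact_mod_cast hlt.le)) hδ0
    have h5 : (1 : ℝ) ≤ (Real.log X1) ^ δ * (Real.log X) ^ (-δ) := by
      have h6 : (Real.log X) ^ δ * (Real.log X) ^ (-δ) = 1 := by
        rw [← Real.rpow_add (by linarith), add_neg_cancel, Real.rpow_zero]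
      calc (1 : ℝ) = (Real.log X) ^ δ * (Real.log X) ^ (-δ) := h6.symm
        _ ≤ _ := mul_le_mul_of_nonneg_right h4 hp
    calc (((Finset.Icc 1 X).filter (fun n : ℕ => ¬ Free (a ^ ((n : ℝ) ^ c)))).card : ℝ) ≤ X := h3
      _ = X * 1 := (mul_one _).symm
      _ ≤ X * ((Real.log X1) ^ δ * (Real.log X) ^ (-δ)) := by gcongr
      _ = (Real.log X1) ^ δ * X * (Real.log X) ^ (-δ) := by ring
      _ ≤ (C + (Real.log X1) ^ δ + 1) * X * (Real.log X) ^ (-δ) := by
          gcongr
          linarith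

end Pool.Agent.V1118.TowMid
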