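import Mathlib

/-!
# The intermediate value theorem for polynomials over a real closed field
-/

set_option linter.unusedSectionVars false

namespace Pool.Agent.V1118.Rcf

open Polynomial IntermediateField

variable {K : Type*} [Field K] [LinearOrder K] [IsStrictOrderedRing K] [IsRealClosed K]

lemma exists_sqrt {x : K} (hx : 0 ≤ x) : ∃ r : K, 0 ≤ r ∧ r * r = x := by
  obtain ⟨r, hr⟩ := IsRealClosed.nonneg_iff_isSquare.1 hx
  exact ⟨|r|, abs_nonneg r, by rw [abs_mul_abs_self, hr]⟩

section quad

variable {L : Type*} [Field L] [Algebra K L] (i : L) (hi : i ^ 2 = -1)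

/-- The elements `x + y i`. -/
def KiSet : Set L := {α | ∃ x y : K, α = algebraMap K L x + algebraMap K L y * i}

include hi in
lemma norm_ne {x y : K} (h : algebraMap K L x + algebraMap K L y * i ≠ 0) : x ^ 2 + y ^ 2 ≠ 0 := by
  intro h0
  have hx : x = 0 := by
    have h1 : x ^ 2 = 0 := by
      have := sq_nonneg x
      have := sq_nonneg y
      linarith
    exact pow_eq_zero_iff two_ne_zero |>.1 h1
  have hy : y = 0 := by
    rw [hx] at h0
    simpa using h0
  apply h
  rw [hx, hy]
  simp

/-- The intermediate field `K(i)`. -/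
def Ki : IntermediateField K L where
  carrier := KiSet (K := K) i
  mul_mem' := by
    rintro _ _ ⟨a, b, rfl⟩ ⟨c, d, rfl⟩
    refine ⟨a * c - b * d, a * d + b * c, ?_⟩
    simp only [map_sub, map_mul, map_add]
    linear_combination (algebraMap K L b * algebraMap K L d) * hi
  one_mem' := ⟨1, 0, by simp⟩
  add_mem' := by
    rintro _ _ ⟨a, b, rfl⟩ ⟨c, d, rfl⟩
    refine ⟨a + c, b + d, ?_⟩
    simp only [map_add]
    ring
  zero_mem' := ⟨0, 0, by simp⟩
  algebraMap_mem' r := ⟨r, 0, by simp⟩
  inv_mem' := by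
    rintro _ ⟨a, b, rfl⟩
    by_cases h : algebraMap K L a + algebraMap K L b * i = 0
    · rw [h, inv_zero]
      exact ⟨0, 0, by simp⟩
    · have h1 := norm_ne i hi h
      refine ⟨a / (a ^ 2 + b ^ 2), -b / (a ^ 2 + b ^ 2), ?_⟩
      have h2 : (algebraMap K L (a ^ 2 + b ^ 2)) ≠ 0 := by
        rw [Ne, map_eq_zero_iff _ (algebraMap K L).injective]
        exact h1
      refine inv_eq_of_mul_eq_one_right ?_
      rw [map_div₀, map_div₀, map_neg]
      field_simp
      rw [map_add, map_pow, map_pow]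
      linear_combination (-(algebraMap K L b) ^ 2) * hi

lemma mem_Ki {α : L} : α ∈ Ki (K := K) i hi ↔ ∃ x y : K, α = algebraMap K L x + algebraMap K L y * i :=
  Iff.rfl

/-- Every element of `K(i)` is a square in `K(i)`. -/
lemma exists_sqrt_Ki {α : L} (hα : α ∈ Ki (K := K) i hi) : ∃ β ∈ Ki (K := K) i hi, β ^ 2 = α := by
  obtain ⟨x, y, rfl⟩ := hα
  obtain ⟨r, hr0, hr⟩ := exists_sqrt (add_nonneg (sq_nonneg x) (sq_nonneg y))
  have hxr : |x| ≤ r := by
    refine abs_le_of_sq_le_sq ?_ hr0
    nlinarith [sq_nonneg y]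
  rw [abs_le] at hxr
  obtain ⟨u, hu0, hu⟩ := exists_sqrt (show 0 ≤ (r + x) / 2 by linarith [hxr.1])
  obtain ⟨v, hv0, hv⟩ := exists_sqrt (show 0 ≤ (r - x) / 2 by linarith [hxr.2])
  have h1 : (2 * u * v) ^ 2 = y ^ 2 := by
    calc (2 * u * v) ^ 2 = 4 * (u * u) * (v * v) := by ring
      _ = r * r - x ^ 2 := by rw [hu, hv]; ring
      _ = y ^ 2 := by rw [hr]; ring
  have h2 : u * u - v * v = x := by rw [hu, hv]; ring
  have hi' : i ^ 2 = -1 := hi
  rcases sq_eq_sq_iff_eq_or_eq_neg.1 h1 with h | h
  · refine ⟨algebraMap K L u + algebraMap K L v * i, ⟨u, v, rfl⟩, ?_⟩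
    rw [← h2, ← h]
    simp only [map_sub, map_mul, map_ofNat]
    linear_combination (algebraMap K L v) ^ 2 * hi'
  · refine ⟨algebraMap K L u + algebraMap K L (-v) * i, ⟨u, -v, rfl⟩, ?_⟩
    have h3 : y = -(2 * u * v) := by rw [h]; ring
    rw [← h2, h3]
    simp only [map_sub, map_mul, map_ofNat, map_neg]
    linear_combination (algebraMap K L v) ^ 2 * hi'

end quad

section galois

variable {E : Type*} [Field E] [Algebra K E] [FiniteDimensional K E] [IsGalois K E]

lemma card_gal : ∃ m, Nat.card Gal(E/K) = 2 ^ m := by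
  obtain ⟨P⟩ : Nonempty (Sylow 2 Gal(E/K)) := inferInstance
  have h2 : Fact (Nat.Prime 2) := ⟨Nat.prime_two⟩
  obtain ⟨T, hT⟩ : ∃ T : IntermediateField K E, T = IntermediateField.fixedField
    (P : Subgroup Gal(E/K)) := ⟨_, rfl⟩
  have h3 : Module.finrank T E = Nat.card (P : Subgroup Gal(E/K)) := by
    rw [hT]
    exact IntermediateField.finrank_fixedField_eq_card _
  have h4 : Module.finrank K T * Module.finrank T E = Module.finrank K E :=
    Module.finrank_mul_finrank K T E
  have h5 := IsGalois.card_aut_eq_finrank K E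
  have h6 := (P : Subgroup Gal(E/K)).card_mul_index
  have hpos : 0 < Nat.card (P : Subgroup Gal(E/K)) := Nat.card_pos
  have h7 : Module.finrank K T = (P : Subgroup Gal(E/K)).index := by
    rw [h3, ← h5, ← h6, mul_comm] at h4
    exact Nat.eq_of_mul_eq_mul_left hpos h4
  have hodd : Odd (Module.finrank K T) := by
    rw [h7, ← Nat.not_even_iff_odd, even_iff_two_dvd]
    exact P.not_dvd_index
  have : FiniteDimensional K T := inferInstance
  obtain ⟨β, hβ⟩ := Field.exists_primitive_element K T
  have hint : IsIntegral K β := IsIntegral.of_finite K β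
  have h8 : (minpoly K β).natDegree = Module.finrank K T := by
    rw [← IntermediateField.adjoin.finrank hint, hβ]
    exact IntermediateField.finrank_top'
  rw [← h8] at hodd
  obtain ⟨r, hr⟩ := IsRealClosed.exists_isRoot_of_odd_natDegree hodd
  have h9 := Polynomial.degree_eq_one_of_irreducible_of_root (minpoly.irreducible hint) hr
  have h10 : (minpoly K β).natDegree = 1 := Polynomial.natDegree_eq_of_degree_eq_some h9
  rw [h8, h7] at h10
  obtain ⟨m, hm⟩ := IsPGroup.iff_card.1 P.isPGroup'
  refine ⟨m, ?_⟩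
  rw [← h6, h10, mul_one]
  exact hm

lemma Ki_eq_top (i : E) (hi : i ^ 2 = -1) (α : E) : α ∈ Ki (K := K) i hi := by
  obtain ⟨m, hm⟩ := card_gal (K := K) (E := E)
  obtain ⟨H, hH⟩ : ∃ H : Subgroup Gal(E/K), H = (Ki (K := K) i hi).fixingSubgroup := ⟨_, rfl⟩
  have hKi : IntermediateField.fixedField H = Ki (K := K) i hi := by
    rw [hH]
    exact IsGalois.fixedField_fixingSubgroup _
  have hdvd : Nat.card H ∣ 2 ^ m := by
    rw [← hm]
    exact Subgroup.card_subgroup_dvd_card H
  obtain ⟨s, _, hs⟩ := (Nat.dvd_prime_pow Nat.prime_two).1 hdvd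
  rcases Nat.eq_zero_or_pos s with h0 | h0
  · rw [h0, pow_zero] at hs
    have h1 : H = ⊥ := Subgroup.card_eq_one.1 hs
    rw [← hKi, h1, IntermediateField.fixedField_bot]
    exact IntermediateField.mem_top
  · exfalso
    obtain ⟨r, rfl⟩ : ∃ r, s = r + 1 := ⟨s - 1, by omega⟩
    have h2 : Fact (Nat.Prime 2) := ⟨Nat.prime_two⟩
    obtain ⟨H', hH'⟩ := Sylow.exists_subgroup_card_pow_prime (G := H) 2 (n := r) (by
      rw [hs]
      exact pow_dvd_pow 2 (Nat.le_succ r))
    have hidx : H'.index = 2 := by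
      have h3 := H'.card_mul_index
      rw [hH', hs, pow_succ] at h3
      exact Nat.eq_of_mul_eq_mul_left (by positivity) h3
    -- an element fixed by `H'` and not in `K(i)`
    obtain ⟨γ, hγ1, hγ2⟩ : ∃ γ : E, (∀ τ : H, τ ∈ H' → (τ : Gal(E/K)) γ = γ) ∧
        γ ∉ Ki (K := K) i hi := by
      by_contra hcon
      push Not at hcon
      have h4 : IntermediateField.fixedField (H'.map H.subtype) ≤ Ki (K := K) i hi := by
        intro γ hγ
        refine hcon γ fun τ hτ => ?_
        rw [IntermediateField.mem_fixedField_iff] at hγ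
        exact hγ τ ⟨τ, hτ, rfl⟩
      have h5 := IntermediateField.fixingSubgroup_le h4
      rw [IntermediateField.fixingSubgroup_fixedField, ← hH] at h5
      have h6 : H' = ⊤ := by
        rw [eq_top_iff]
        intro τ _
        obtain ⟨τ', hτ', h7⟩ := h5 τ.2
        have h8 : τ' = τ := Subtype.ext h7
        rw [← h8]
        exact hτ'
      rw [h6, Subgroup.index_top] at hidx
      omega
    obtain ⟨σ, hσ⟩ : ∃ σ : H, σ ∉ H' := by
      by_contra hcon
      push Not at hcon
      have h6 : H' = ⊤ := by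
        rw [eq_top_iff]
        intro τ _
        exact hcon τ
      rw [h6, Subgroup.index_top] at hidx
      omega
    have hout : ∀ τ : H, τ ∉ H' → (τ : Gal(E/K)) γ = (σ : Gal(E/K)) γ := by
      intro τ hτ
      have h7 : σ⁻¹ * τ ∈ H' := by
        rw [Subgroup.mul_mem_iff_of_index_two hidx, inv_mem_iff]
        exact iff_of_false hσ hτ
      have h8 := hγ1 _ h7
      have h9 : ((σ⁻¹ * τ : H) : Gal(E/K)) γ = ((σ : Gal(E/K))⁻¹) ((τ : Gal(E/K)) γ) := rfl
      rw [h9] at h8
      have h10 := congrArg (fun x => (σ : Gal(E/K)) x) h8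
      rw [← h10]
      change _ = ((σ : Gal(E/K)) * (σ : Gal(E/K))⁻¹) ((τ : Gal(E/K)) γ)
      rw [mul_inv_cancel]
      rfl
    obtain ⟨γ', hγ'⟩ : ∃ γ', γ' = (σ : Gal(E/K)) γ := ⟨_, rfl⟩
    have hin' : ∀ τ : H, τ ∈ H' → (τ : Gal(E/K)) γ' = γ' := by
      intro τ hτ
      have h7 : τ * σ ∉ H' := by
        rw [Subgroup.mul_mem_iff_of_index_two hidx]
        intro h
        exact hσ (h.1 hτ)
      have h8 := hout _ h7
      rw [hγ']
      exact h8
    have hout' : ∀ τ : H, τ ∉ H' → (τ : Gal(E/K)) γ' = γ := by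
      intro τ hτ
      have h7 : τ * σ ∈ H' := by
        rw [Subgroup.mul_mem_iff_of_index_two hidx]
        exact iff_of_false hτ hσ
      have h8 := hγ1 _ h7
      rw [hγ']
      exact h8
    have hsum : γ + γ' ∈ Ki (K := K) i hi := by
      rw [← hKi, IntermediateField.mem_fixedField_iff]
      intro τ hτ
      rw [map_add]
      by_cases h : (⟨τ, hτ⟩ : H) ∈ H'
      · rw [show τ γ = γ from hγ1 ⟨τ, hτ⟩ h, show τ γ' = γ' from hin' ⟨τ, hτ⟩ h]
      · rw [show τ γ = γ' by rw [hγ']; exact hout ⟨τ, hτ⟩ h, show τ γ' = γ from hout' ⟨τ, hτ⟩ h,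
          add_comm]
    have hprod : γ * γ' ∈ Ki (K := K) i hi := by
      rw [← hKi, IntermediateField.mem_fixedField_iff]
      intro τ hτ
      rw [map_mul]
      by_cases h : (⟨τ, hτ⟩ : H) ∈ H'
      · rw [show τ γ = γ from hγ1 ⟨τ, hτ⟩ h, show τ γ' = γ' from hin' ⟨τ, hτ⟩ h]
      · rw [show τ γ = γ' by rw [hγ']; exact hout ⟨τ, hτ⟩ h, show τ γ' = γ from hout' ⟨τ, hτ⟩ h,
          mul_comm]
    have h4 : (γ - γ') ^ 2 ∈ Ki (K := K) i hi := by
      have h5 : (γ - γ') ^ 2 = (γ + γ') ^ 2 - 4 * (γ * γ') := by ring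
      rw [h5]
      refine sub_mem (pow_mem hsum 2) (mul_mem ?_ hprod)
      exact ofNat_mem _ 4
    obtain ⟨δ, hδ, hδ2⟩ := exists_sqrt_Ki i hi h4
    have h5 : γ - γ' ∈ Ki (K := K) i hi := by
      rcases sq_eq_sq_iff_eq_or_eq_neg.1 hδ2 with h | h
      · rw [← h]
        exact hδ
      · rw [show γ - γ' = -δ by rw [h]; ring]
        exact neg_mem hδ
    apply hγ2
    have h6 : γ = ((γ + γ') + (γ - γ')) / 2 := by
      have : CharZero E := charZero_of_injective_algebraMap (algebraMap K E).injective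
      field_simp
      ring
    rw [h6]
    exact div_mem (add_mem hsum h5) (ofNat_mem _ 2)

end galois

/-- The roots of a polynomial in an algebraic closure lie in `K(i)`. -/
lemma exists_root_form (f : K[X]) (hf : Irreducible f) :
    ∃ (i : AlgebraicClosure K) (_ : i ^ 2 = -1) (x y : K),
      aeval (algebraMap K (AlgebraicClosure K) x + algebraMap K (AlgebraicClosure K) y * i) f = 0 := by
  obtain ⟨i, hi⟩ := IsAlgClosed.exists_pow_nat_eq (-1 : AlgebraicClosure K) (n := 2) (by norm_num)
  obtain ⟨α, hα⟩ := IsAlgClosed.exists_aeval_eq_zero (AlgebraicClosure K) f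
    (Polynomial.degree_pos_of_irreducible hf).ne'
  refine ⟨i, hi, ?_⟩
  let E := FiniteGaloisIntermediateField.adjoin K ({α, i} : Set (AlgebraicClosure K))
  have hsub : ({α, i} : Set (AlgebraicClosure K)) ⊆
      (E.toIntermediateField : Set (AlgebraicClosure K)) :=
    FiniteGaloisIntermediateField.subset_adjoin K _
  have hαE : α ∈ E.toIntermediateField := hsub (by simp)
  have hiE : i ∈ E.toIntermediateField := hsub (by simp)
  have hiE2 : (⟨i, hiE⟩ : E.toIntermediateField) ^ 2 = -1 := Subtype.ext (by simpa using hi)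
  obtain ⟨x, y, hxy⟩ := Ki_eq_top (K := K) (⟨i, hiE⟩ : E.toIntermediateField) hiE2 ⟨α, hαE⟩
  have h2 : α = algebraMap K (AlgebraicClosure K) x + algebraMap K (AlgebraicClosure K) y * i :=
    congrArg Subtype.val hxy
  exact ⟨x, y, by rw [← h2]; exact hα⟩

/-- An irreducible polynomial that changes sign has degree one and its root in between. -/
lemma ivt_irreducible (f : K[X]) (hf : Irreducible f) {a b : K} (hab : a < b)
    (h : f.eval a * f.eval b < 0) : ∃ c, a < c ∧ c < b ∧ f.eval c = 0 := by
  obtain ⟨i, hi, x, y, hxy⟩ := exists_root_form f hf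
  have hinj : Function.Injective (algebraMap K (AlgebraicClosure K)) :=
    (algebraMap K (AlgebraicClosure K)).injective
  by_cases hroot : ∃ c, f.IsRoot c
  · obtain ⟨c, hc⟩ := hroot
    have h1 := Polynomial.degree_eq_one_of_irreducible_of_root hf hc
    obtain ⟨u, v, hu, rfl⟩ : ∃ u v : K, u ≠ 0 ∧ f = C u * X + C v := by
      exact ⟨f.leadingCoeff, f.coeff 0, Polynomial.leadingCoeff_ne_zero.2 hf.ne_zero,
        Polynomial.eq_X_add_C_of_degree_eq_one h1⟩
    have h2 : u * c + v = 0 := by simpa using hc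
    have h3 : (u * a + v) * (u * b + v) < 0 := by simpa using h
    have h4 : v = -(u * c) := by linear_combination h2
    rw [h4] at h3
    have h5 : u ^ 2 * ((a - c) * (b - c)) < 0 := by
      calc u ^ 2 * ((a - c) * (b - c)) = (u * a + -(u * c)) * (u * b + -(u * c)) := by ring
        _ < 0 := h3
    have h6 : 0 < u ^ 2 := by positivity
    have h7 : (a - c) * (b - c) < 0 := by
      by_contra hcon
      have := mul_nonneg h6.le (not_lt.1 hcon)
      linarith
    refine ⟨c, ?_, ?_, hc⟩
    · by_contra hcon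
      have h8 : c ≤ a := not_lt.1 hcon
      have := mul_nonneg (sub_nonneg.2 h8) (sub_nonneg.2 (h8.trans hab.le))
      linarith
    · by_contra hcon
      have h8 : b ≤ c := not_lt.1 hcon
      have := mul_nonneg_of_nonpos_of_nonpos (sub_nonpos.2 (hab.le.trans h8)) (sub_nonpos.2 h8)
      linarith
  · exfalso
    have hy : y ≠ 0 := by
      rintro rfl
      apply hroot
      refine ⟨x, ?_⟩
      rw [map_zero, zero_mul, add_zero, Polynomial.aeval_algebraMap_apply] at hxy
      have h1 := hinj (hxy.trans (map_zero _).symm)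
      rwa [Polynomial.coe_aeval_eq_eval] at h1
    obtain ⟨q, hq⟩ : ∃ q : K[X], q = (X - C x) ^ 2 + C (y ^ 2) := ⟨_, rfl⟩
    have hq0 : aeval (algebraMap K (AlgebraicClosure K) x +
        algebraMap K (AlgebraicClosure K) y * i) q = 0 := by
      rw [hq]
      simp only [map_add, map_pow, map_sub, aeval_X, aeval_C]
      linear_combination (algebraMap K (AlgebraicClosure K) y) ^ 2 * hi
    have hdvd : f ∣ q := by
      have h1 := minpoly.dvd K _ hxy
      have h2 := minpoly.dvd K _ hq0
      have hint : IsIntegral K (algebraMap K (AlgebraicClosure K) x +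
        algebraMap K (AlgebraicClosure K) y * i) := Algebra.IsIntegral.isIntegral _
      have h3 : Associated (minpoly K (algebraMap K (AlgebraicClosure K) x +
        algebraMap K (AlgebraicClosure K) y * i)) f :=
        (minpoly.irreducible hint).associated_of_dvd hf h1
      exact h3.symm.dvd.trans h2
    obtain ⟨g, hg⟩ := hdvd
    have hqpos : ∀ z, 0 < q.eval z := by
      intro z
      rw [hq]
      simp only [eval_add, eval_pow, eval_sub, eval_X, eval_C]
      have := sq_nonneg (z - x)
      have : 0 < y ^ 2 := by positivity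
      linarith
    have hqdeg : q.natDegree = 2 := by
      rw [hq]
      compute_degree!
    have hf0 : f ≠ 0 := hf.ne_zero
    have hg0 : g ≠ 0 := by
      rintro rfl
      rw [mul_zero] at hg
      rw [hg] at hqdeg
      simp at hqdeg
    have hdeg : f.natDegree + g.natDegree = 2 := by
      rw [← Polynomial.natDegree_mul hf0 hg0, ← hg, hqdeg]
    have hfpos : 0 < f.natDegree := hf.natDegree_pos
    have hf1 : f.natDegree ≠ 1 := by
      intro h1
      apply hroot
      exact Polynomial.exists_root_of_degree_eq_one (by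
        rw [Polynomial.degree_eq_natDegree hf0, h1]
        rfl)
    have hgdeg : g.natDegree = 0 := by omega
    obtain ⟨c, hc⟩ : ∃ c, g = C c := ⟨_, Polynomial.eq_C_of_natDegree_eq_zero hgdeg⟩
    have h1 := hqpos a
    have h2 := hqpos b
    rw [hg, hc, eval_mul, eval_C] at h1 h2
    have h3 := mul_pos h1 h2
    have h4 : eval a f * c * (eval b f * c) = (eval a f * eval b f) * c ^ 2 := by ring
    rw [h4] at h3
    have h5 : (eval a f * eval b f) * c ^ 2 ≤ 0 :=
      mul_nonpos_of_nonpos_of_nonneg h.le (sq_nonneg c)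
    exact absurd h3 (not_lt.2 h5)

/-- **The intermediate value theorem** for polynomials over a real closed field. -/
theorem ivt (f : K[X]) {a b : K} (hab : a < b) (h : f.eval a * f.eval b < 0) :
    ∃ c, a < c ∧ c < b ∧ f.eval c = 0 := by
  revert h
  induction f using WfDvdMonoid.induction_on_irreducible with
  | zero =>
    intro h
    simp at h
  | unit u hu =>
    intro h
    obtain ⟨c, _, rfl⟩ := Polynomial.isUnit_iff.1 hu
    rw [eval_C, eval_C] at h
    exact absurd h (not_lt.2 (mul_self_nonneg c))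
  | mul f p hf hp ih =>
    intro h
    rw [eval_mul, eval_mul] at h
    by_cases h1 : p.eval a * p.eval b < 0
    · obtain ⟨c, h2, h3, h4⟩ := ivt_irreducible p hp hab h1
      exact ⟨c, h2, h3, by rw [eval_mul, h4, zero_mul]⟩
    · have h5 : f.eval a * f.eval b < 0 := by
        by_contra hcon
        have h6 := mul_nonneg (not_lt.1 h1) (not_lt.1 hcon)
        have h7 : eval a p * eval a f * (eval b p * eval b f) =
          eval a p * eval b p * (eval a f * eval b f) := by ring
        rw [h7] at h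
        exact absurd h (not_lt.2 h6)
      obtain ⟨c, h2, h3, h4⟩ := ih h5
      exact ⟨c, h2, h3, by rw [eval_mul, h4, mul_zero]⟩

end Pool.Agent.V1118.Rcf
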