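import Mathlib
import Pool.Agent.V1118.ADR
import Pool.Agent.Results.MP_d4e2f9_lc.AlmostAllDegrees

/-! Weak evasiveness for all but `x exp (-(log x) ^ (2/5))` of the numbers `n ≤ x` of variables and all
transitive groups of order at most `n exp ((log n) ^ (2/5))`. -/

set_option autoImplicit false

open Filter Topology

namespace Pool.Agent.V1118.ADW

open Pool.Agent.Results.MP_d4e2f9_lc.AlmostAllDegrees (DepthLe Trans)
open Pool.Agent.TH669.AD

/-- Every non-constant monotone function of `n` variables which is invariant under a transitive group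
of order at most `n exp ((log n) ^ (2/5))` has decision tree complexity at least `n ^ (1 - ε)`. -/
def Weak (ε : ℝ) (n : ℕ) : Prop :=
  ∀ G : Subgroup (Equiv.Perm (Fin n)), Trans G →
    (Nat.card G : ℝ) ≤ n * Real.exp ((Real.log n) ^ (2 / 5 : ℝ)) →
    ∀ f : (Fin n → Bool) → Bool, Monotone f → (∃ x y, f x ≠ f y) →
      (∀ σ ∈ G, ∀ x : Fin n → Bool, f (x ∘ σ) = f x) →
      ∀ k : ℕ, DepthLe k f → (n : ℝ) ^ (1 - ε) ≤ k

theorem weak_of_good {ε : ℝ} (hε : 0 < ε) {x n y S : ℕ} (hn : 1 ≤ n) (hnx : n ≤ x)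
    (hx : (x : ℝ) ≤ (n : ℝ) ^ 2) (hS : Real.exp ((Real.log x) ^ (2 / 5 : ℝ)) ≤ S) (hSy : S ≤ y)
    (hg : GoodDeg y S ((x : ℝ) ^ ε) n) : Weak ε n := by
  intro G htr hG f hf hne hinv k hk
  have hn0 : (0 : ℝ) < n := by exact_mod_cast hn
  have hn1 : (1 : ℝ) ≤ n := by exact_mod_cast hn
  have hnx' : (n : ℝ) ≤ x := by exact_mod_cast hnx
  have hx0 : (0 : ℝ) < x := lt_of_lt_of_le hn0 hnx'
  have hcard : Nat.card G ≤ S * n := by
    have h1 : Real.exp ((Real.log n) ^ (2 / 5 : ℝ)) ≤ S := by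
      refine le_trans (Real.exp_le_exp.2 ?_) hS
      exact Real.rpow_le_rpow (Real.log_nonneg hn1) (Real.log_le_log hn0 hnx') (by norm_num)
    have h2 : (Nat.card G : ℝ) ≤ (S : ℝ) * n := by
      refine hG.trans ?_
      rw [mul_comm]
      exact mul_le_mul_of_nonneg_right h1 hn0.le
    exact_mod_cast h2
  have h := good_bound (Real.rpow_nonneg hx0.le ε) hSy hg (by omega) G htr hcard f hf hne hinv
    (FS_dec hk)
  have h1 : (x : ℝ) ^ ε ≤ (n : ℝ) ^ (2 * ε) := by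
    calc (x : ℝ) ^ ε ≤ ((n : ℝ) ^ 2) ^ ε := Real.rpow_le_rpow hx0.le hx hε.le
      _ = (n : ℝ) ^ (2 * ε) := by
        rw [← Real.rpow_natCast, ← Real.rpow_mul hn0.le]
        norm_num
  have h2 : (n : ℝ) ^ 2 ≤ (n : ℝ) ^ (2 * ε) * (k : ℝ) ^ 2 :=
    h.trans (mul_le_mul_of_nonneg_right h1 (by positivity))
  have h3 : ((n : ℝ) ^ (1 - ε)) ^ 2 * (n : ℝ) ^ (2 * ε) = (n : ℝ) ^ 2 := by
    rw [← Real.rpow_natCast, ← Real.rpow_natCast, ← Real.rpow_mul hn0.le, ← Real.rpow_add hn0]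
    congr 1
    push_cast
    ring
  have h4 : ((n : ℝ) ^ (1 - ε)) ^ 2 ≤ (k : ℝ) ^ 2 := by
    have h5 : 0 < (n : ℝ) ^ (2 * ε) := Real.rpow_pos_of_pos hn0 _
    rw [← h3, mul_comm ((n : ℝ) ^ (2 * ε))] at h2
    exact le_of_mul_le_mul_right h2 h5
  exact (sq_le_sq₀ (Real.rpow_nonneg hn0.le _) (Nat.cast_nonneg k)).1 h4

theorem exp_cubic (t : ℝ) (ht : 0 ≤ t) : t ^ 3 / 6 ≤ Real.exp t := by
  have := Real.pow_div_factorial_le_exp t ht 3
  simpa [Nat.factorial] using this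

theorem few (ε : ℝ) (hε : 0 < ε) : ∃ x0 : ℕ, ∀ x : ℕ, x0 ≤ x →
    ({n : ℕ | 1 ≤ n ∧ n ≤ x ∧ ¬ Weak ε n}.ncard : ℝ) ≤
      x * Real.exp (-(Real.log x) ^ (2 / 5 : ℝ)) := by
  have ht : Tendsto (fun x : ℕ => (Real.log (x : ℝ)) ^ (1 / 20 : ℝ)) atTop atTop :=
    (tendsto_rpow_atTop (by norm_num)).comp (Real.tendsto_log_atTop.comp tendsto_natCast_atTop_atTop)
  obtain ⟨x1, hx1⟩ := (ht.eventually_ge_atTop (max 5 (34 / ε))).exists_forall_of_atTop
  refine ⟨max x1 3, fun x hx => ?_⟩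
  have hx3 : (3 : ℝ) ≤ x := by exact_mod_cast (le_max_right _ _).trans hx
  have hx0 : (0 : ℝ) < x := by linarith
  have hlog0 : 0 ≤ Real.log x := Real.log_nonneg (by linarith)
  set u : ℝ := (Real.log (x : ℝ)) ^ (1 / 20 : ℝ) with hu
  have hu1 : max 5 (34 / ε) ≤ u := hx1 x ((le_max_left _ _).trans hx)
  have hu5 : 5 ≤ u := (le_max_left _ _).trans hu1
  have hu0 : 0 < u := by linarith
  have hεu : 34 ≤ ε * u := by
    have h1 := (le_max_right _ _).trans hu1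
    rw [div_le_iff₀ hε] at h1
    linarith
  have hL : Real.log x = u ^ 20 := by
    rw [hu, ← Real.rpow_natCast, ← Real.rpow_mul hlog0]
    norm_num
  have h8 : (Real.log x) ^ (2 / 5 : ℝ) = u ^ 8 := by
    rw [hu, ← Real.rpow_natCast, ← Real.rpow_mul hlog0]
    norm_num
  have hxe : (x : ℝ) = Real.exp (u ^ 20) := by rw [← hL, Real.exp_log hx0]
  have hu8 : 390625 ≤ u ^ 8 := by
    calc (390625 : ℝ) = 5 ^ 8 := by norm_num
      _ ≤ u ^ 8 := pow_le_pow_left₀ (by norm_num) hu5 8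
  have hu9 : 5 * u ^ 8 ≤ u ^ 9 := by
    have : u ^ 9 = u * u ^ 8 := by ring
    rw [this]
    exact mul_le_mul_of_nonneg_right hu5 (by positivity)
  have e1 : Real.exp 1 < 2.7182818286 := Real.exp_one_lt_d9
  have e1' : 2.7182818283 < Real.exp 1 := Real.exp_one_gt_d9
  have e2 : 4 ≤ Real.exp 2 := by
    have : Real.exp 2 = Real.exp 1 * Real.exp 1 := by rw [← Real.exp_add]; norm_num
    rw [this]
    nlinarith
  have e2' : Real.exp 2 ≤ 8 := by
    have : Real.exp 2 = Real.exp 1 * Real.exp 1 := by rw [← Real.exp_add]; norm_num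
    rw [this]
    nlinarith
  have e4 : 16 ≤ Real.exp 4 := by
    have : Real.exp 4 = Real.exp 2 * Real.exp 2 := by rw [← Real.exp_add]; norm_num
    rw [this]
    nlinarith
  set S : ℕ := ⌈Real.exp (u ^ 8)⌉₊ with hS
  set y : ℕ := ⌈Real.exp (u ^ 9)⌉₊ with hy
  have hS1 : Real.exp (u ^ 8) ≤ S := Nat.le_ceil _
  have hy1 : Real.exp (u ^ 9) ≤ y := Nat.le_ceil _
  have hSe : 1 ≤ Real.exp (u ^ 8) := Real.one_le_exp (by positivity)
  have hye : 1 ≤ Real.exp (u ^ 9) := Real.one_le_exp (by positivity)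
  have hS2 : (S : ℝ) ≤ 2 * Real.exp (u ^ 8) := by
    have := Nat.ceil_lt_add_one (Real.exp_pos (u ^ 8)).le
    linarith
  have hy2 : (y : ℝ) ≤ Real.exp (u ^ 9 + 1) := by
    have := Nat.ceil_lt_add_one (Real.exp_pos (u ^ 9)).le
    rw [Real.exp_add]
    nlinarith
  have hS3 : (S : ℝ) ≤ Real.exp (u ^ 8 + 1) := by
    rw [Real.exp_add]
    nlinarith
  have hS0 : 0 < S := by
    have : (0 : ℝ) < S := by linarith
    exact_mod_cast this
  have hy0 : (0 : ℝ) < y := by linarith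
  have hyn : 1 ≤ y := by
    have : 0 < y := by exact_mod_cast hy0
    omega
  have hSy : S ≤ y := Nat.ceil_le_ceil (Real.exp_le_exp.2 (by linarith))
  have hU : 1 < (x : ℝ) ^ ε := Real.one_lt_rpow (by linarith) hε
  have hκ0 : 0 ≤ 1 / u ^ 9 := by positivity
  have hκ1 : 1 / u ^ 9 ≤ 1 / 2 := one_div_le_one_div_of_le (by norm_num) (by linarith)
  have hmain := Pool.Agent.V1118.ADR.few_bad_rankin x y S ((x : ℝ) ^ ε) (1 / u ^ 9) hyn hS0 hU hκ0 hκ1
  set e : ℝ := Real.exp (-u ^ 8) with he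
  -- the four terms
  have T1 : (x : ℝ) / y ≤ x * (e / 4) := by
    rw [div_eq_mul_inv]
    apply mul_le_mul_of_nonneg_left _ hx0.le
    have h1 : (y : ℝ)⁻¹ ≤ Real.exp (-u ^ 9) := by
      rw [Real.exp_neg]
      exact inv_anti₀ (Real.exp_pos _) hy1
    have h2 : Real.exp 2 * Real.exp (-u ^ 9) ≤ e := by
      rw [← Real.exp_add, he]
      exact Real.exp_le_exp.2 (by linarith)
    have h3 : 4 * Real.exp (-u ^ 9) ≤ Real.exp 2 * Real.exp (-u ^ 9) :=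
      mul_le_mul_of_nonneg_right e2 (Real.exp_pos _).le
    linarith
  have T2 : (x : ℝ) * (S : ℝ) ^ 2 * (1 + Real.log (x * S)) / y ≤ x * (e / 4) := by
    have hSr : (0 : ℝ) < S := by exact_mod_cast hS0
    have h1 : Real.log (x * S) ≤ u ^ 20 + (u ^ 8 + 1) := by
      rw [Real.log_mul hx0.ne' hSr.ne', hL]
      have : Real.log S ≤ u ^ 8 + 1 := by
        rw [← Real.log_exp (u ^ 8 + 1)]
        exact Real.log_le_log hSr hS3
      linarith
    have h2 : 1 + Real.log (x * S) ≤ Real.exp (u ^ 8) := by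
      have h3 := exp_cubic (u ^ 8) (by positivity)
      have h4 : (u ^ 8) ^ 3 = u ^ 4 * u ^ 20 := by ring
      have h5 : 625 ≤ u ^ 4 := by
        calc (625 : ℝ) = 5 ^ 4 := by norm_num
          _ ≤ u ^ 4 := pow_le_pow_left₀ (by norm_num) hu5 4
      have h6 : u ^ 8 ≤ u ^ 20 := pow_le_pow_right₀ (by linarith) (by norm_num)
      have h7 : 625 * u ^ 20 ≤ u ^ 4 * u ^ 20 := mul_le_mul_of_nonneg_right h5 (by positivity)
      rw [h4] at h3
      linarith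
    have h3 : (S : ℝ) ^ 2 ≤ 4 * Real.exp (2 * u ^ 8) := by
      calc (S : ℝ) ^ 2 ≤ (2 * Real.exp (u ^ 8)) ^ 2 := pow_le_pow_left₀ hSr.le hS2 2
        _ = 4 * Real.exp (2 * u ^ 8) := by
          rw [mul_pow, ← Real.exp_nat_mul]
          norm_num
    have h4 : (y : ℝ)⁻¹ ≤ Real.exp (-u ^ 9) := by
      rw [Real.exp_neg]
      exact inv_anti₀ (Real.exp_pos _) hy1
    have hl0 : 0 ≤ 1 + Real.log (x * S) := by
      have : 0 ≤ Real.log (x * S) := Real.log_nonneg (by nlinarith)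
      linarith
    have h5 : 16 * (Real.exp (2 * u ^ 8) * Real.exp (u ^ 8) * Real.exp (-u ^ 9)) ≤ e := by
      have h6 : Real.exp 4 * (Real.exp (2 * u ^ 8) * Real.exp (u ^ 8) * Real.exp (-u ^ 9)) ≤ e := by
        rw [← Real.exp_add, ← Real.exp_add, ← Real.exp_add, he]
        exact Real.exp_le_exp.2 (by linarith)
      refine le_trans ?_ h6
      exact mul_le_mul_of_nonneg_right e4 (by positivity)
    calc (x : ℝ) * (S : ℝ) ^ 2 * (1 + Real.log (x * S)) / y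
        = x * ((S : ℝ) ^ 2 * (1 + Real.log (x * S)) * (y : ℝ)⁻¹) := by
          rw [div_eq_mul_inv]
          ring
      _ ≤ x * (4 * Real.exp (2 * u ^ 8) * Real.exp (u ^ 8) * Real.exp (-u ^ 9)) := by
          gcongr
      _ ≤ x * (e / 4) := by
          apply mul_le_mul_of_nonneg_left _ hx0.le
          linarith
  have T3 : (x : ℝ) * (((x : ℝ) ^ ε) ^ (-(1 / u ^ 9)) *
      Real.exp (4 * ((y : ℝ) ^ (1 / u ^ 9) * (1 + Real.log y)))) ≤ x * (e / 4) := by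
    apply mul_le_mul_of_nonneg_left _ hx0.le
    have h1 : ((x : ℝ) ^ ε) ^ (-(1 / u ^ 9)) = Real.exp (-(ε * u ^ 11)) := by
      rw [← Real.rpow_mul hx0.le, Real.rpow_def_of_pos hx0, hL]
      congr 1
      field_simp
    have h2 : (y : ℝ) ^ (1 / u ^ 9) ≤ 8 := by
      calc (y : ℝ) ^ (1 / u ^ 9) ≤ (Real.exp (u ^ 9 + 1)) ^ (1 / u ^ 9) :=
            Real.rpow_le_rpow hy0.le hy2 hκ0
        _ = Real.exp ((u ^ 9 + 1) * (1 / u ^ 9)) := by rw [← Real.exp_mul]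
        _ ≤ Real.exp 2 := by
            apply Real.exp_le_exp.2
            have h3 : (u ^ 9 + 1) * (1 / u ^ 9) = 1 + 1 / u ^ 9 := by field_simp
            rw [h3]
            linarith
        _ ≤ 8 := e2'
    have h3 : Real.log y ≤ u ^ 9 + 1 := by
      rw [← Real.log_exp (u ^ 9 + 1)]
      exact Real.log_le_log hy0 hy2
    have h3' : 0 ≤ Real.log y := Real.log_natCast_nonneg y
    have h4 : 4 * ((y : ℝ) ^ (1 / u ^ 9) * (1 + Real.log y)) ≤ 64 + 32 * u ^ 9 := by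
      have h5 : (y : ℝ) ^ (1 / u ^ 9) * (1 + Real.log y) ≤ 8 * (2 + u ^ 9) := by
        apply mul_le_mul h2 (by linarith) (by linarith) (by norm_num)
      linarith
    have h5 : 34 * u ^ 9 ≤ ε * u ^ 11 := by
      have h6 : ε * u ^ 11 = (ε * u) * u * u ^ 9 := by ring
      rw [h6]
      apply mul_le_mul_of_nonneg_right _ (by positivity)
      nlinarith
    have h6 : Real.exp 2 * (Real.exp (-(ε * u ^ 11)) * Real.exp (64 + 32 * u ^ 9)) ≤ e := by
      rw [← Real.exp_add, ← Real.exp_add, he]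
      apply Real.exp_le_exp.2
      linarith
    rw [h1]
    have h7 : Real.exp (-(ε * u ^ 11)) * Real.exp (4 * ((y : ℝ) ^ (1 / u ^ 9) * (1 + Real.log y))) ≤
        Real.exp (-(ε * u ^ 11)) * Real.exp (64 + 32 * u ^ 9) :=
      mul_le_mul_of_nonneg_left (Real.exp_le_exp.2 h4) (Real.exp_pos _).le
    have h8' : 4 * (Real.exp (-(ε * u ^ 11)) * Real.exp (64 + 32 * u ^ 9)) ≤
        Real.exp 2 * (Real.exp (-(ε * u ^ 11)) * Real.exp (64 + 32 * u ^ 9)) :=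
      mul_le_mul_of_nonneg_right e2 (by positivity)
    linarith
  have T4 : √(x : ℝ) ≤ x * (e / 4) := by
    have h1 : √(x : ℝ) = Real.exp (u ^ 20 / 2) := by
      rw [hxe, Real.sqrt_eq_iff_eq_sq (Real.exp_pos _).le (Real.exp_pos _).le, ← Real.exp_nat_mul]
      congr 1
      push_cast
      ring
    have h2 : u ^ 20 = u ^ 12 * u ^ 8 := by ring
    have h3 : 4 ≤ u ^ 12 := by
      calc (4 : ℝ) ≤ 5 ^ 12 := by norm_num
        _ ≤ u ^ 12 := pow_le_pow_left₀ (by norm_num) hu5 12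
    have h4 : 4 * u ^ 8 ≤ u ^ 20 := by
      rw [h2]
      exact mul_le_mul_of_nonneg_right h3 (by positivity)
    have h5 : Real.exp 2 * Real.exp (u ^ 20 / 2) ≤ x * e := by
      rw [hxe, he, ← Real.exp_add, ← Real.exp_add]
      apply Real.exp_le_exp.2
      linarith
    have h6 : 4 * Real.exp (u ^ 20 / 2) ≤ Real.exp 2 * Real.exp (u ^ 20 / 2) :=
      mul_le_mul_of_nonneg_right e2 (Real.exp_pos _).le
    rw [h1]
    linarith
  -- the exceptions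
  have hsub : {n : ℕ | 1 ≤ n ∧ n ≤ x ∧ ¬ Weak ε n} ⊆
      (Set.Icc 1 ⌊√(x : ℝ)⌋₊) ∪ {n : ℕ | 1 ≤ n ∧ n ≤ x ∧ ¬ GoodDeg y S ((x : ℝ) ^ ε) n} := by
    rintro n ⟨hn1, hnx, hw⟩
    by_cases hsq : (x : ℝ) ≤ (n : ℝ) ^ 2
    · right
      refine ⟨hn1, hnx, fun hg => hw (weak_of_good hε hn1 hnx hsq ?_ hSy hg)⟩
      rw [h8]
      exact hS1
    · left
      refine ⟨hn1, ?_⟩
      apply Nat.le_floor
      rw [not_le] at hsq
      exact Real.le_sqrt_of_sq_le hsq.le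
  have hfin : {n : ℕ | 1 ≤ n ∧ n ≤ x ∧ ¬ GoodDeg y S ((x : ℝ) ^ ε) n}.Finite :=
    (Set.finite_Icc 1 x).subset fun n hn => ⟨hn.1, hn.2.1⟩
  have h1 : {n : ℕ | 1 ≤ n ∧ n ≤ x ∧ ¬ Weak ε n}.ncard ≤ ⌊√(x : ℝ)⌋₊ +
      {n : ℕ | 1 ≤ n ∧ n ≤ x ∧ ¬ GoodDeg y S ((x : ℝ) ^ ε) n}.ncard := by
    refine (Set.ncard_le_ncard hsub ((Set.finite_Icc _ _).union hfin)).trans
      ((Set.ncard_union_le _ _).trans ?_)
    apply Nat.add_le_add_right
    have : (Set.Icc 1 ⌊√(x : ℝ)⌋₊ : Set ℕ) = ((Finset.Icc 1 ⌊√(x : ℝ)⌋₊ : Finset ℕ) : Set ℕ) := by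
      rw [Finset.coe_Icc]
    rw [this, Set.ncard_coe_finset, Nat.card_Icc]
    omega
  have h2 : ((⌊√(x : ℝ)⌋₊ : ℕ) : ℝ) ≤ √(x : ℝ) := Nat.floor_le (Real.sqrt_nonneg _)
  have h3 : ({n : ℕ | 1 ≤ n ∧ n ≤ x ∧ ¬ Weak ε n}.ncard : ℝ) ≤ ((⌊√(x : ℝ)⌋₊ : ℕ) : ℝ) +
      ({n : ℕ | 1 ≤ n ∧ n ≤ x ∧ ¬ GoodDeg y S ((x : ℝ) ^ ε) n}.ncard : ℝ) := by exact_mod_cast h1
  rw [h8]
  have h4 : (x : ℝ) * (e / 4) + x * (e / 4) + x * (e / 4) + x * (e / 4) = x * e := by ring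
  linarith

end Pool.Agent.V1118.ADW
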