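import Mathlib

set_option autoImplicit false

namespace Pool.Agent.V1118.QmDefect

variable {G : Type*} [Group G]

/-- `φ` is a homogeneous quasimorphism with all defects at most `D`. -/
structure HQ (φ : G → ℝ) (D : ℝ) : Prop where
  qm : ∀ g h : G, |φ (g * h) - φ g - φ h| ≤ D
  hom : ∀ (g : G) (n : ℕ), φ (g ^ n) = (n : ℝ) * φ g

namespace HQ

variable {φ : G → ℝ} {D : ℝ}

lemma D_nonneg (H : HQ φ D) : 0 ≤ D := le_trans (abs_nonneg _) (H.qm 1 1)

lemma one (H : HQ φ D) : φ 1 = 0 := by
  have := H.hom 1 0
  simpa using this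

lemma eq_zero_of_forall_mul_le {r D : ℝ} (h : ∀ n : ℕ, (n : ℝ) * |r| ≤ D) : r = 0 := by
  by_contra hne
  have hpos : 0 < |r| := abs_pos.mpr hne
  obtain ⟨n, hn⟩ := exists_nat_gt (D / |r|)
  have := h n
  rw [div_lt_iff₀ hpos] at hn
  linarith

lemma inv (H : HQ φ D) (g : G) : φ g⁻¹ = - φ g := by
  have key : ∀ n : ℕ, (n : ℝ) * |φ g + φ g⁻¹| ≤ D := by
    intro n
    have h1 := H.qm (g ^ n) (g⁻¹ ^ n)
    rw [inv_pow, mul_inv_cancel, H.one, ← inv_pow, H.hom, H.hom] at h1
    have h2 : |(0:ℝ) - n * φ g - n * φ g⁻¹| = (n : ℝ) * |φ g + φ g⁻¹| := by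
      rw [show (0:ℝ) - n * φ g - n * φ g⁻¹ = -(n * (φ g + φ g⁻¹)) by ring, abs_neg, abs_mul,
        Nat.abs_cast]
    rw [h2] at h1
    exact h1
  have := eq_zero_of_forall_mul_le key
  linarith

lemma conj (H : HQ φ D) (h g : G) : φ (h * g * h⁻¹) = φ g := by
  have key : ∀ n : ℕ, (n : ℝ) * |φ (h * g * h⁻¹) - φ g| ≤ 2 * D := by
    intro n
    have h1 := H.qm (h * g ^ n) h⁻¹
    have h2 := H.qm h (g ^ n)
    have h3 : φ (h * g ^ n * h⁻¹) = n * φ (h * g * h⁻¹) := by
      rw [← H.hom, conj_pow]
    rw [h3, H.inv] at h1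
    rw [H.hom] at h2
    have h4 : (n : ℝ) * |φ (h * g * h⁻¹) - φ g| = |(n * φ (h * g * h⁻¹) - n * φ g)| := by
      rw [← mul_sub, abs_mul, Nat.abs_cast]
    rw [h4]
    have h5 := abs_add_le (n * φ (h * g * h⁻¹) - φ (h * g ^ n) - -φ h) (φ (h * g ^ n) - φ h - n * φ g)
    have h6 : (n * φ (h * g * h⁻¹) - φ (h * g ^ n) - -φ h) + (φ (h * g ^ n) - φ h - n * φ g)
      = n * φ (h * g * h⁻¹) - n * φ g := by ring
    rw [h6] at h5
    linarith
  have := eq_zero_of_forall_mul_le key
  linarith

lemma comm (H : HQ φ D) (x z : G) : |φ (x * z * x⁻¹ * z⁻¹)| ≤ D := by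
  have h1 := H.qm (x * z * x⁻¹) z⁻¹
  rw [H.conj, H.inv] at h1
  have : φ (x * z * x⁻¹ * z⁻¹) - φ z - -φ z = φ (x * z * x⁻¹ * z⁻¹) := by ring
  rwa [this] at h1

lemma list_bound (H : HQ φ D) : ∀ (l : List G), l ≠ [] →
    |φ l.prod - (l.map φ).sum| ≤ D * ((l.length : ℝ) - 1) := by
  intro l
  induction l with
  | nil => intro h; exact absurd rfl h
  | cons a t ih =>
    intro _
    by_cases ht : t = []
    · subst ht
      simp
    · have h1 := ih ht
      have h2 := H.qm a t.prod
      simp only [List.prod_cons, List.map_cons, List.sum_cons, List.length_cons, Nat.cast_add,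
        Nat.cast_one]
      have h3 := abs_add_le (φ (a * t.prod) - φ a - φ t.prod) (φ t.prod - (t.map φ).sum)
      have h4 : (φ (a * t.prod) - φ a - φ t.prod) + (φ t.prod - (t.map φ).sum)
        = φ (a * t.prod) - (φ a + (t.map φ).sum) := by ring
      rw [h4] at h3
      linarith

end HQ

section Split

variable {α : Type*} [DecidableEq α]

lemma refine2 (u v A R : Multiset α) (h : u + v = A + R) :
    ∃ A1 A2 R1 R2 : Multiset α, A1 + A2 = A ∧ R1 + R2 = R ∧ u = A1 + R1 ∧ v = A2 + R2 := by
  have hc : ∀ a, u.count a + v.count a = A.count a + R.count a := by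
    intro a
    have := congrArg (Multiset.count a) h
    simpa using this
  refine ⟨A ∩ u, A - (A ∩ u), u - (A ∩ u), v - (A - (A ∩ u)), ?_, ?_, ?_, ?_⟩
  · ext a
    simp only [Multiset.count_add, Multiset.count_sub, Multiset.count_inter]
    have := hc a
    omega
  · ext a
    simp only [Multiset.count_add, Multiset.count_sub, Multiset.count_inter]
    have := hc a
    omega
  · ext a
    simp only [Multiset.count_add, Multiset.count_sub, Multiset.count_inter]
    have := hc a
    omega
  · ext a
    simp only [Multiset.count_add, Multiset.count_sub, Multiset.count_inter]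
    have := hc a
    omega

end Split

/-- inverse multiset -/
def minv (X : Multiset G) : Multiset G := X.map (fun x => x⁻¹)

@[simp] lemma minv_minv (X : Multiset G) : minv (minv X) = X := by
  simp [minv, Multiset.map_map]

@[simp] lemma minv_add (X Y : Multiset G) : minv (X + Y) = minv X + minv Y := by
  simp [minv]

@[simp] lemma minv_cons (x : G) (X : Multiset G) : minv (x ::ₘ X) = x⁻¹ ::ₘ minv X := by
  simp [minv]

@[simp] lemma card_minv (X : Multiset G) : Multiset.card (minv X) = Multiset.card X := by
  simp [minv]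

lemma mem_minv {X : Multiset G} {z : G} (h : z ∈ minv X) : z⁻¹ ∈ X := by
  simp only [minv, Multiset.mem_map] at h
  obtain ⟨y, hy, rfl⟩ := h
  simpa using hy

open Classical in
lemma pair_split (U V X Y : Multiset G) (h : U + V = X + minv X + Y) :
    (∃ X1 X2 Y1 Y2 : Multiset G, X1 + X2 = X ∧ Y1 + Y2 = Y ∧ U = X1 + minv X1 + Y1 ∧
      V = X2 + minv X2 + Y2) ∨
    (∃ (z : G) (X' : Multiset G), z ∈ U ∧ z⁻¹ ∈ V ∧ Multiset.card X' + 1 = Multiset.card X ∧
      X + minv X = z ::ₘ z⁻¹ ::ₘ (X' + minv X')) := by
  rw [add_assoc] at h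
  obtain ⟨A1, A2, R1, R2, hA, hR, hU, hV⟩ := refine2 U V X (minv X + Y) h
  obtain ⟨B1, B2, C1, C2, hB, hC, hR1, hR2⟩ := refine2 R1 R2 (minv X) Y hR
  have hB' : minv B1 + minv B2 = X := by
    rw [← minv_add, hB, minv_minv]
  by_cases hE : A1 = minv B1
  · left
    have hE2 : A2 = minv B2 := by
      have : A1 + A2 = A1 + minv B2 := by rw [hA, hE, hB']
      exact add_left_cancel this
    refine ⟨A1, A2, C1, C2, hA, hC, ?_, ?_⟩
    · rw [hU, hR1, hE, minv_minv, add_assoc]
    · rw [hV, hR2, hE2, minv_minv, add_assoc]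
  · right
    have : ∃ z, Multiset.count z A1 ≠ Multiset.count z (minv B1) := by
      by_contra hne
      push Not at hne
      exact hE (Multiset.ext.mpr hne)
    obtain ⟨z, hz⟩ := this
    have hcount : Multiset.count z A1 + Multiset.count z A2
        = Multiset.count z (minv B1) + Multiset.count z (minv B2) := by
      have := congrArg (Multiset.count z) (hA.trans hB'.symm)
      simpa using this
    rcases lt_or_gt_of_ne hz with hlt | hgt
    · -- z ∈ minv B1, z ∈ A2
      have hz1 : z ∈ minv B1 := Multiset.count_pos.mp (by omega)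
      have hz2 : z ∈ A2 := Multiset.count_pos.mp (by omega)
      have hzX : z ∈ X := by rw [← hA]; exact Multiset.mem_add.mpr (Or.inr hz2)
      obtain ⟨X', hX'⟩ := Multiset.exists_cons_of_mem hzX
      refine ⟨z⁻¹, X', ?_, ?_, ?_, ?_⟩
      · rw [hU, hR1]
        exact Multiset.mem_add.mpr (Or.inr (Multiset.mem_add.mpr (Or.inl (mem_minv hz1))))
      · rw [inv_inv, hV]
        exact Multiset.mem_add.mpr (Or.inl hz2)
      · rw [hX']; simp
      · rw [hX', minv_cons, inv_inv, Multiset.cons_add, Multiset.add_cons, Multiset.cons_swap]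
    · have hz1 : z ∈ A1 := Multiset.count_pos.mp (by omega)
      have hz2 : z ∈ minv B2 := Multiset.count_pos.mp (by omega)
      have hzX : z ∈ X := by rw [← hA]; exact Multiset.mem_add.mpr (Or.inl hz1)
      obtain ⟨X', hX'⟩ := Multiset.exists_cons_of_mem hzX
      refine ⟨z, X', ?_, ?_, ?_, ?_⟩
      · rw [hU]
        exact Multiset.mem_add.mpr (Or.inl hz1)
      · rw [hV, hR2]
        exact Multiset.mem_add.mpr (Or.inr (Multiset.mem_add.mpr (Or.inl (mem_minv hz2))))
      · rw [hX']; simp
      · rw [hX', minv_cons, Multiset.cons_add, Multiset.add_cons]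


omit [Group G] in
lemma sum_map_add (φ : G → ℝ) (X Y : Multiset G) :
    ((X + Y).map φ).sum = (X.map φ).sum + (Y.map φ).sum := by
  simp

theorem single_word {φ : G → ℝ} {D : ℝ} (H : HQ φ D) : ∀ (p : ℕ) (w : List G) (X Y : Multiset G),
    Multiset.card X = p → w.prod = 1 → (w : Multiset G) = X + minv X + Y → Y ≠ 0 →
    |(Y.map φ).sum| ≤ D * ((p : ℝ) + (Multiset.card Y : ℝ) - 1) := by
  classical
  intro p
  induction p using Nat.strong_induction_on with
  | _ p IH =>
  intro w X Y hcard hprod hw hY
  rcases Nat.eq_zero_or_pos p with hp | hp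
  · -- no pairs
    subst hp
    have hX : X = 0 := Multiset.card_eq_zero.mp hcard
    subst hX
    have hw' : (w : Multiset G) = Y := by simpa [minv] using hw
    have hne : w ≠ [] := by
      rintro rfl
      exact hY (by rw [← hw']; rfl)
    have h1 := H.list_bound w hne
    rw [hprod, H.one, zero_sub, abs_neg] at h1
    have h2 : (Y.map φ).sum = (w.map φ).sum := by
      rw [← hw']; simp
    have h3 : (Multiset.card Y : ℝ) = w.length := by
      rw [← hw']; simp
    rw [h2, h3]
    simpa using h1
  · obtain ⟨x, hx⟩ := Multiset.card_pos_iff_exists_mem.mp (hcard ▸ hp)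
    obtain ⟨X', rfl⟩ := Multiset.exists_cons_of_mem hx
    have hcard' : Multiset.card X' + 1 = p := by simpa using hcard
    have hxw : x ∈ w := by
      have : x ∈ (w : Multiset G) := by
        rw [hw]
        simp
      simpa using this
    obtain ⟨l1, l2, rfl⟩ := List.append_of_mem hxw
    -- the rest
    have ht : ((l2 ++ l1 : List G) : Multiset G) = x⁻¹ ::ₘ (X' + minv X' + Y) := by
      have h1 : ((l1 ++ x :: l2 : List G) : Multiset G) = x ::ₘ ((l2 ++ l1 : List G) : Multiset G) := by
        rw [Multiset.cons_coe]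
        exact Multiset.coe_eq_coe.mpr (by
          have : (l1 ++ x :: l2).Perm (x :: (l1 ++ l2)) := List.perm_middle
          exact this.trans ((List.perm_append_comm).cons x))
      have h2 : x ::ₘ ((l2 ++ l1 : List G) : Multiset G) = x ::ₘ (x⁻¹ ::ₘ (X' + minv X' + Y)) := by
        rw [← h1, hw, minv_cons]
        simp only [Multiset.cons_add, Multiset.add_cons]
        rw [Multiset.cons_swap]
      exact (Multiset.cons_inj_right x).mp h2
    have hcyc : x * (l2 ++ l1).prod = 1 := by
      have h1 : l1.prod * (x * l2.prod) = 1 := by simpa using hprod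
      rw [List.prod_append, ← mul_assoc]
      have h2 : l1.prod = (x * l2.prod)⁻¹ := eq_inv_of_mul_eq_one_left h1
      rw [h2]; simp
    have hmem : x⁻¹ ∈ (l2 ++ l1) := by
      have : x⁻¹ ∈ ((l2 ++ l1 : List G) : Multiset G) := by rw [ht]; simp
      simpa using this
    generalize l2 ++ l1 = t at ht hcyc hmem
    obtain ⟨u, v, rfl⟩ := List.append_of_mem hmem
    have huv : ((u : Multiset G) + (v : Multiset G)) = X' + minv X' + Y := by
      have h1 : ((u ++ x⁻¹ :: v : List G) : Multiset G) = x⁻¹ ::ₘ ((u : Multiset G) + (v : Multiset G)) := by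
        rw [Multiset.coe_add, Multiset.cons_coe]
        exact Multiset.coe_eq_coe.mpr List.perm_middle
      rw [h1] at ht
      exact (Multiset.cons_inj_right _).mp ht
    have hW : x * u.prod * x⁻¹ * v.prod = 1 := by
      rw [← hcyc]
      simp [mul_assoc]
    have hD := H.D_nonneg
    rcases pair_split _ _ _ _ huv with ⟨X1, X2, Y1, Y2, hX, hYY, hu, hv⟩ | ⟨z, X'', hzu, hzv, hc, hXX⟩
    · -- separated case
      have hc12 : Multiset.card X1 + Multiset.card X2 + 1 = p := by
        rw [← hcard', ← hX]; simp
      have e1 := IH (Multiset.card X1) (by omega) (u ++ [u.prod⁻¹]) X1 (Y1 + {u.prod⁻¹}) rfl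
        (by simp) (by rw [← Multiset.coe_add, hu]; simp [add_assoc]) (by simp)
      have e2 := IH (Multiset.card X2) (by omega) (v ++ [v.prod⁻¹]) X2 (Y2 + {v.prod⁻¹}) rfl
        (by simp) (by rw [← Multiset.coe_add, hv]; simp [add_assoc]) (by simp)
      have hVU : φ v.prod⁻¹ = φ u.prod := by
        have : v.prod⁻¹ = x * u.prod * x⁻¹ := by
          rw [inv_eq_iff_mul_eq_one, ← hW]
          have h1 : x * u.prod * x⁻¹ = v.prod⁻¹ := eq_inv_of_mul_eq_one_left hW
          rw [h1]; simp
        rw [this, H.conj]
      simp only [Multiset.map_add, Multiset.sum_add, Multiset.map_singleton, Multiset.sum_singleton,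
        Multiset.card_add, Multiset.card_singleton, Nat.cast_add, Nat.cast_one] at e1 e2
      rw [hVU] at e2
      rw [H.inv] at e1
      have h3 : (Y.map φ).sum = ((Y1.map φ).sum + -φ u.prod) + ((Y2.map φ).sum + φ u.prod) := by
        rw [← hYY, sum_map_add]; ring
      have h4 : (Multiset.card Y : ℝ) = Multiset.card Y1 + Multiset.card Y2 := by
        rw [← hYY]; simp
      have h5 : (p : ℝ) = Multiset.card X1 + Multiset.card X2 + 1 := by
        rw [← hc12]; push_cast; ring
      rw [h3, h4, h5]
      have h6 := abs_add_le ((Y1.map φ).sum + -φ u.prod) ((Y2.map φ).sum + φ u.prod)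
      nlinarith [e1, e2, h6, hD]
    · -- crossing case
      obtain ⟨a, b, rfl⟩ := List.append_of_mem (by simpa using hzu : z ∈ u)
      obtain ⟨c, d, rfl⟩ := List.append_of_mem (by simpa using hzv : z⁻¹ ∈ v)
      have hm : ((d : Multiset G) + c + b + a) = X'' + minv X'' + Y := by
        have h1 : (((a ++ z :: b : List G) : Multiset G) + ((c ++ z⁻¹ :: d : List G) : Multiset G))
            = z ::ₘ z⁻¹ ::ₘ ((d : Multiset G) + c + b + a) := by
          rw [Multiset.coe_add, Multiset.coe_add, Multiset.coe_add, Multiset.coe_add,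
            Multiset.cons_coe, Multiset.cons_coe]
          refine Multiset.coe_eq_coe.mpr ?_
          rw [List.perm_iff_count]
          intro q
          simp only [List.count_append, List.count_cons]
          omega
        rw [h1, hXX] at huv
        simp only [Multiset.cons_add] at huv
        exact (Multiset.cons_inj_right _).mp ((Multiset.cons_inj_right _).mp huv)
      set A := a.prod
      set B := b.prod
      set C := c.prod
      set E := d.prod
      set x2 := (C * B * A)⁻¹ * (x * A) with hx2
      set z2 := z * B * A with hz2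
      set y0 := x2 * z2 * x2⁻¹ * z2⁻¹ with hy0
      have hW' : x * (A * z * B) * x⁻¹ * (C * z⁻¹ * E) = 1 := by
        rw [← hW]
        simp [A, B, C, E, mul_assoc]
      have hnew : (d ++ c ++ b ++ a ++ [y0]).prod = 1 := by
        have h1 : (d ++ c ++ b ++ a ++ [y0]).prod = E * C * B * A * y0 := by
          simp [A, B, C, E, mul_assoc]
        have h2 : E * C * B * A * y0 = E * (x * (A * z * B) * x⁻¹ * (C * z⁻¹ * E)) * E⁻¹ := by
          rw [hy0, hx2, hz2]; group
        rw [h1, h2, hW']; simp
      have hlt : Multiset.card X'' < p := by omega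
      have e1 := IH (Multiset.card X'') hlt (d ++ c ++ b ++ a ++ [y0]) X'' (Y + {y0}) rfl hnew
        (by
          rw [← Multiset.coe_add, ← Multiset.coe_add, ← Multiset.coe_add, ← Multiset.coe_add, hm]
          simp [add_assoc]) (by simp)
      simp only [Multiset.map_add, Multiset.sum_add, Multiset.map_singleton, Multiset.sum_singleton,
        Multiset.card_add, Multiset.card_singleton, Nat.cast_add, Nat.cast_one] at e1
      have e2 := H.comm x2 z2
      rw [← hy0] at e2
      have h5 : (p : ℝ) = Multiset.card X'' + 2 := by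
        have : p = Multiset.card X'' + 2 := by omega
        rw [this]; push_cast; ring
      rw [h5]
      have h6 := abs_add_le ((Y.map φ).sum + φ y0) (-φ y0)
      rw [add_neg_cancel_right, abs_neg] at h6
      nlinarith [e1, e2, h6, hD]

theorem multi {φ : G → ℝ} {D : ℝ} (H : HQ φ D) : ∀ (n : ℕ) (W : List (List G)) (X Y : Multiset G),
    W.length = n → (∀ w ∈ W, w.prod = 1 ∧ 2 ≤ w.length) →
    ((W.flatten : List G) : Multiset G) = X + minv X + Y →
    |(Y.map φ).sum| ≤ D * ((W.map (fun w => (w.length : ℝ) / 2 - 1)).sum)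
      + D / 2 * (Multiset.card Y : ℝ) := by
  classical
  intro n
  induction n with
  | zero =>
    intro W X Y hn _ hW
    have : W = [] := List.length_eq_zero_iff.mp hn
    subst this
    simp only [List.flatten_nil, Multiset.coe_nil] at hW
    have hY : Y = 0 := by
      have := congrArg Multiset.card hW
      simp at this
      exact Multiset.card_eq_zero.mp (by omega)
    subst hY
    simp
  | succ n IH =>
    intro W X Y hn hall hW
    obtain ⟨w, W', rfl⟩ : ∃ w W', W = w :: W' := by
      cases W with
      | nil => simp at hn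
      | cons w W' => exact ⟨w, W', rfl⟩
    have hn' : W'.length = n := by simpa using hn
    have hw := hall w (by simp)
    have hall' : ∀ w' ∈ W', w'.prod = 1 ∧ 2 ≤ w'.length := fun w' h => hall w' (by simp [h])
    have hD := H.D_nonneg
    rw [List.flatten_cons, ← Multiset.coe_add] at hW
    rcases pair_split _ _ _ _ hW with ⟨X1, X2, Y1, Y2, hX, hYY, hu, hv⟩ | ⟨z, X'', hzu, hzv, hc, hXX⟩
    · have e2 := IH W' X2 Y2 hn' hall' hv
      have hlen : (w.length : ℝ) = 2 * Multiset.card X1 + Multiset.card Y1 := by
        have := congrArg Multiset.card hu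
        simp at this
        rw [this]; push_cast; ring
      have hlen2 : (2 : ℝ) ≤ w.length := by exact_mod_cast hw.2
      have e1 : |(Y1.map φ).sum| ≤ D * ((w.length : ℝ) / 2 - 1) + D / 2 * (Multiset.card Y1 : ℝ) := by
        by_cases hY1 : Y1 = 0
        · subst hY1
          simp only [Multiset.map_zero, Multiset.sum_zero, abs_zero, Multiset.card_zero,
            Nat.cast_zero, mul_zero, add_zero]
          exact mul_nonneg hD (by linarith)
        · have := single_word H (Multiset.card X1) w X1 Y1 rfl hw.1 hu hY1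
          rw [hlen]
          nlinarith [this]
      have h3 : (Y.map φ).sum = (Y1.map φ).sum + (Y2.map φ).sum := by
        rw [← hYY, sum_map_add]
      have h4 : (Multiset.card Y : ℝ) = Multiset.card Y1 + Multiset.card Y2 := by
        rw [← hYY]; simp
      rw [h3, h4, List.map_cons, List.sum_cons]
      have h6 := abs_add_le (Y1.map φ).sum (Y2.map φ).sum
      nlinarith [e1, e2, h6]
    · have hzv' : ∃ w' ∈ W', z⁻¹ ∈ w' := by
        have : z⁻¹ ∈ W'.flatten := by simpa using hzv
        exact List.mem_flatten.mp this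
      obtain ⟨w', hw'W, hzw'⟩ := hzv'
      obtain ⟨L1, L2, rfl⟩ := List.append_of_mem hw'W
      obtain ⟨a, b, rfl⟩ := List.append_of_mem (by simpa using hzu : z ∈ w)
      obtain ⟨c, d, rfl⟩ := List.append_of_mem hzw'
      have hw' := hall' (c ++ z⁻¹ :: d) (by simp)
      have e := IH ((b ++ a ++ (d ++ c)) :: (L1 ++ L2)) X'' Y (by simp at hn' ⊢; omega)
        (by
          intro q hq
          rcases List.mem_cons.mp hq with rfl | hq
          · constructor
            · have h1 : a.prod * (z * b.prod) = 1 := by simpa using hw.1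
              have h2 : c.prod * (z⁻¹ * d.prod) = 1 := by simpa using hw'.1
              have h3 : b.prod * a.prod = z⁻¹ := by
                have : a.prod = (z * b.prod)⁻¹ := eq_inv_of_mul_eq_one_left h1
                rw [this]; simp
              have h4 : d.prod * c.prod = z := by
                have : c.prod = (z⁻¹ * d.prod)⁻¹ := eq_inv_of_mul_eq_one_left h2
                rw [this]; simp
              simp only [List.prod_append]
              rw [h3, h4]; simp
            · have h1 := hw.2
              have h2 := hw'.2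
              simp only [List.length_append, List.length_cons] at h1 h2 ⊢
              omega
          · exact hall' q (by
              rcases List.mem_append.mp hq with h | h
              · simp [h]
              · simp [h]))
        (by
          have h1 : (((a ++ z :: b : List G) : Multiset G)
              + (((L1 ++ (c ++ z⁻¹ :: d) :: L2).flatten : List G) : Multiset G))
              = z ::ₘ z⁻¹ ::ₘ (((((b ++ a ++ (d ++ c)) :: (L1 ++ L2)).flatten : List G)) : Multiset G) := by
            rw [Multiset.coe_add, Multiset.cons_coe, Multiset.cons_coe]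
            refine Multiset.coe_eq_coe.mpr ?_
            rw [List.perm_iff_count]
            intro q
            simp only [List.count_append, List.count_cons, List.flatten_append, List.flatten_cons]
            omega
          rw [h1, hXX] at hW
          simp only [Multiset.cons_add] at hW
          exact (Multiset.cons_inj_right _).mp ((Multiset.cons_inj_right _).mp hW))
      have h7 : (((b ++ a ++ (d ++ c)) :: (L1 ++ L2)).map (fun w => (w.length : ℝ) / 2 - 1)).sum
          = (((a ++ z :: b) :: (L1 ++ (c ++ z⁻¹ :: d) :: L2)).map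
              (fun w => (w.length : ℝ) / 2 - 1)).sum := by
        simp only [List.map_cons, List.sum_cons, List.map_append, List.sum_append,
          List.length_append, List.length_cons, Nat.cast_add, Nat.cast_one]
        ring
      rw [h7] at e
      exact e


/-! ### The ℓ¹ norm of finitely supported chains -/

section L1

variable {ι : Type*}

/-- ℓ¹ norm -/
noncomputable def N1 (f : ι →₀ ℝ) : ℝ := f.sum (fun _ r => |r|)

lemma N1_eq (f : ι →₀ ℝ) {s : Finset ι} (h : f.support ⊆ s) : N1 f = ∑ i ∈ s, |f i| := by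
  unfold N1
  exact Finsupp.sum_of_support_subset f h _ (by simp)

lemma N1_nonneg (f : ι →₀ ℝ) : 0 ≤ N1 f := by
  rw [N1_eq f (Finset.Subset.refl _)]
  exact Finset.sum_nonneg (fun _ _ => abs_nonneg _)

lemma N1_add_le (f g : ι →₀ ℝ) : N1 (f + g) ≤ N1 f + N1 g := by
  classical
  have h1 : f.support ⊆ f.support ∪ g.support := Finset.subset_union_left
  have h2 : g.support ⊆ f.support ∪ g.support := Finset.subset_union_right
  have h3 : (f + g).support ⊆ f.support ∪ g.support := Finsupp.support_add
  rw [N1_eq f h1, N1_eq g h2, N1_eq (f + g) h3, ← Finset.sum_add_distrib]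
  exact Finset.sum_le_sum (fun i _ => by simpa using abs_add_le (f i) (g i))

lemma N1_smul (c : ℝ) (f : ι →₀ ℝ) : N1 (c • f) = |c| * N1 f := by
  have h3 : (c • f).support ⊆ f.support := Finsupp.support_smul
  rw [N1_eq f (Finset.Subset.refl _), N1_eq (c • f) h3, Finset.mul_sum]
  exact Finset.sum_congr rfl (fun i _ => by simp [abs_mul])

lemma N1_neg (f : ι →₀ ℝ) : N1 (-f) = N1 f := by
  have := N1_smul (-1) f
  simpa using this

lemma N1_zero : N1 (0 : ι →₀ ℝ) = 0 := by simp [N1]

lemma N1_single (i : ι) (r : ℝ) : N1 (Finsupp.single i r) = |r| := by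
  simp [N1]

/-- the chain of a multiset -/
noncomputable def chain (P : Multiset ι) : ι →₀ ℝ := (P.map (fun i => Finsupp.single i (1:ℝ))).sum

lemma chain_add (P Q : Multiset ι) : chain (P + Q) = chain P + chain Q := by
  simp [chain]

lemma chain_apply [DecidableEq ι] (P : Multiset ι) (i : ι) : chain P i = P.count i := by
  induction P using Multiset.induction_on with
  | empty => simp [chain]
  | cons a P ih =>
    have : chain (a ::ₘ P) = Finsupp.single a 1 + chain P := by simp [chain]
    rw [this, Finsupp.add_apply, ih, Multiset.count_cons]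
    by_cases h : i = a
    · subst h; simp; ring
    · simp [h]

lemma N1_chain_sub [DecidableEq ι] (P Q : Multiset ι) :
    N1 (chain P - chain Q) = (Multiset.card (P - Q) : ℝ) + (Multiset.card (Q - P) : ℝ) := by
  have hs : (chain P - chain Q).support ⊆ P.toFinset ∪ Q.toFinset := by
    intro i hi
    rw [Finsupp.mem_support_iff] at hi
    by_contra hne
    apply hi
    rw [Finset.mem_union, not_or, Multiset.mem_toFinset, Multiset.mem_toFinset] at hne
    rw [Finsupp.sub_apply, chain_apply, chain_apply, Multiset.count_eq_zero_of_notMem hne.1,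
      Multiset.count_eq_zero_of_notMem hne.2]
    simp
  have h1 : ∑ a ∈ P.toFinset ∪ Q.toFinset, Multiset.count a (P - Q) = Multiset.card (P - Q) := by
    refine Multiset.sum_count_eq_card (fun a ha => ?_)
    have : a ∈ P := Multiset.mem_of_le (Multiset.sub_le_self P Q) ha
    simp [this]
  have h2 : ∑ a ∈ P.toFinset ∪ Q.toFinset, Multiset.count a (Q - P) = Multiset.card (Q - P) := by
    refine Multiset.sum_count_eq_card (fun a ha => ?_)
    have : a ∈ Q := Multiset.mem_of_le (Multiset.sub_le_self Q P) ha
    simp [this]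
  rw [N1_eq _ hs, ← h1, ← h2]
  push_cast
  rw [← Finset.sum_add_distrib]
  refine Finset.sum_congr rfl (fun i _ => ?_)
  rw [Pi.sub_apply, chain_apply, chain_apply, Multiset.count_sub, Multiset.count_sub]
  rcases le_total (Multiset.count i P) (Multiset.count i Q) with h | h
  · have h3 : Multiset.count i P - Multiset.count i Q = 0 := Nat.sub_eq_zero_of_le h
    rw [h3, Nat.cast_sub h, abs_of_nonpos (by simpa using h)]
    simp
  · have h3 : Multiset.count i Q - Multiset.count i P = 0 := Nat.sub_eq_zero_of_le h
    rw [h3, Nat.cast_sub h, abs_of_nonneg (by simpa using h)]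
    simp

end L1

/-- boundary of two-chains -/
noncomputable def bd : (G × G →₀ ℝ) →ₗ[ℝ] (G →₀ ℝ) :=
  Finsupp.linearCombination ℝ (fun p : G × G =>
    Finsupp.single p.1 (1:ℝ) + Finsupp.single p.2 1 - Finsupp.single (p.1 * p.2) 1)

/-- evaluation -/
noncomputable def ev (φ : G → ℝ) : (G →₀ ℝ) →ₗ[ℝ] ℝ := Finsupp.linearCombination ℝ φ

omit [Group G] in
lemma ev_chain (φ : G → ℝ) (P : Multiset G) : ev φ (chain P) = (P.map φ).sum := by
  induction P using Multiset.induction_on with
  | empty => simp [chain, ev]
  | cons a P ih =>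
    have : chain (a ::ₘ P) = Finsupp.single a 1 + chain P := by simp [chain]
    rw [this, map_add, ih]
    simp [ev]

/-- positive letters -/
def pl (P N : Multiset (G × G)) : Multiset G := P.map (fun t => t.1) + P.map (fun t => t.2) + N.map (fun t => t.1 * t.2)

lemma bd_chain_sub (P N : Multiset (G × G)) :
    bd (chain P - chain N) = chain (pl P N) - chain (pl N P) := by
  have key : ∀ P : Multiset (G × G), bd (chain P) = chain (P.map (fun t => t.1))
      + chain (P.map (fun t => t.2)) - chain (P.map (fun t => t.1 * t.2)) := by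
    intro P
    induction P using Multiset.induction_on with
    | empty => simp [chain]
    | cons a P ih =>
      have h1 : chain (a ::ₘ P) = Finsupp.single a 1 + chain P := by simp [chain]
      rw [h1, map_add, ih]
      simp only [chain, bd, Multiset.map_cons, Multiset.sum_cons, Finsupp.linearCombination_single,
        one_smul]
      abel
  rw [map_sub, key, key]
  simp only [pl, chain_add]
  abel

/-- the words of the triangles -/
noncomputable def words (P N : Multiset (G × G)) : List (List G) :=
  P.toList.map (fun t => [t.1, t.2, (t.1 * t.2)⁻¹]) ++ N.toList.map (fun t => [t.1 * t.2, t.2⁻¹, t.1⁻¹])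

lemma words_flatten (P N : Multiset (G × G)) :
    (((words P N).flatten : List G) : Multiset G) = pl P N + minv (pl N P) := by
  have h1 : ∀ l : List (G × G), (((l.map (fun t : G × G => [t.1, t.2, (t.1 * t.2)⁻¹])).flatten : List G)
      : Multiset G) = (l : Multiset (G × G)).map (fun t => t.1) + (l : Multiset (G × G)).map (fun t => t.2)
        + minv ((l : Multiset (G × G)).map (fun t => t.1 * t.2)) := by
    intro l
    induction l with
    | nil => simp [minv]
    | cons a l ih =>
      have : (([a.1, a.2, (a.1 * a.2)⁻¹] : List G) : Multiset G) = {a.1} + {a.2} + {(a.1 * a.2)⁻¹} := by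
        rfl
      have h0 : ((a :: l : List (G × G)) : Multiset (G × G)) = a ::ₘ (l : Multiset (G × G)) := rfl
      rw [List.map_cons, List.flatten_cons, ← Multiset.coe_add, ih, this, h0]
      simp only [Multiset.map_cons, minv_cons]
      simp only [← Multiset.singleton_add]
      abel
  have h2 : ∀ l : List (G × G), (((l.map (fun t : G × G => [t.1 * t.2, t.2⁻¹, t.1⁻¹])).flatten : List G)
      : Multiset G) = (l : Multiset (G × G)).map (fun t => t.1 * t.2)
        + minv ((l : Multiset (G × G)).map (fun t => t.1) + (l : Multiset (G × G)).map (fun t => t.2)) := by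
    intro l
    induction l with
    | nil => simp [minv]
    | cons a l ih =>
      have : (([a.1 * a.2, a.2⁻¹, a.1⁻¹] : List G) : Multiset G) = {a.1 * a.2} + {a.2⁻¹} + {a.1⁻¹} := by
        rfl
      have h0 : ((a :: l : List (G × G)) : Multiset (G × G)) = a ::ₘ (l : Multiset (G × G)) := rfl
      rw [List.map_cons, List.flatten_cons, ← Multiset.coe_add, ih, this, h0]
      simp only [Multiset.map_cons, minv_add, minv_cons]
      simp only [← Multiset.singleton_add]
      abel
  unfold words
  rw [List.flatten_append, ← Multiset.coe_add, h1, h2, Multiset.coe_toList, Multiset.coe_toList]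
  simp only [pl, minv_add]
  abel

/-- the functional measuring the inequality -/
noncomputable def F (φ : G → ℝ) (D : ℝ) (α : G × G →₀ ℝ) : ℝ :=
  D / 2 * (N1 α + N1 (bd α)) - ev φ (bd α)

lemma F_chain {φ : G → ℝ} {D : ℝ} (H : HQ φ D) [DecidableEq G] (P N : Multiset (G × G))
    (hPN : ((Multiset.card P : ℝ) + Multiset.card N) ≤ N1 (chain P - chain N)) :
    0 ≤ F φ D (chain P - chain N) := by
  classical
  set A := pl P N with hA
  set B := pl N P with hB
  have hflat : (((words P N).flatten : List G) : Multiset G)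
      = (A ∩ B) + minv (A ∩ B) + ((A - B) + minv (B - A)) := by
    rw [words_flatten, ← hA, ← hB]
    have e1 : A = (A - B) + A ∩ B := (Multiset.sub_add_inter A B).symm
    have e2 : B = (B - A) + A ∩ B := by
      rw [Multiset.inter_comm]; exact (Multiset.sub_add_inter B A).symm
    have e3 : minv B = minv (B - A) + minv (A ∩ B) := by
      conv_lhs => rw [e2]
      rw [minv_add]
    rw [e3]
    have e4 : A + (minv (B - A) + minv (A ∩ B)) = ((A - B) + A ∩ B) + (minv (B - A) + minv (A ∩ B)) := by
      rw [← e1]
    rw [e4]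
    generalize A - B = q1
    generalize minv (B - A) = q2
    generalize minv (A ∩ B) = q3
    generalize A ∩ B = q4
    abel
  have hm := multi H (words P N).length (words P N) (A ∩ B) ((A - B) + minv (B - A)) rfl
    (by
      intro w hw
      unfold words at hw
      rcases List.mem_append.mp hw with h | h
      · obtain ⟨t, _, rfl⟩ := List.mem_map.mp h
        simp
      · obtain ⟨t, _, rfl⟩ := List.mem_map.mp h
        simp) hflat
  have hsum : ((words P N).map (fun w => (w.length : ℝ) / 2 - 1)).sum
      = ((Multiset.card P : ℝ) + Multiset.card N) / 2 := by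
    unfold words
    rw [List.map_append, List.sum_append, List.map_map, List.map_map]
    have e1 : ∀ (l : List (G × G)) (f : G × G → List G), (∀ t, (f t).length = 3) →
        (l.map ((fun w : List G => (w.length : ℝ) / 2 - 1) ∘ f)).sum = (l.length : ℝ) / 2 := by
      intro l f hf
      induction l with
      | nil => simp
      | cons a l ih =>
        rw [List.map_cons, List.sum_cons, ih]
        simp only [Function.comp, hf, List.length_cons]
        push_cast
        ring
    rw [e1 _ _ (by intro t; rfl), e1 _ _ (by intro t; rfl), Multiset.length_toList,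
      Multiset.length_toList]
    ring
  rw [hsum] at hm
  have hcard : (Multiset.card ((A - B) + minv (B - A)) : ℝ) = N1 (bd (chain P - chain N)) := by
    rw [bd_chain_sub, N1_chain_sub, Multiset.card_add, card_minv]
    push_cast
    rfl
  have hev : ev φ (bd (chain P - chain N)) = (((A - B) + minv (B - A)).map φ).sum := by
    rw [bd_chain_sub, map_sub, ev_chain, ev_chain, ← hA, ← hB, sum_map_add]
    have e1 : A = (A - B) + A ∩ B := (Multiset.sub_add_inter A B).symm
    have e2 : B = (B - A) + A ∩ B := by
      rw [Multiset.inter_comm]; exact (Multiset.sub_add_inter B A).symm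
    have e3 : (A.map φ).sum = ((A - B).map φ).sum + ((A ∩ B).map φ).sum := by
      conv_lhs => rw [e1]
      rw [sum_map_add]
    have e4 : (B.map φ).sum = ((B - A).map φ).sum + ((A ∩ B).map φ).sum := by
      conv_lhs => rw [e2]
      rw [sum_map_add]
    have e5 : ((minv (B - A)).map φ).sum = - ((B - A).map φ).sum := by
      generalize (B - A) = Z
      induction Z using Multiset.induction_on with
      | empty => simp [minv]
      | cons a Z ih =>
        rw [minv_cons, Multiset.map_cons, Multiset.sum_cons, ih, H.inv, Multiset.map_cons,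
          Multiset.sum_cons]
        ring
    rw [e3, e4, e5]
    ring
  unfold F
  rw [hev, ← hcard]
  have h1 := le_abs_self ((((A - B) + minv (B - A)).map φ).sum)
  have hD := H.D_nonneg
  nlinarith [hm, h1, hPN, hD]


section Sublinear

variable {φ : G → ℝ} {D : ℝ}

lemma F_add_le (hD : 0 ≤ D) (α β : G × G →₀ ℝ) : F φ D (α + β) ≤ F φ D α + F φ D β := by
  unfold F
  rw [map_add, map_add]
  have h1 := N1_add_le α β
  have h2 := N1_add_le (bd α) (bd β)
  nlinarith [h1, h2, hD]

lemma F_smul {c : ℝ} (hc : 0 ≤ c) (α : G × G →₀ ℝ) : F φ D (c • α) = c * F φ D α := by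
  unfold F
  rw [map_smul, map_smul, N1_smul, N1_smul, abs_of_nonneg hc, smul_eq_mul]
  ring

lemma F_zero : F φ D 0 = 0 := by
  simp [F, N1_zero]

lemma F_sum_le (hD : 0 ≤ D) {κ : Type*} (s : Finset κ) (f : κ → (G × G →₀ ℝ)) :
    F φ D (∑ i ∈ s, f i) ≤ ∑ i ∈ s, F φ D (f i) := by
  classical
  induction s using Finset.induction_on with
  | empty => simp [F_zero]
  | insert a s ha ih =>
    rw [Finset.sum_insert ha, Finset.sum_insert ha]
    exact (F_add_le hD _ _).trans (by linarith)

/-- integer points -/
lemma F_int (H : HQ φ D) (β : G × G →₀ ℤ) :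
    0 ≤ F φ D (β.mapRange (fun m : ℤ => (m : ℝ)) (by simp)) := by
  classical
  set P : Multiset (G × G) := Finsupp.toMultiset (β.mapRange Int.toNat rfl) with hP
  set N : Multiset (G × G) := Finsupp.toMultiset (β.mapRange (fun m : ℤ => (-m).toNat) rfl) with hN
  have hcP : ∀ i, P.count i = (β i).toNat := by
    intro i; rw [hP, Finsupp.count_toMultiset]; rfl
  have hcN : ∀ i, N.count i = (-(β i)).toNat := by
    intro i; rw [hN, Finsupp.count_toMultiset]; rfl
  have hβ : β.mapRange (fun m : ℤ => (m : ℝ)) (by simp) = chain P - chain N := by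
    ext i
    rw [Finsupp.sub_apply, chain_apply, chain_apply, hcP, hcN, Finsupp.mapRange_apply]
    have : ((β i).toNat : ℤ) - ((-(β i)).toNat : ℤ) = β i := by omega
    have h2 : (((β i).toNat : ℤ) : ℝ) - (((-(β i)).toNat : ℤ) : ℝ) = ((β i : ℤ) : ℝ) := by
      exact_mod_cast congrArg (Int.cast (R := ℝ)) this
    rw [← h2]
    rw [Int.cast_natCast, Int.cast_natCast]
  rw [hβ]
  refine F_chain H P N ?_
  rw [N1_chain_sub]
  have e1 : P - N = P := by
    ext i
    rw [Multiset.count_sub, hcP, hcN]
    omega
  have e2 : N - P = N := by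
    ext i
    rw [Multiset.count_sub, hcP, hcN]
    omega
  rw [e1, e2]

lemma F_nonneg (H : HQ φ D) (α : G × G →₀ ℝ) : 0 ≤ F φ D α := by
  classical
  have hD := H.D_nonneg
  set K : ℝ := ∑ i ∈ α.support, |F φ D (-(Finsupp.single i (1:ℝ)))| with hK
  have key : ∀ n : ℕ, -K ≤ (n : ℝ) * F φ D α := by
    intro n
    -- floor approximation
    have hfl0 : (⌊(n : ℝ) * 0⌋ : ℤ) = 0 := by simp
    set β : G × G →₀ ℤ := α.mapRange (fun r => ⌊(n : ℝ) * r⌋) hfl0 with hβ
    have h1 := F_int H β
    have h2 : β.mapRange (fun m : ℤ => (m : ℝ)) (by simp)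
        = (n : ℝ) • α + ∑ i ∈ α.support, (Int.fract ((n : ℝ) * α i)) • (-(Finsupp.single i (1:ℝ))) := by
      ext j
      rw [Finsupp.mapRange_apply, hβ, Finsupp.mapRange_apply, Finsupp.add_apply,
        Finsupp.finsetSum_apply, Finsupp.smul_apply]
      simp only [Finsupp.smul_apply, Finsupp.neg_apply, smul_eq_mul, Finsupp.single_apply]
      by_cases hj : j ∈ α.support
      · rw [Finset.sum_eq_single j]
        · have := Int.floor_add_fract ((n : ℝ) * α j)
          simp only [if_true]
          linarith
        · intro b _ hb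
          simp [hb]
        · intro h; exact absurd hj h
      · have h0 : α j = 0 := by simpa using hj
        rw [Finset.sum_eq_zero]
        · rw [h0]; simp
        · intro b hb
          have : b ≠ j := by rintro rfl; exact hj hb
          simp [this]
    rw [h2] at h1
    have h3 := F_add_le (φ := φ) hD ((n : ℝ) • α)
      (∑ i ∈ α.support, (Int.fract ((n : ℝ) * α i)) • (-(Finsupp.single i (1:ℝ))))
    have h4 := F_sum_le (φ := φ) hD α.support
      (fun i => (Int.fract ((n : ℝ) * α i)) • (-(Finsupp.single i (1:ℝ))))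
    have h5 : ∑ i ∈ α.support, F φ D ((Int.fract ((n : ℝ) * α i)) • (-(Finsupp.single i (1:ℝ)))) ≤ K := by
      rw [hK]
      refine Finset.sum_le_sum (fun i _ => ?_)
      rw [F_smul (Int.fract_nonneg _)]
      have a1 := Int.fract_nonneg ((n : ℝ) * α i)
      have a2 := (Int.fract_lt_one ((n : ℝ) * α i)).le
      have a3 := le_abs_self (F φ D (-(Finsupp.single i (1:ℝ))))
      have a4 := abs_nonneg (F φ D (-(Finsupp.single i (1:ℝ))))
      nlinarith
    rw [F_smul (Nat.cast_nonneg n)] at h3
    linarith
  by_contra hneg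
  push Not at hneg
  obtain ⟨n, hn⟩ := exists_nat_gt (K / (-F φ D α))
  rw [div_lt_iff₀ (by linarith)] at hn
  have := key n
  linarith

/-- the functional -/
noncomputable def q (φ : G → ℝ) (D : ℝ) (y : G →₀ ℝ) (α : G × G →₀ ℝ) : ℝ :=
  D / 2 * N1 (y - bd α) + D / 2 * N1 α - ev φ (bd α)

lemma q_lower (H : HQ φ D) (y : G →₀ ℝ) (α : G × G →₀ ℝ) : -(D / 2 * N1 y) ≤ q φ D y α := by
  have h1 := F_nonneg H α
  have h2 := N1_add_le (bd α - y) y
  rw [sub_add_cancel] at h2
  have h3 : N1 (bd α - y) = N1 (y - bd α) := by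
    rw [← N1_neg, neg_sub]
  have hD := H.D_nonneg
  unfold F at h1
  unfold q
  rw [h3] at h2
  nlinarith [h1, h2, hD]

/-- the sublinear functional -/
noncomputable def p (φ : G → ℝ) (D : ℝ) (y : G →₀ ℝ) : ℝ := ⨅ α, q φ D y α

lemma q_bdd (H : HQ φ D) (y : G →₀ ℝ) : BddBelow (Set.range (q φ D y)) :=
  ⟨-(D / 2 * N1 y), by rintro _ ⟨α, rfl⟩; exact q_lower H y α⟩

lemma p_le (H : HQ φ D) (y : G →₀ ℝ) (α : G × G →₀ ℝ) : p φ D y ≤ q φ D y α :=
  ciInf_le (q_bdd H y) α

lemma q_smul {c : ℝ} (hc : 0 ≤ c) (y : G →₀ ℝ) (α : G × G →₀ ℝ) :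
    q φ D (c • y) (c • α) = c * q φ D y α := by
  unfold q
  rw [map_smul, map_smul, ← smul_sub, N1_smul, N1_smul, abs_of_nonneg hc, smul_eq_mul]
  ring

lemma p_smul {c : ℝ} (hc : 0 < c) (y : G →₀ ℝ) : p φ D (c • y) = c * p φ D y := by
  unfold p
  rw [Real.mul_iInf_of_nonneg hc.le]
  have hs : Function.Surjective (fun α : G × G →₀ ℝ => c • α) := by
    intro α
    refine ⟨c⁻¹ • α, ?_⟩
    simp [smul_smul, mul_inv_cancel₀ hc.ne']
  rw [← hs.iInf_comp]
  congr 1
  ext α
  exact q_smul hc.le y α

lemma p_add_le (H : HQ φ D) (y z : G →₀ ℝ) : p φ D (y + z) ≤ p φ D y + p φ D z := by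
  refine le_ciInf_add_ciInf (fun α β => (p_le H (y + z) (α + β)).trans ?_)
  have hD := H.D_nonneg
  unfold q
  rw [map_add, map_add]
  have h1 := N1_add_le α β
  have h2 := N1_add_le (y - bd α) (z - bd β)
  have h3 : y - bd α + (z - bd β) = y + z - (bd α + bd β) := by abel
  rw [h3] at h2
  nlinarith [h1, h2, hD]

theorem exists_half_defect (H : HQ φ D) :
    ∃ ψ : G → ℝ, (∀ g, |ψ g - φ g| ≤ D / 2) ∧ ∀ g h, |ψ (g * h) - ψ g - ψ h| ≤ D / 2 := by
  have hD := H.D_nonneg
  obtain ⟨b, _, hb⟩ := exists_extension_of_le_sublinear (⊥ : (G →₀ ℝ) →ₗ.[ℝ] ℝ) (p φ D)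
    (fun c hc y => p_smul hc y) (fun y z => p_add_le H y z)
    (by
      intro x
      have hx : (x : G →₀ ℝ) = 0 := (Submodule.mem_bot ℝ).mp x.2
      have hx2 : x = 0 := Subtype.ext hx
      rw [hx2]
      rw [LinearPMap.map_zero]
      have : -(D / 2 * N1 (0 : G →₀ ℝ)) ≤ p φ D 0 := le_ciInf (fun α => q_lower H 0 α)
      rw [N1_zero] at this
      simpa using this)
  refine ⟨fun g => φ g + b (Finsupp.single g 1), ?_, ?_⟩
  · intro g
    have h1 := (hb (Finsupp.single g 1)).trans (p_le H (Finsupp.single g 1) 0)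
    have h2 := (hb (-Finsupp.single g 1)).trans (p_le H (-Finsupp.single g 1) 0)
    unfold q at h1 h2
    rw [map_zero, map_zero, sub_zero, sub_zero, N1_single, N1_zero] at h1
    rw [map_zero, map_zero, sub_zero, sub_zero, N1_neg, N1_single, N1_zero, map_neg] at h2
    simp only [abs_one, mul_one, mul_zero, add_zero] at h1 h2
    rw [add_sub_cancel_left, abs_le]
    constructor <;> linarith
  · intro g h
    have e0 : bd (Finsupp.single (g, h) (1:ℝ)) = Finsupp.single g (1:ℝ) + Finsupp.single h 1
        - Finsupp.single (g * h) 1 := by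
      simp [bd]
    have h1 := (hb (bd (Finsupp.single (g, h) (1:ℝ)))).trans
      (p_le H (bd (Finsupp.single (g, h) (1:ℝ))) (Finsupp.single (g, h) (1:ℝ)))
    have h2 := (hb (bd (-Finsupp.single (g, h) (1:ℝ)))).trans
      (p_le H (bd (-Finsupp.single (g, h) (1:ℝ))) (-Finsupp.single (g, h) (1:ℝ)))
    unfold q at h1 h2
    rw [sub_self, N1_zero, N1_single] at h1
    rw [sub_self, N1_zero, N1_neg, N1_single] at h2
    simp only [map_neg, abs_one, mul_one, mul_zero, zero_add] at h1 h2
    rw [e0] at h1 h2
    simp only [map_add, map_sub] at h1 h2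
    have ev1 : ∀ x : G, ev φ (Finsupp.single x (1:ℝ)) = φ x := by intro x; simp [ev]
    rw [ev1, ev1, ev1] at h1 h2
    rw [abs_le]
    constructor <;> linarith

end Sublinear

end Pool.Agent.V1118.QmDefect
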